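import Pool.Agent.FRK.GN

/-!
# FRK/GO: from groups with an automorphism to groups `F⟨a⟩`

Port of `FRS/MainP.lean` with `lf_all` instead of `lf_hyp`.
-/

set_option autoImplicit false

namespace Pool.Agent.FRK

open Pool.Agent.FRB (Inv Eig LF SS Lam)
open Pool.Agent.FRS (Root Hyp exists_root)

universe u

private theorem fin_of_image {G : Type u} [Group G] (F : Subgroup G) (S : Set F)
    (h : ((Subgroup.closure ((fun x : F => (x : G)) '' S) : Subgroup G) : Set G).Finite) :
    ((Subgroup.closure S : Subgroup F) : Set F).Finite := by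
  have e : (Subgroup.closure S).map F.subtype =
      Subgroup.closure ((fun x : F => (x : G)) '' S) := MonoidHom.map_closure F.subtype S
  rw [← e, Subgroup.coe_map] at h
  exact h.of_finite_image (Set.injOn_of_injective F.subtype_injective)

private theorem fin_image' {G : Type u} [Group G] (F : Subgroup G) (S : Set F)
    (h : ((Subgroup.closure S : Subgroup F) : Set F).Finite) :
    ((Subgroup.closure ((fun x : F => (x : G)) '' S) : Subgroup G) : Set G).Finite := by
  have e : (Subgroup.closure S).map F.subtype =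
      Subgroup.closure ((fun x : F => (x : G)) '' S) := MonoidHom.map_closure F.subtype S
  rw [← e, Subgroup.coe_map]
  exact h.image _

theorem main_r {p : ℕ} (hp : p.Prime) (h5 : 5 ≤ p) {G : Type u} [Group G] (F : Subgroup G) (a : G)
    (hFn : F.Normal) (ha : orderOf a = p)
    (hgen : ∀ g : G, ∃ f ∈ F, ∃ k : ℕ, g = f * a ^ k) (hfpf : ∀ f ∈ F, a * f * a⁻¹ = f → f = 1)
    (hbin : ∀ x y : G, ((Subgroup.closure ({x, y} : Set G) : Subgroup G) : Set G).Finite)
    (r : ℕ) (hr : r.Prime) (hrp : r % p = 1) (hb : p * (p - 1) < 2 * r) (hF : ∀ f ∈ F, ∃ n : ℕ, f ^ (r ^ n) = 1) :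
    ∀ s : Finset G, ((Subgroup.closure (s : Set G) : Subgroup G) : Set G).Finite := by
  have hap1 : a ^ p = 1 := by rw [← ha, pow_orderOf_eq_one]
  obtain ⟨a', ha'⟩ : ∃ a' : MulAut F, a' = MulAut.conjNormal a := ⟨_, rfl⟩
  have hap : ∀ x : F, ((a' x : F) : G) = a * x * a⁻¹ := by
    intro x
    rw [ha']
    exact MulAut.conjNormal_apply a x
  have hpp : a' ^ p = 1 := by rw [ha', ← map_pow, hap1, map_one]
  have hmem : ∀ x : F, ∀ T : Subgroup G, a ∈ T → ((x : F) : G) ∈ T →
      ∀ n : ℕ, (((a' ^ n) x : F) : G) ∈ T := by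
    intro x T hT hx n
    induction n with
    | zero => rwa [pow_zero, MulAut.one_apply]
    | succ n ih =>
      rw [pow_succ', MulAut.mul_apply, hap]
      exact T.mul_mem (T.mul_mem hT ih) (T.inv_mem hT)
  have H : Hyp p r a' := by
    refine ⟨hp.pos, ?_, hpp, ?_, ?_, ?_⟩
    · intro x
      obtain ⟨n, hn⟩ := hF x x.2
      exact ⟨n, Subtype.ext (by simpa using hn)⟩
    · intro x hx
      have h1 : a * (x : G) * a⁻¹ = x := by rw [← hap, hx]
      exact Subtype.ext (hfpf x x.2 h1)
    · intro x y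
      apply fin_of_image
      have h1 : (fun z : F => (z : G)) '' {x, y} = {(x : G), (y : G)} := Set.image_pair _ _ _
      rw [h1]
      exact hbin x y
    · intro x
      apply fin_of_image
      refine (hbin (x : G) a).subset ?_
      have hxT : (x : G) ∈ Subgroup.closure ({(x : G), a} : Set G) :=
        Subgroup.subset_closure (Or.inl rfl)
      have haT : a ∈ Subgroup.closure ({(x : G), a} : Set G) :=
        Subgroup.subset_closure (Or.inr rfl)
      have h5 : Subgroup.closure ((fun z : F => (z : G)) '' (Set.range fun n : ℕ => (a' ^ n) x)) ≤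
          Subgroup.closure ({(x : G), a} : Set G) := by
        rw [Subgroup.closure_le]
        rintro z ⟨w, ⟨n, rfl⟩, rfl⟩
        exact hmem x _ haT hxT n
      exact h5
  obtain ⟨k, hk⟩ := exists_root hp h5 hr hrp
  have hLF := lf_all hk hb H
  have hN : LF F := by
    intro s hs
    classical
    obtain ⟨t, ht⟩ : ∃ t : Finset F, t = s.attach.image
      fun z : {x // x ∈ s} => (⟨z.1, hs (Finset.mem_coe.2 z.2)⟩ : F) := ⟨_, rfl⟩
    have e : (fun z : F => (z : G)) '' (t : Set F) = (s : Set G) := by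
      ext z
      constructor
      · rintro ⟨w, hw, rfl⟩
        rw [ht] at hw
        obtain ⟨v, _, rfl⟩ := Finset.mem_image.1 (Finset.mem_coe.1 hw)
        exact v.2
      · intro hz
        refine ⟨⟨z, hs hz⟩, ?_, rfl⟩
        rw [ht]
        exact Finset.mem_coe.2 (Finset.mem_image.2
          ⟨⟨z, Finset.mem_coe.1 hz⟩, Finset.mem_attach _ _, rfl⟩)
    rw [← e]
    apply fin_image'
    exact hLF t (fun _ _ => Subgroup.mem_top _)
  have hfin : (Set.univ : Set (G ⧸ F)).Finite := by
    refine ((Finset.range p).finite_toSet.image fun i => ((a ^ i : G) : G ⧸ F)).subset ?_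
    intro q _
    obtain ⟨g, rfl⟩ := QuotientGroup.mk_surjective q
    obtain ⟨f, hf, i, rfl⟩ := hgen g
    refine ⟨i % p, Finset.mem_coe.2 (Finset.mem_range.2 (Nat.mod_lt _ hp.pos)), ?_⟩
    have h1 : a ^ (i % p) = a ^ i := by
      rw [← ha, pow_mod_orderOf]
    have h2 : ((f : G) : G ⧸ F) = 1 := (QuotientGroup.eq_one_iff f).2 hf
    change ((a ^ (i % p) : G) : G ⧸ F) = ((f * a ^ i : G) : G ⧸ F)
    rw [h1, QuotientGroup.mk_mul, h2, one_mul]
  intro s
  exact FRB.lf_ext F hN (fun t => hfin.subset (Set.subset_univ _)) s (fun _ _ => Subgroup.mem_top _)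

end Pool.Agent.FRK
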