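import Pool.Agent.FRK.GA
import Pool.Agent.FRS.Sub
import Pool.Agent.FRS.Quo

/-!
# FRK/GB: the linear theorem for abelian sections

`lt`: for `v ∈ V` let `v^(r^n) = 1` (`Hyp.tors`); `V' = {x ∈ V | x^(r^n) = 1}` is a normal invariant commutative subgroup (`V` is
commutative), apply `ltv`.
`lt_sec`: `B ≤ N`, `C ≤ B` invariant, normalised by `N`, `[B, B] ≤ C`.  Let `Y = N ⧸ C.subgroupOf N` with the automorphism induced by `a`
(`rs_hyp`, `qt_hyp`, `inv_subgroupOf`), `V` = image of `B` in `Y`: normal, invariant, commutative.  `lt` for `Y`: the image of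
`ic b l` is `ic` of the images (`List.foldl_map`-like induction), so `ic b l ∈ C`.
-/

set_option autoImplicit false

namespace Pool.Agent.FRK

open Pool.Agent.FRB (Inv Eig LF SS)
open Pool.Agent.FRS (Root Hyp rs qt)

universe u

variable {p r k : ℕ} {X : Type u} [Group X] {a : MulAut X}

theorem ic_map {Y : Type*} [Group Y] {Z : Type*} [Group Z] (f : Y →* Z) (x : Y) (l : List Y) :
    f (ic x l) = ic (f x) (l.map f) := by
  induction l generalizing x with
  | nil => rfl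
  | cons g l ih =>
    have h1 : ic x (g :: l) = ic (x * g * x⁻¹ * g⁻¹) l := rfl
    have h2 : ic (f x) ((g :: l).map f) = ic (f x * f g * (f x)⁻¹ * (f g)⁻¹) (l.map f) := rfl
    rw [h1, h2, ih, map_mul, map_mul, map_mul, map_inv, map_inv]

theorem lt (h : Root p r k) (H : Hyp p r a) (hb : p * (p - 1) < 2 * r) (V : Subgroup X) [V.Normal] (hVi : Inv a V)
    (hc : ∀ x ∈ V, ∀ y ∈ V, Commute x y) : Hc V ⊤ (hh p) := by
  intro v hv l hl hlen
  obtain ⟨n, hn⟩ := H.tors v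
  let V' : Subgroup X :=
    { carrier := {x | x ∈ V ∧ x ^ (r ^ n) = 1}
      one_mem' := ⟨V.one_mem, one_pow _⟩
      mul_mem' := by
        rintro x y ⟨hx, hx1⟩ ⟨hy, hy1⟩
        exact ⟨V.mul_mem hx hy, by rw [(hc x hx y hy).mul_pow, hx1, hy1, one_mul]⟩
      inv_mem' := by
        rintro x ⟨hx, hx1⟩
        exact ⟨V.inv_mem hx, by rw [inv_pow, hx1, inv_one]⟩ }
  have hmem : ∀ x : X, x ∈ V' ↔ x ∈ V ∧ x ^ (r ^ n) = 1 := fun x => Iff.rfl
  have : V'.Normal := by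
    refine ⟨fun x hx g => ?_⟩
    rw [hmem] at hx ⊢
    refine ⟨Subgroup.Normal.conj_mem inferInstance x hx.1 g, ?_⟩
    rw [conj_pow, hx.2, mul_one, mul_inv_cancel]
  have hVi' : Inv a V' := by
    intro x hx
    rw [hmem] at hx ⊢
    exact ⟨hVi x hx.1, by rw [← map_pow, hx.2, map_one]⟩
  have hc' : ∀ x ∈ V', ∀ y ∈ V', Commute x y := fun x hx y hy =>
    hc x ((hmem x).1 hx).1 y ((hmem y).1 hy).1
  exact ltv h H hb V' hVi' hc' n (fun x hx => ((hmem x).1 hx).2) v ((hmem v).2 ⟨hv, hn⟩) l hl hlen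

theorem lt_sec (h : Root p r k) (H : Hyp p r a) (hb : p * (p - 1) < 2 * r) {N B C : Subgroup X} (hN : Inv a N)
    (hB : Inv a B) (hC : Inv a C) (hCB : C ≤ B) (hBN : B ≤ N) (nB : ∀ g ∈ N, ∀ b ∈ B, g⁻¹ * b * g ∈ B)
    (nC : ∀ g ∈ N, ∀ c ∈ C, g⁻¹ * c * g ∈ C) (hab : ∀ x ∈ B, ∀ y ∈ B, x * y * x⁻¹ * y⁻¹ ∈ C) {b : X} (hb' : b ∈ B)
    {l : List X} (hl : ∀ g ∈ l, g ∈ N) (hlen : l.length = hh p) : ic b l ∈ C := by
  have hCN : C ≤ N := hCB.trans hBN
  have nC' : (C.subgroupOf N).Normal := by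
    refine ⟨fun x hx g => ?_⟩
    rw [Subgroup.mem_subgroupOf] at hx ⊢
    have h1 := nC (g : X)⁻¹ (N.inv_mem g.2) (x : X) hx
    rw [inv_inv] at h1
    exact h1
  have nB' : (B.subgroupOf N).Normal := by
    refine ⟨fun x hx g => ?_⟩
    rw [Subgroup.mem_subgroupOf] at hx ⊢
    have h1 := nB (g : X)⁻¹ (N.inv_mem g.2) (x : X) hx
    rw [inv_inv] at h1
    exact h1
  have H1 := FRS.rs_hyp H N hN
  have hC1 := FRS.inv_subgroupOf H N hN hC
  have hB1 := FRS.inv_subgroupOf H N hN hB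
  have H2 := FRS.qt_hyp H1 (C.subgroupOf N) hC1
  have hsurj : Function.Surjective (QuotientGroup.mk' (C.subgroupOf N)) := QuotientGroup.mk'_surjective _
  have nV : ((B.subgroupOf N).map (QuotientGroup.mk' (C.subgroupOf N))).Normal :=
    Subgroup.Normal.map nB' _ hsurj
  have hV : Inv (qt H1 (C.subgroupOf N) hC1) ((B.subgroupOf N).map (QuotientGroup.mk' (C.subgroupOf N))) := by
    rintro _ ⟨x, hx, rfl⟩
    exact ⟨rs H N hN x, hB1 x hx, rfl⟩
  have hcomm : ∀ x ∈ (B.subgroupOf N).map (QuotientGroup.mk' (C.subgroupOf N)),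
      ∀ y ∈ (B.subgroupOf N).map (QuotientGroup.mk' (C.subgroupOf N)), Commute x y := by
    rintro _ ⟨x, hx, rfl⟩ _ ⟨y, hy, rfl⟩
    have h1 : QuotientGroup.mk' (C.subgroupOf N) (x * y * x⁻¹ * y⁻¹) = 1 := by
      rw [QuotientGroup.mk'_apply, QuotientGroup.eq_one_iff, Subgroup.mem_subgroupOf]
      exact hab x hx y hy
    rw [map_mul, map_mul, map_mul, map_inv, map_inv] at h1
    have h2 := mul_inv_eq_one.1 h1
    exact mul_inv_eq_iff_eq_mul.1 h2
  have key := lt h H2 hb _ hV hcomm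
  have hbN : b ∈ N := hBN hb'
  have hlift : ∃ l' : List N, l'.map (N.subtype : N → X) = l := by
    refine ⟨l.attach.map (fun g => (⟨g.1, hl g.1 g.2⟩ : N)), ?_⟩
    rw [List.map_map]
    exact List.attach_map_subtype_val l
  obtain ⟨l', hl'⟩ := hlift
  have h1 := key (QuotientGroup.mk' (C.subgroupOf N) ⟨b, hbN⟩) ⟨⟨b, hbN⟩, hb', rfl⟩
    (l'.map (QuotientGroup.mk' (C.subgroupOf N))) (fun g _ => Subgroup.mem_top g)
    (by rw [List.length_map, ← hlen, ← hl', List.length_map])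
  rw [← ic_map, QuotientGroup.mk'_apply, QuotientGroup.eq_one_iff, Subgroup.mem_subgroupOf] at h1
  have h2 : ((ic (⟨b, hbN⟩ : N) l' : N) : X) = ic b l := by
    rw [← hl']
    exact ic_map N.subtype ⟨b, hbN⟩ l'
  rw [h2] at h1
  exact h1

end Pool.Agent.FRK
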