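import Pool.Agent.FRK.GDefs

/-!
# FRK/GD: torsion nilpotent groups are locally finite

Plan: `Group.nilpotent_center_quotient_ind` (or the name in Mathlib: `nilpotent_center_quotient_ind`): trivial group clear; for `G` the
centre is commutative and torsion, so locally finite (`FRB.lf_comm`), `G ⧸ center G` is torsion and locally finite by
induction, and `FRB.lf_ext` with `N = center G`.
-/

set_option autoImplicit false

namespace Pool.Agent.FRK

open Pool.Agent.FRB (Inv Eig LF SS)

theorem tnl {Y : Type*} [Group Y] [Group.IsNilpotent Y] (ht : ∀ x : Y, ∃ n : ℕ, 0 < n ∧ x ^ n = 1) :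
    LF (⊤ : Subgroup Y) := by
  revert ht
  refine Group.nilpotent_center_quotient_ind
    (P := fun G _ _ => (∀ x : G, ∃ n : ℕ, 0 < n ∧ x ^ n = 1) → LF (⊤ : Subgroup G)) Y ?_ ?_
  · intro G _ _ _ s _
    exact Set.toFinite _
  · intro G _ _ ih ht
    have h1 := ih fun x => by
      obtain ⟨g, rfl⟩ := QuotientGroup.mk_surjective x
      obtain ⟨n, hn, hg⟩ := ht g
      refine ⟨n, hn, ?_⟩
      rw [← QuotientGroup.mk_pow, hg]
      rfl
    refine Pool.Agent.FRB.lf_ext (Subgroup.center G) ?_ ?_
    · refine Pool.Agent.FRB.lf_comm ?_ fun x _ => ht x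
      intro x hx y _
      exact (Subgroup.mem_center_iff.1 hx y).symm
    · intro s
      exact h1 s (fun _ _ => Subgroup.mem_top _)

end Pool.Agent.FRK
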