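import Pool.Agent.FRK.GC
import Pool.Agent.FRK.GD

/-!
# FRK/GE: groups acting nilpotently on a subgroup with locally finite centraliser

Plan: in the group `N` (type) let `K = (Subgroup.centralizer (D : Set X)).subgroupOf N`; it is normal (`D` is normalised by `N`).
`N ⧸ K` is nilpotent: for `g ∈ N` and lists `l` in `N` of length `n` the element `ic g l` centralises `D` (`hc_cent`; if `n = 0` then
`D = ⊥`, `K = ⊤`; `Hc D N n` implies `Hc D N (n+1)`), so `ic` of length `n` vanishes in `N ⧸ K`, the upper central series of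
`N ⧸ K` reaches `⊤` (`mem_ucs_iff`).  It is torsion, so locally finite by `tnl`.  `K` is locally finite by `hC`; `FRB.lf_ext`;
transfer between `LF (⊤ : Subgroup N)` and `LF N` by `FRS.lf_coe`.
-/

set_option autoImplicit false

namespace Pool.Agent.FRK

open Pool.Agent.FRB (Inv Eig LF SS)
open Pool.Agent.FRS (Root Hyp rs qt)

private theorem ge_map {G H : Type*} [Group G] [Group H] (f : G →* H) (x : G) (l : List G) :
    f (ic x l) = ic (f x) (l.map f) := by
  induction l generalizing x with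
  | nil => rfl
  | cons g l ih =>
    have h1 : ic x (g :: l) = ic (x * g * x⁻¹ * g⁻¹) l := rfl
    have h2 : ic (f x) ((g :: l).map f) = ic (f x * f g * (f x)⁻¹ * (f g)⁻¹) (l.map f) := rfl
    rw [h1, h2, ih]
    simp

private theorem ge_lift {G H : Type*} (f : G → H) (hf : Function.Surjective f) (l : List H) :
    ∃ l' : List G, l'.map f = l := by
  induction l with
  | nil => exact ⟨[], rfl⟩
  | cons y l ih =>
    obtain ⟨l', hl'⟩ := ih
    obtain ⟨x, hx⟩ := hf y
    exact ⟨x :: l', by rw [List.map_cons, hx, hl']⟩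

private theorem ge_succ {X : Type*} [Group X] {D N : Subgroup X} {n : ℕ} (hn : Hc D N n) :
    Hc D N (n + 1) := by
  intro x hx l hl hlen
  rcases List.eq_nil_or_concat l with h | ⟨l', g, h⟩
  · rw [h] at hlen
    simp at hlen
  · rw [List.concat_eq_append] at h
    rw [h] at hlen hl ⊢
    have h1 : ic x l' = 1 := by
      refine hn x hx l' (fun g hg => hl g (List.mem_append_left _ hg)) ?_
      simpa using hlen
    have h2 : ic x (l' ++ [g]) = ic x l' * g * (ic x l')⁻¹ * g⁻¹ := by
      simp [ic, List.foldl_append]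
    rw [h2, h1]
    group

theorem nrm_lf {X : Type*} [Group X] (ht : ∀ x : X, ∃ n : ℕ, 0 < n ∧ x ^ n = 1) {D N : Subgroup X} (hDN : D ≤ N)
    (nD : ∀ g ∈ N, ∀ d ∈ D, g⁻¹ * d * g ∈ D) {n : ℕ} (hn : Hc D N n)
    (hC : LF (N ⊓ Subgroup.centralizer (D : Set X))) : LF N := by
  classical
  obtain ⟨K, hK⟩ : ∃ K : Subgroup N, ∀ g : N, g ∈ K ↔ ∀ d ∈ D, Commute (g : X) d := by
    refine ⟨(Subgroup.centralizer (D : Set X)).subgroupOf N, fun g => ?_⟩
    rw [Subgroup.mem_subgroupOf, Subgroup.mem_centralizer_iff]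
    exact ⟨fun h d hd => (h d hd).symm, fun h d hd => (h d hd).symm⟩
  have hKn : K.Normal := by
    constructor
    intro k hk g
    rw [hK] at hk ⊢
    intro d hd
    have h1 := hk _ (nD g g.2 d hd)
    have h2 : (k : X) * ((g : X)⁻¹ * d * g) = ((g : X)⁻¹ * d * g) * k := h1
    show ((g : X) * k * (g : X)⁻¹) * d = d * ((g : X) * k * (g : X)⁻¹)
    calc ((g : X) * k * (g : X)⁻¹) * d = g * (k * ((g : X)⁻¹ * d * g)) * (g : X)⁻¹ := by group
      _ = d * ((g : X) * k * (g : X)⁻¹) := by rw [h2]; group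
  have hKlf : LF K := by
    intro t htK
    have h1 : ((Subgroup.closure ((t.image N.subtype : Finset X) : Set X) : Subgroup X) : Set X).Finite := by
      apply hC
      intro x hx
      rw [Finset.coe_image] at hx
      obtain ⟨y, hy, rfl⟩ := hx
      refine ⟨y.2, ?_⟩
      have h2 := (hK y).1 (htK hy)
      exact Subgroup.mem_centralizer_iff.2 fun d hd => (h2 d hd).symm
    rw [Finset.coe_image, ← MonoidHom.map_closure, Subgroup.coe_map] at h1
    exact Set.Finite.of_finite_image h1 N.subtype_injective.injOn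
  have hnil : Group.IsNilpotent (N ⧸ K) := by
    refine ⟨n, ?_⟩
    rw [eq_top_iff]
    intro x _
    rw [mem_ucs_iff]
    intro l hl
    obtain ⟨g, rfl⟩ := QuotientGroup.mk'_surjective K x
    obtain ⟨l', rfl⟩ := ge_lift (QuotientGroup.mk' K) (QuotientGroup.mk'_surjective K) l
    rw [← ge_map]
    refine (QuotientGroup.eq_one_iff _).2 ?_
    rw [hK]
    intro d hd
    have h1 : ((ic g l' : N) : X) = ic (g : X) (l'.map N.subtype) := ge_map N.subtype g l'
    rw [h1]
    refine hc_cent hDN (ge_succ hn) g.2 ?_ ?_ hd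
    · intro u hu
      obtain ⟨v, _, rfl⟩ := List.mem_map.1 hu
      exact v.2
    · rw [List.length_map] at hl ⊢
      exact hl
  have htor : ∀ x : N ⧸ K, ∃ m : ℕ, 0 < m ∧ x ^ m = 1 := by
    intro x
    obtain ⟨g, rfl⟩ := QuotientGroup.mk'_surjective K x
    obtain ⟨m, hm, h1⟩ := ht g
    refine ⟨m, hm, ?_⟩
    have h2 : g ^ m = 1 := Subtype.ext (by simpa using h1)
    rw [← map_pow, h2, map_one]
  have h1 : LF (⊤ : Subgroup (N ⧸ K)) := tnl htor
  have h2 : LF (⊤ : Subgroup N) := Pool.Agent.FRB.lf_ext K hKlf fun s => h1 s fun x _ => Subgroup.mem_top x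
  exact Pool.Agent.FRS.lf_coe.1 h2

end Pool.Agent.FRK
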