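import Pool.Agent.FRK.GH
import Pool.Agent.FRK.GE

/-!
# FRK/GI: normalisers; maximal locally finite invariant subgroups

`inv_nrm`: for `g` in the normaliser of `D` and `d ∈ D`: `(a g)⁻¹ d (a g) = a (g⁻¹ (a⁻¹ d) g)`, `a⁻¹ d ∈ D` (`FRS.inv_symm`), and the same
for `a g d (a g)⁻¹`; `Subgroup.mem_normalizer_iff`.
`nrm_fin`: `N = normalizer D`, `hc_nil` for `D ≤ N`, `nrm_lf` (`N ⊓ centralizer D ≤ centralizer D`, `FRB.lf_mono`; torsion: `Hyp.tors`,
`r ^ n > 0`).
`exists_max`: Zorn (`zorn_le_nonempty₀` or `zorn_le₀`) for the set of the invariant locally finite subgroups containing `T`; the union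
of a nonempty chain (`sSup`, `Subgroup.mem_sSup_of_directedOn`) is invariant and locally finite (a finite subset lies in one
member of the chain).
-/

set_option autoImplicit false

namespace Pool.Agent.FRK

open Pool.Agent.FRB (Inv Eig LF SS)
open Pool.Agent.FRS (Root Hyp rs qt)

universe u

variable {p r k : ℕ} {X : Type u} [Group X] {a : MulAut X}

theorem inv_nrm (H : Hyp p r a) {D : Subgroup X} (hD : Inv a D) : Inv a (Subgroup.normalizer (D : Set X)) := by
  have hD' : ∀ x, x ∈ D ↔ a x ∈ D := by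
    intro x
    constructor
    · exact hD x
    · intro hx
      have h1 := FRS.inv_symm H hD (a x) hx
      rwa [MulAut.inv_apply_self] at h1
  intro g hg
  rw [Subgroup.mem_normalizer_iff] at hg ⊢
  intro d
  have h1 := hg (a⁻¹ d)
  have h2 : a (a⁻¹ d) = d := MulAut.apply_inv_self X a d
  have h3 := hD' (a⁻¹ d)
  have h4 := hD' (g * a⁻¹ d * g⁻¹)
  rw [h2] at h3
  rw [map_mul, map_mul, h2, map_inv] at h4
  rw [← h3, h1, h4]

theorem nrm_fin (h : Root p r k) (H : Hyp p r a) (hb : p * (p - 1) < 2 * r) {D : Subgroup X} (hD : Inv a D)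
    (hl : LF D) (hC : LF (Subgroup.centralizer (D : Set X))) : LF (Subgroup.normalizer (D : Set X)) := by
  have hDN : D ≤ Subgroup.normalizer (D : Set X) := Subgroup.le_normalizer
  have nD : ∀ g ∈ Subgroup.normalizer (D : Set X), ∀ d ∈ D, g⁻¹ * d * g ∈ D := by
    intro g hg d hd
    have h1 := (Subgroup.mem_normalizer_iff.1 (Subgroup.inv_mem _ hg) d).1 hd
    rwa [inv_inv] at h1
  obtain ⟨n, hn⟩ := hc_nil h H hb hD (inv_nrm H hD) hDN nD hl
  refine nrm_lf ?_ hDN nD hn (FRB.lf_mono inf_le_right hC)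
  intro x
  obtain ⟨m, hm⟩ := H.tors x
  exact ⟨r ^ m, pow_pos h.prime.pos m, hm⟩

private theorem chain_fin {c : Set (Subgroup X)} (hc : IsChain (· ≤ ·) c) {Y : Subgroup X} (hY : Y ∈ c)
    (s : Finset X) (hs : ∀ x ∈ s, ∃ S ∈ c, x ∈ S) : ∃ S ∈ c, ∀ x ∈ s, x ∈ S := by
  classical
  induction s using Finset.induction_on with
  | empty => exact ⟨Y, hY, fun x hx => absurd hx (Finset.notMem_empty x)⟩
  | insert x s _ ih =>
    obtain ⟨S, hS, h1⟩ := ih fun y hy => hs y (Finset.mem_insert_of_mem hy)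
    obtain ⟨S', hS', h2⟩ := hs x (Finset.mem_insert_self x s)
    rcases hc.total hS hS' with h3 | h3
    · refine ⟨S', hS', fun y hy => ?_⟩
      rcases Finset.mem_insert.1 hy with rfl | hy
      · exact h2
      · exact h3 (h1 y hy)
    · refine ⟨S, hS, fun y hy => ?_⟩
      rcases Finset.mem_insert.1 hy with rfl | hy
      · exact h3 h2
      · exact h1 y hy

theorem exists_max {T : Subgroup X} (hT : Inv a T) (hl : LF T) :
    ∃ M : Subgroup X, T ≤ M ∧ Inv a M ∧ LF M ∧ ∀ T' : Subgroup X, Inv a T' → LF T' → M ≤ T' → T' ≤ M := by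
  obtain ⟨M, hTM, hM⟩ := zorn_le_nonempty₀ {S : Subgroup X | Inv a S ∧ LF S} (by
    intro c hc1 hc2 Y hY
    have hdir : DirectedOn (· ≤ ·) c := hc2.directedOn
    have hmem : ∀ x, x ∈ sSup c ↔ ∃ S ∈ c, x ∈ S := fun x => Subgroup.mem_sSup_of_directedOn ⟨Y, hY⟩ hdir
    refine ⟨sSup c, ⟨?_, ?_⟩, fun z hz => le_sSup hz⟩
    · intro x hx
      obtain ⟨S, hS, h1⟩ := (hmem x).1 hx
      exact (hmem _).2 ⟨S, hS, (hc1 hS).1 x h1⟩
    · intro s hs
      obtain ⟨S, hS, h1⟩ := chain_fin hc2 hY s fun x hx => (hmem x).1 (hs hx)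
      exact (hc1 hS).2 s h1) T ⟨hT, hl⟩
  exact ⟨M, hTM, hM.1.1, hM.1.2, fun T' h1 h2 h3 => hM.2 ⟨h1, h2⟩ h3⟩

end Pool.Agent.FRK
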