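import Pool.Agent.FRK.GF

/-!
# FRK/GJ: the uniqueness lemma for maximal locally finite invariant subgroups

Plan.  `hin`: the normaliser of an invariant subgroup is invariant (hypothesis, proved in `FRK/GI`); `hnil`: invariant locally
finite subgroups are nilpotent.  Let `c` be with `Hc M M c`, so `Zr M c = M` (`zr_top`).
Claim, for all `i ≤ c` (induction on `i`, or: prove by induction on `i` without bound): if there is an invariant
locally finite `T ⊇ D0` with `¬ T ≤ M`, then there is such a `T` with `Zr M i ≤ T`.  `i = 0`: `Zr M 0 = ⊥`.  `i → i + 1`: `D = T ⊓ M`: invariant,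
locally finite (`FRB.lf_mono`), contains `D0` and `Zr M i` (`zr_le`); `N = normalizer D` is locally finite (`hN`), invariant
(`hin`), contains `D` hence `D0` (`Subgroup.le_normalizer`), and `Zr M (i+1) ≤ N` (`zr_grow`).  `¬ N ≤ M`: `D < T` (because `¬ T ≤ M`),
`T` is nilpotent (`hnil`), so the normaliser of `D` in `T` is larger than `D` (`Group.normalizerCondition_of_isNilpotent` in the
group `T`; nilpotent because `Zr T c' = T`, i.e. the upper central series of `T` reaches `⊤`), i.e. there is `g ∈ T` normalising `D`,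
`g ∉ D`, so `g ∉ M`.
For `i = c`: `M = Zr M c ≤ T`, so `T ≤ M` by maximality (`hMm`), a contradiction.
-/

set_option autoImplicit false

namespace Pool.Agent.FRK

open Pool.Agent.FRB (Inv Eig LF SS)
open Pool.Agent.FRS (Root Hyp rs qt)

variable {X : Type*} [Group X] {a : MulAut X}

private theorem GJ_grow {T M : Subgroup X} (hT : ∃ c : ℕ, Hc T T c) (h : ¬ T ≤ M) :
    ∃ g ∈ Subgroup.normalizer ((T ⊓ M : Subgroup X) : Set X), g ∉ M := by
  obtain ⟨c, hc⟩ := hT
  by_contra hcon
  push Not at hcon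
  have h1 : ∀ j, Zr T j ≤ T ⊓ M := by
    intro j
    induction j with
    | zero =>
      rw [zr_zero]
      exact bot_le
    | succ j ih =>
      intro g hg
      have h2 := zr_grow ih (inf_le_left : T ⊓ M ≤ T) hg
      exact ⟨zr_le T (j + 1) hg, hcon g h2⟩
  apply h
  have h3 := h1 c
  rw [zr_top hc] at h3
  exact h3.trans inf_le_right

theorem max_uniq (hin : ∀ D : Subgroup X, Inv a D → Inv a (Subgroup.normalizer (D : Set X)))
    (hnil : ∀ T : Subgroup X, Inv a T → LF T → ∃ c : ℕ, Hc T T c) {M : Subgroup X} (hMi : Inv a M) (hMl : LF M)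
    (hMm : ∀ T : Subgroup X, Inv a T → LF T → M ≤ T → T ≤ M) (D0 : Set X) (hD0 : D0 ⊆ M)
    (hN : ∀ D : Subgroup X, Inv a D → LF D → D0 ⊆ D → LF (Subgroup.normalizer (D : Set X))) :
    ∀ T : Subgroup X, Inv a T → LF T → D0 ⊆ T → T ≤ M := by
  intro T hTi hTl hT0
  by_contra hTM
  have key : ∀ i : ℕ, ∃ T : Subgroup X, Inv a T ∧ LF T ∧ D0 ⊆ T ∧ ¬ T ≤ M ∧ Zr M i ≤ T := by
    intro i
    induction i with
    | zero => exact ⟨T, hTi, hTl, hT0, hTM, by rw [zr_zero]; exact bot_le⟩
    | succ i ih =>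
      obtain ⟨T, hTi, hTl, hT0, hTM, hZ⟩ := ih
      have hDi : Inv a (T ⊓ M) := fun x hx => ⟨hTi x hx.1, hMi x hx.2⟩
      have hDl : LF (T ⊓ M) := fun s hs => hTl s (hs.trans inf_le_left)
      have hD0' : D0 ⊆ (T ⊓ M : Subgroup X) := fun x hx => ⟨hT0 hx, hD0 hx⟩
      have hDN : (T ⊓ M) ≤ Subgroup.normalizer ((T ⊓ M : Subgroup X) : Set X) := Subgroup.le_normalizer
      refine ⟨Subgroup.normalizer ((T ⊓ M : Subgroup X) : Set X), hin _ hDi, hN _ hDi hDl hD0',
        fun x hx => hDN (hD0' hx), ?_, ?_⟩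
      · obtain ⟨g, hg, hgM⟩ := GJ_grow (hnil T hTi hTl) hTM
        exact fun hcon => hgM (hcon hg)
      · exact zr_grow (le_inf hZ (zr_le M i)) inf_le_right
  obtain ⟨c, hc⟩ := hnil M hMi hMl
  obtain ⟨T, hTi, hTl, hT0, hTM, hZ⟩ := key c
  rw [zr_top hc] at hZ
  exact hTM (hMm T hTi hTl hZ)

end Pool.Agent.FRK
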