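import Mathlib

/-!
# FRK/PA: interpolation for polynomials over a noncommutative algebra

`Λ` a commutative ring, `R` a `Λ`-algebra (not commutative), `B` a submodule of `R`; the integers `1, ..., d` are units
of `Λ`.  A polynomial `P` over `R` of degree `≤ d` whose values at `0, ..., d` (natural numbers as elements of the centre)
lie in `B` has all its coefficients in `B`.

Plan: `P.eval (m : R) = ∑ j ∈ range (d+1), P.coeff j * (m : R)^j` (`Polynomial.eval_eq_sum_range'`), and
`x * (m : R)^j = ((m : Λ)^j) • x`.  The Vandermonde matrix `W = Matrix.vandermonde (fun i : Fin (d+1) => ((i : ℕ) : Λ))` has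
determinant `∏ i, ∏ j > i, (j - i)` (`Matrix.det_vandermonde`), a product of units (`j - i` is the cast of a natural number
between `1` and `d`); so `W⁻¹ * W = 1` (`Matrix.nonsing_inv_mul`), and `coeff j = ∑ i, (W⁻¹ j i) • eval i`.
(Or any other proof, e.g. induction on `d` with differences `P(m+1) - P(m)`.)
-/

set_option autoImplicit false

namespace Pool.Agent.FRK

open Polynomial

variable {Λ : Type*} [CommRing Λ] {R : Type*} [Ring R] [Algebra Λ R]

private theorem interp_det (d : ℕ) (hu : ∀ m : ℕ, 0 < m → m ≤ d → IsUnit (m : Λ)) :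
    IsUnit (Matrix.vandermonde (fun i : Fin (d + 1) => ((i : ℕ) : Λ))).det := by
  rw [Matrix.det_vandermonde]
  refine (IsUnit.prod_iff).2 fun i _ => (IsUnit.prod_iff).2 fun j hj => ?_
  have hij : (i : ℕ) < (j : ℕ) := by simpa using hj
  have hj' : (j : ℕ) < d + 1 := j.2
  have e : (((j : ℕ) : Λ) - ((i : ℕ) : Λ)) = (((j : ℕ) - (i : ℕ) : ℕ) : Λ) := by
    rw [Nat.cast_sub hij.le]
  rw [e]
  exact hu _ (by omega) (by omega)

theorem interp (B : Submodule Λ R) {P : R[X]} {d : ℕ} (hd : P.natDegree ≤ d)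
    (hu : ∀ m : ℕ, 0 < m → m ≤ d → IsUnit (m : Λ)) (h : ∀ m : ℕ, P.eval (m : R) ∈ B) (j : ℕ) : P.coeff j ∈ B := by
  classical
  by_cases hjd : j < d + 1
  swap
  · rw [Polynomial.coeff_eq_zero_of_natDegree_lt (by omega)]
    exact B.zero_mem
  set W : Matrix (Fin (d + 1)) (Fin (d + 1)) Λ :=
    Matrix.vandermonde (fun i : Fin (d + 1) => ((i : ℕ) : Λ)) with hW
  have hdet : IsUnit W.det := interp_det d hu
  have hinv : W⁻¹ * W = 1 := Matrix.nonsing_inv_mul _ hdet
  have hE : ∀ i : Fin (d + 1), P.eval (((i : ℕ) : R)) = ∑ k : Fin (d + 1), W i k • P.coeff k := by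
    intro i
    rw [Polynomial.eval_eq_sum_range' (n := d + 1) (by omega), Finset.sum_range]
    refine Finset.sum_congr rfl fun k _ => ?_
    have e1 : (((i : ℕ) : R)) ^ (k : ℕ) = algebraMap Λ R ((((i : ℕ) : Λ)) ^ (k : ℕ)) := by
      rw [map_pow, map_natCast]
    rw [e1, hW, Matrix.vandermonde_apply, Algebra.smul_def, Algebra.commutes]
  have key : P.coeff j = ∑ i : Fin (d + 1), (W⁻¹ ⟨j, hjd⟩ i) • P.eval (((i : ℕ) : R)) := by
    simp_rw [hE, Finset.smul_sum, smul_smul]
    rw [Finset.sum_comm]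
    have e2 : ∀ k : Fin (d + 1), ∑ i : Fin (d + 1), (W⁻¹ ⟨j, hjd⟩ i * W i k) • P.coeff k
        = (if (⟨j, hjd⟩ : Fin (d + 1)) = k then (1 : Λ) else 0) • P.coeff k := by
      intro k
      rw [← Finset.sum_smul, ← Matrix.mul_apply, hinv, Matrix.one_apply]
    simp_rw [e2, ite_smul, one_smul, zero_smul]
    simp
  rw [key]
  exact B.sum_mem fun i _ => B.smul_mem _ (h _)

end Pool.Agent.FRK
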