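import Mathlib

/-!
# FRK/PB: evaluation of polynomials over a noncommutative ring at natural numbers

Plan: natural numbers commute with everything (`Nat.cast_commute`), so `Polynomial.eval₂_mul_noncomm` with `f = RingHom.id R`
(`Polynomial.eval` is `eval₂ (RingHom.id R)`).  The list version by induction; `natDegree` of a product: `natDegree_mul_le`
(true in every semiring).  `pb_coeff`: `Polynomial.mul_coeff_zero`, `Polynomial.mul_coeff_one`, induction.
`pb_comp`: `Q = P.comp (C (e : R) * X)`, or `Q = ∑ j ∈ range (d+1), C (P.coeff j * (e : R)^j) * X^j`.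
`pb_shift`: for fixed `t : ℕ` the polynomial `Q = ∑ j ∈ range (d+1), C (P.coeff j) * (X + C (t : R))^j` has `Q.eval m = P.eval (m + t)`,
degree `≤ d`, and `Q.coeff 1 = (derivative P).eval t`: each of the three is additive in `P`, so check
`P = C c * X^j` (`Polynomial.induction_on'`); or use `Polynomial.taylor` if it exists for noncommutative rings.
-/

set_option autoImplicit false

namespace Pool.Agent.FRK

open Polynomial

variable {R : Type*} [Ring R]

theorem pb_mul (P Q : R[X]) (m : ℕ) : (P * Q).eval (m : R) = P.eval (m : R) * Q.eval (m : R) := by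
  unfold Polynomial.eval
  exact eval₂_mul_noncomm _ _ (fun k => (Nat.cast_commute m _).symm)

theorem pb_prod (l : List R[X]) (m : ℕ) : l.prod.eval (m : R) = (l.map fun P => P.eval (m : R)).prod := by
  induction l with
  | nil => simp
  | cons P l ih => rw [List.prod_cons, pb_mul, ih, List.map_cons, List.prod_cons]

private theorem pb_pow (P : R[X]) (j m : ℕ) : (P ^ j).eval (m : R) = P.eval (m : R) ^ j := by
  induction j with
  | zero => simp
  | succ j ih => rw [pow_succ, pb_mul, ih, pow_succ]

theorem pb_deg {d : ℕ} (l : List R[X]) (hl : ∀ P ∈ l, P.natDegree ≤ d) : l.prod.natDegree ≤ l.length * d := by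
  induction l with
  | nil => simp
  | cons P l ih =>
    rw [List.prod_cons, List.length_cons]
    have h1 := ih (fun Q hQ => hl Q (List.mem_cons_of_mem _ hQ))
    have h2 := hl P List.mem_cons_self
    have h3 := natDegree_mul_le (p := P) (q := l.prod)
    calc (P * l.prod).natDegree ≤ P.natDegree + l.prod.natDegree := h3
      _ ≤ d + l.length * d := Nat.add_le_add h2 h1
      _ = (l.length + 1) * d := by ring

/-- the linear coefficient of a product of polynomials with constant coefficient 1 -/
theorem pb_coeff (l : List R[X]) (hl : ∀ P ∈ l, P.coeff 0 = 1) :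
    l.prod.coeff 0 = 1 ∧ l.prod.coeff 1 = (l.map fun P => P.coeff 1).sum := by
  induction l with
  | nil => simp [coeff_one]
  | cons P l ih =>
    obtain ⟨h0, h1⟩ := ih (fun Q hQ => hl Q (List.mem_cons_of_mem _ hQ))
    have h2 := hl P List.mem_cons_self
    rw [List.prod_cons, mul_coeff_zero, mul_coeff_one, h0, h1, h2, List.map_cons, List.sum_cons]
    constructor
    · simp
    · rw [one_mul, mul_one, add_comm]

private theorem pb_mk (d : ℕ) (f : ℕ → R) (hf : ∀ j, d < j → f j = 0) :
    ∃ Q : R[X], Q.natDegree ≤ d ∧ (∀ j, Q.coeff j = f j) ∧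
      ∀ m : ℕ, Q.eval (m : R) = ∑ j ∈ Finset.range (d + 1), f j * (m : R) ^ j := by
  refine ⟨∑ j ∈ Finset.range (d + 1), C (f j) * X ^ j, ?_, ?_, ?_⟩
  · refine natDegree_sum_le_of_forall_le _ _ (fun j hj => ?_)
    refine (natDegree_C_mul_X_pow_le _ _).trans ?_
    have := Finset.mem_range.mp hj
    omega
  · intro j
    rw [finsetSum_coeff]
    simp only [coeff_C_mul_X_pow]
    by_cases hj : j ≤ d
    · rw [Finset.sum_eq_single j]
      · simp
      · intro b _ hb
        rw [if_neg (Ne.symm hb)]
      · intro h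
        exact absurd (Finset.mem_range.mpr (by omega)) h
    · rw [hf j (by omega)]
      refine Finset.sum_eq_zero (fun b hb => ?_)
      have := Finset.mem_range.mp hb
      rw [if_neg (by omega)]
  · intro m
    rw [eval_finsetSum]
    refine Finset.sum_congr rfl (fun j _ => ?_)
    rw [pb_mul, pb_pow, eval_C, eval_X]

private theorem pb_eval (P : R[X]) (x : R) :
    P.eval x = ∑ j ∈ Finset.range (P.natDegree + 1), P.coeff j * x ^ j :=
  eval_eq_sum_range x

theorem pb_comp (P : R[X]) (e : ℕ) : ∃ Q : R[X], Q.natDegree ≤ P.natDegree ∧ Q.coeff 0 = P.coeff 0 ∧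
    Q.coeff 1 = (e : R) * P.coeff 1 ∧ ∀ m : ℕ, Q.eval (m : R) = P.eval ((m * e : ℕ) : R) := by
  obtain ⟨Q, hQ, hc, he⟩ := pb_mk P.natDegree (fun j => P.coeff j * (e : R) ^ j)
    (fun j hj => by
      show P.coeff j * (e : R) ^ j = 0
      rw [coeff_eq_zero_of_natDegree_lt hj, zero_mul])
  refine ⟨Q, hQ, ?_, ?_, ?_⟩
  · rw [hc]; simp
  · rw [hc, pow_one]
    exact ((Nat.cast_commute e (P.coeff 1)).eq).symm
  · intro m
    rw [he, pb_eval]
    refine Finset.sum_congr rfl (fun j _ => ?_)
    rw [Nat.cast_mul, (Nat.cast_commute m (e : R)).mul_pow, mul_assoc,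
      ((Nat.cast_commute m (e : R)).pow_pow j j).eq]

theorem pb_shift (P : R[X]) (t : ℕ) : ∃ Q : R[X], Q.natDegree ≤ P.natDegree ∧
    Q.coeff 1 = (derivative P).eval (t : R) ∧ ∀ m : ℕ, Q.eval (m : R) = P.eval ((m + t : ℕ) : R) := by
  refine ⟨taylor (t : R) P, (natDegree_taylor P (t : R)).le, taylor_coeff_one (t : R) P, fun m => ?_⟩
  induction P using Polynomial.induction_on' with
  | add p q hp hq => rw [map_add, eval_add, hp, hq, eval_add]
  | monomial n a =>
    rw [taylor_monomial, pb_mul, pb_pow, eval_C, eval_add, eval_X, eval_C, eval_monomial]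
    rw [Nat.cast_add]

/-- conjugation of the coefficients -/
theorem pb_conj (P : R[X]) (g g' : R) : ∃ Q : R[X], Q.natDegree ≤ P.natDegree ∧ (∀ j, Q.coeff j = g * P.coeff j * g') ∧
    ∀ m : ℕ, Q.eval (m : R) = g * P.eval (m : R) * g' := by
  obtain ⟨Q, hQ, hc, he⟩ := pb_mk P.natDegree (fun j => g * P.coeff j * g')
    (fun j hj => by
      show g * P.coeff j * g' = 0
      rw [coeff_eq_zero_of_natDegree_lt hj, mul_zero, zero_mul])
  refine ⟨Q, hQ, hc, fun m => ?_⟩
  rw [he, pb_eval, Finset.mul_sum, Finset.sum_mul]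
  refine Finset.sum_congr rfl (fun j _ => ?_)
  have h : Commute ((m : R) ^ j) g' := (Nat.cast_commute m g').pow_left j
  rw [mul_assoc (g * P.coeff j) g' _, ← h.eq, ← mul_assoc, mul_assoc g]

end Pool.Agent.FRK
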