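import Pool.Agent.FRK.PDefs
import Pool.Agent.FRK.PA
import Pool.Agent.FRK.PB

/-!
# FRK/PF: the linear coefficient of `S_0^m S_1^m ... S_(2q)^m = 1`

Plan: let `P i` be the polynomial of `IsLog d (S i) (u i)`, and `P' i` that of `IsLog d (S' i) (u' i)`, `S' i` the inverse of
`S i`, `u' i = -u i` (as in `log_inv` of `FRK/PE`: `(P i) * (P' i) - 1` vanishes at all natural numbers, degree `≤ 2 d`; here
`2 d ≤ (q + 1) d` because `1 ≤ q`; prove it again privately or import `FRK/PE`).
From `S_0^m ... S_(2q)^m = 1` for all `m`: `S_0^m ... S_q^m = S'_(2q)^m ... S'_(q+1)^m` (`q + 1` factors on the left, `q` factors on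
the right).  Both sides are values of polynomials (`pb_prod`) of degree `≤ (q + 1) d` (`pb_deg`) with linear coefficients
`u_0 + ... + u_q` and `-(u_(2q) + ... + u_(q+1))` (`pb_coeff`); `interp` with `B = ⊥` for the difference.
Lists: `List.range (2q+1) = List.range (q+1) ++ (List.range q).map (· + (q+1))` (`List.range_add`).
-/

set_option autoImplicit false

namespace Pool.Agent.FRK

open Polynomial

variable {Λ : Type*} [CommRing Λ] {R : Type*} [Ring R] [Algebra Λ R]

private theorem prod_inv_list {R : Type*} [Ring R] (f g : ℕ → R) (hfg : ∀ i, f i * g i = 1) (l : List ℕ) :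
    (l.map f).prod * ((l.map g).reverse).prod = 1 := by
  induction l with
  | nil => simp
  | cons a l ih =>
    simp only [List.map_cons, List.prod_cons, List.reverse_cons, List.prod_append, List.prod_nil, mul_one]
    calc f a * (l.map f).prod * (((l.map g).reverse).prod * g a)
        = f a * ((l.map f).prod * ((l.map g).reverse).prod) * g a := by simp only [mul_assoc]
      _ = 1 := by rw [ih, mul_one, hfg]

private theorem coeff_eq {A B : R[X]} {D : ℕ} (hu : ∀ m : ℕ, 0 < m → m ≤ D → IsUnit (m : Λ))
    (hA : A.natDegree ≤ D) (hB : B.natDegree ≤ D) (h : ∀ m : ℕ, A.eval (m : R) = B.eval (m : R)) (j : ℕ) :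
    A.coeff j = B.coeff j := by
  have h1 : (A - B).natDegree ≤ D := le_trans (natDegree_sub_le A B) (max_le hA hB)
  have h2 := interp (Λ := Λ) (⊥ : Submodule Λ R) h1 hu
    (fun m => by rw [eval_sub, h m, sub_self]; exact Submodule.zero_mem _) j
  rw [Submodule.mem_bot, coeff_sub, sub_eq_zero] at h2
  exact h2

private theorem inv_neg {d : ℕ} {S S' n n' : R} (hu : ∀ m : ℕ, 0 < m → m ≤ 2 * d → IsUnit (m : Λ)) (hS : S * S' = 1)
    (hS' : S' * S = 1) (h : IsLog d S n) (h' : IsLog d S' n') : n' = -n := by
  obtain ⟨P, hPd, hP0, hP1, hPe⟩ := h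
  obtain ⟨P', hPd', hP0', hP1', hPe'⟩ := h'
  have hc : Commute S S' := by rw [Commute, SemiconjBy, hS, hS']
  have h1 : ∀ m : ℕ, (P * P').eval (m : R) = (1 : R[X]).eval (m : R) := by
    intro m
    rw [pb_mul, ← hPe, ← hPe', eval_one, ← hc.mul_pow, hS, one_pow]
  have h2 := coeff_eq (Λ := Λ) (A := P * P') (B := 1) (D := 2 * d) hu
    (by
      refine le_trans natDegree_mul_le ?_
      omega) (by simp) h1 1
  rw [mul_coeff_one, hP0, hP0', hP1, hP1', one_mul, mul_one, coeff_one] at h2
  simp only [one_ne_zero, if_false] at h2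
  exact eq_neg_of_add_eq_zero_left h2

theorem log_sum {d q : ℕ} (hq : 1 ≤ q) {S S' u u' : ℕ → R}
    (hu : ∀ m : ℕ, 0 < m → m ≤ (q + 1) * d → IsUnit (m : Λ))
    (hS : ∀ i, S i * S' i = 1) (hS' : ∀ i, S' i * S i = 1) (h : ∀ i, IsLog d (S i) (u i))
    (h' : ∀ i, IsLog d (S' i) (u' i))
    (hprod : ∀ m : ℕ, ((List.range (2 * q + 1)).map fun i => S i ^ m).prod = 1) :
    ∑ i ∈ Finset.range (2 * q + 1), u i = 0 := by
  have hneg : ∀ i, u' i = - u i := fun i =>
    inv_neg (Λ := Λ) (fun m h1 h2 => hu m h1 (le_trans h2 (Nat.mul_le_mul_right d (by omega)))) (hS i) (hS' i) (h i) (h' i)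
  choose P hPd hP0 hP1 hPe using h
  choose P' hPd' hP0' hP1' hPe' using h'
  let l1 : List R[X] := (List.range (q + 1)).map P
  let l2 : List R[X] := ((List.range q).map fun i => P' (q + 1 + i)).reverse
  have hd1 : l1.prod.natDegree ≤ (q + 1) * d := by
    have := pb_deg (d := d) l1 (by
      intro Q hQ
      obtain ⟨i, -, rfl⟩ := List.mem_map.1 hQ
      exact hPd i)
    simpa [l1] using this
  have hd2 : l2.prod.natDegree ≤ (q + 1) * d := by
    have := pb_deg (d := d) l2 (by
      intro Q hQ
      obtain ⟨i, -, rfl⟩ := List.mem_map.1 (List.mem_reverse.1 hQ)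
      exact hPd' _)
    have h3 : l2.length = q := by simp [l2]
    rw [h3] at this
    exact le_trans this (Nat.mul_le_mul_right d (by omega))
  have hc1 : l1.prod.coeff 1 = ∑ i ∈ Finset.range (q + 1), u i := by
    rw [(pb_coeff l1 (by
      intro Q hQ
      obtain ⟨i, -, rfl⟩ := List.mem_map.1 hQ
      exact hP0 i)).2]
    simp only [l1, List.map_map]
    rw [Finset.sum_range, ← List.sum_ofFn]
    congr 1
    rw [← List.map_coe_finRange_eq_range, List.map_map, List.ofFn_eq_map]
    refine List.map_congr_left fun i _ => ?_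
    simp [hP1]
  have hc2 : l2.prod.coeff 1 = ∑ i ∈ Finset.range q, u' (q + 1 + i) := by
    rw [(pb_coeff l2 (by
      intro Q hQ
      obtain ⟨i, -, rfl⟩ := List.mem_map.1 (List.mem_reverse.1 hQ)
      exact hP0' _)).2]
    simp only [l2, List.map_reverse, List.map_map, List.sum_reverse]
    rw [Finset.sum_range, ← List.sum_ofFn]
    congr 1
    rw [← List.map_coe_finRange_eq_range, List.map_map, List.ofFn_eq_map]
    refine List.map_congr_left fun i _ => ?_
    simp [hP1']
  have hval : ∀ m : ℕ, l1.prod.eval (m : R) = l2.prod.eval (m : R) := by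
    intro m
    rw [pb_prod, pb_prod]
    have e1 : (l1.map fun Q => Q.eval (m : R)) = (List.range (q + 1)).map fun i => S i ^ m := by
      simp only [l1, List.map_map]
      refine List.map_congr_left fun i _ => ?_
      simp [hPe]
    have e2 : (l2.map fun Q => Q.eval (m : R)) = ((List.range q).map fun i => S' (q + 1 + i) ^ m).reverse := by
      simp only [l2, List.map_reverse, List.map_map]
      congr 1
      refine List.map_congr_left fun i _ => ?_
      simp [hPe']
    rw [e1, e2]
    have hs : 2 * q + 1 = (q + 1) + q := by omega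
    have hp := hprod m
    rw [hs, List.range_add, List.map_append, List.prod_append, List.map_map] at hp
    have hinv := prod_inv_list (fun i => S (q + 1 + i) ^ m) (fun i => S' (q + 1 + i) ^ m) (fun i => by
      have hc : Commute (S (q + 1 + i)) (S' (q + 1 + i)) := by rw [Commute, SemiconjBy, hS, hS']
      show S (q + 1 + i) ^ m * S' (q + 1 + i) ^ m = 1
      rw [← hc.mul_pow, hS, one_pow]) (List.range q)
    calc ((List.range (q + 1)).map fun i => S i ^ m).prod
        = ((List.range (q + 1)).map fun i => S i ^ m).prod *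
          (((List.range q).map fun i => S (q + 1 + i) ^ m).prod *
            ((List.range q).map fun i => S' (q + 1 + i) ^ m).reverse.prod) := by rw [hinv, mul_one]
      _ = (((List.range (q + 1)).map fun i => S i ^ m).prod *
          ((List.range q).map fun i => S (q + 1 + i) ^ m).prod) *
            ((List.range q).map fun i => S' (q + 1 + i) ^ m).reverse.prod := by rw [mul_assoc]
      _ = _ := by
          have hp' : ((List.range (q + 1)).map fun i => S i ^ m).prod *
              ((List.range q).map fun i => S (q + 1 + i) ^ m).prod = 1 := by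
            rw [← hp]
            rfl
          rw [hp', one_mul]
  have hfin := coeff_eq (Λ := Λ) hu hd1 hd2 hval 1
  rw [hc1, hc2] at hfin
  have hs : 2 * q + 1 = (q + 1) + q := by omega
  rw [hs, Finset.sum_range_add, hfin, ← Finset.sum_add_distrib]
  refine Finset.sum_eq_zero fun i _ => ?_
  rw [hneg, neg_add_cancel]

end Pool.Agent.FRK
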