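import Mathlib

/-!
# FRK: graded Lie rings without component of degree zero (definitions)

`R` is an associative ring, `[x,y] = x * y - y * x`; `L : ZMod p → AddSubgroup R` is a family of additive subgroups
with `[L i, L j] ≤ L (i + j)`.  (Kreknin - Kostrikin theorem in module form, see
`/team-store/MP_3e7e8f_al_helper78.md`, section 1.)
-/

set_option autoImplicit false

namespace Pool.Agent.FRK

variable {p : ℕ} {R : Type*} [Ring R]

/-- the family `L` is closed under commutators -/
def Cl (L : ZMod p → AddSubgroup R) : Prop :=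
  ∀ (i j : ZMod p) (x y : R), x ∈ L i → y ∈ L j → x * y - y * x ∈ L (i + j)

/-- the derived family -/
def Dr (L : ZMod p → AddSubgroup R) : ZMod p → AddSubgroup R := fun k =>
  AddSubgroup.closure {z | ∃ (i j : ZMod p) (x y : R), i + j = k ∧ x ∈ L i ∧ y ∈ L j ∧ z = x * y - y * x}

/-- the Lie subring generated by the `L j`, `J j` -/
inductive Gn (L : ZMod p → AddSubgroup R) (J : ZMod p → Prop) : ZMod p → R → Prop
  | base {i : ZMod p} {x : R} : J i → x ∈ L i → Gn L J i x
  | zero (i : ZMod p) : Gn L J i 0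
  | add {i : ZMod p} {x y : R} : Gn L J i x → Gn L J i y → Gn L J i (x + y)
  | neg {i : ZMod p} {x : R} : Gn L J i x → Gn L J i (-x)
  | br {i j : ZMod p} {x y : R} : Gn L J i x → Gn L J j y → Gn L J (i + j) (x * y - y * x)

/-- left-normed commutators `[w, x₁, ..., x_n]`, `n ≥ 0`, `w` of degree `v`, with entries `x_t ∈ L j`, `J j` -/
inductive Ln (L : ZMod p → AddSubgroup R) (J : ZMod p → Prop) (w : R) (v : ZMod p) : ZMod p → R → Prop
  | start : Ln L J w v v w
  | step {i j : ZMod p} {z x : R} : Ln L J w v i z → J j → x ∈ L j → Ln L J w v (i + j) (z * x - x * z)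

/-- left-normed commutators with at least one step -/
def Lst (L : ZMod p → AddSubgroup R) (J : ZMod p → Prop) (w : R) (v k : ZMod p) : Set R :=
  {y | ∃ (i j : ZMod p) (z x : R), Ln L J w v i z ∧ J j ∧ x ∈ L j ∧ i + j = k ∧ y = z * x - x * z}

variable {A : Type*} [AddCommGroup A] [Module R A]

/-- the family `L` acts on the family `V` -/
def Act (L : ZMod p → AddSubgroup R) (V : ZMod p → AddSubgroup A) : Prop :=
  ∀ (i j : ZMod p) (x : R) (v : A), x ∈ L i → v ∈ V j → x • v ∈ V (i + j)

/-- the chain `V, (Dr L) V, (Dr L) (Dr L) V, ...` -/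
def Vs (L : ZMod p → AddSubgroup R) (V : ZMod p → AddSubgroup A) : ℕ → ZMod p → AddSubgroup A
  | 0 => V
  | m + 1 => fun k =>
    AddSubgroup.closure {w | ∃ (i l : ZMod p) (x : R) (v : A), i + l = k ∧ x ∈ Dr L i ∧ v ∈ Vs L V m l ∧ w = x • v}

/-- the product of the entries of a list of homogeneous elements, applied to `v` -/
def ac (l : List (ZMod p × R)) (v : A) : A := (l.map Prod.snd).prod • v

/-- the degree of a list -/
def dg (l : List (ZMod p × R)) : ZMod p := (l.map Prod.fst).sum

/-- all entries of the list are homogeneous elements of `L` -/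
def Hm (L : ZMod p → AddSubgroup R) (l : List (ZMod p × R)) : Prop := ∀ t ∈ l, t.2 ∈ L t.1

/-- the bound -/
def hh (p : ℕ) : ℕ := (p - 1) ^ (2 ^ (p - 1) - 1)

end Pool.Agent.FRK
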