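import Pool.Agent.FRK.KDefs

/-!
# FRK/CD: subset sums of `p - 1` nonzero residues (Cauchy - Davenport)

Plan: for a list `l` let `Σ l` be the finset of the sums of its sublists: `Σ [] = {0}`, `Σ (t :: l) = Σ l ∪ (Σ l + t.1) =
{0, t.1} + Σ l` (define it by recursion as a private def with `Finset` sums, or as `List.foldr (fun t s => {0, t.1} + s) {0}`).
`ZMod.cauchy_davenport` with `{0, t.1}` (card 2, because `t.1 ≠ 0`) gives `min p (card (Σ l) + 1) ≤ card (Σ (t :: l))`; by
induction `min p (l.length + 1) ≤ card (Σ l)`.  For `l.length ≥ p - 1` the finset `Σ l` has `p` elements, so it is everything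
(`Finset.card_eq_iff_eq_univ`, `ZMod.card`).  And (induction on `l`) `s ∈ Σ l` implies that there are `l1`, `l2` with
`l.Perm (l1 ++ l2)` and `dg l2 = s` (the element `t` is put in `l2` in front, or in `l1` in front;
`List.perm_middle`).
-/

set_option autoImplicit false

namespace Pool.Agent.FRK

variable {p : ℕ} {R : Type*}

open Pointwise in
private def ss {p : ℕ} {R : Type*} : List (ZMod p × R) → Finset (ZMod p)
  | [] => {0}
  | t :: l => {0, t.1} + ss l

private theorem ss_ne (l : List (ZMod p × R)) : (ss l).Nonempty := by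
  induction l with
  | nil => exact ⟨0, by simp [ss]⟩
  | cons t l ih => exact Finset.Nonempty.add ⟨0, by simp⟩ ih

private theorem ss_card (hp : p.Prime) (l : List (ZMod p × R)) (h0 : ∀ t ∈ l, t.1 ≠ 0) :
    min p (l.length + 1) ≤ (ss l).card := by
  induction l with
  | nil => simp [ss]
  | cons t l ih =>
    have h1 := ih (fun t' ht' => h0 t' (List.mem_cons_of_mem _ ht'))
    have h2 := ZMod.cauchy_davenport hp (s := {0, t.1}) (t := ss l) ⟨0, by simp⟩ (ss_ne l)
    have h3 : ({0, t.1} : Finset (ZMod p)).card = 2 :=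
      Finset.card_pair (fun h => h0 t (List.mem_cons_self) h.symm)
    rw [h3] at h2
    refine le_trans ?_ h2
    rw [List.length_cons]
    have h4 : p ≤ p := le_rfl
    omega

private theorem ss_mem (l : List (ZMod p × R)) (s : ZMod p) (hs : s ∈ ss l) :
    ∃ l1 l2 : List (ZMod p × R), l.Perm (l1 ++ l2) ∧ (l2.map Prod.fst).sum = s := by
  induction l generalizing s with
  | nil =>
    simp only [ss, Finset.mem_singleton] at hs
    exact ⟨[], [], List.Perm.refl _, by simp [hs]⟩
  | cons t l ih =>
    obtain ⟨y, hy, z, hz, hyz⟩ := Finset.mem_add.1 hs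
    obtain ⟨l1, l2, h1, h2⟩ := ih z hz
    rw [Finset.mem_insert, Finset.mem_singleton] at hy
    rcases hy with hy | hy
    · exact ⟨t :: l1, l2, h1.cons t, by rw [h2, ← hyz, hy, zero_add]⟩
    · exact ⟨l1, t :: l2, (h1.cons t).trans List.perm_middle.symm, by
        rw [List.map_cons, List.sum_cons, h2, ← hyz, hy]⟩

theorem cd_split (hp : p.Prime) {l : List (ZMod p × R)} (h0 : ∀ t ∈ l, t.1 ≠ 0) (hl : p - 1 ≤ l.length) (s : ZMod p) :
    ∃ l1 l2 : List (ZMod p × R), l.Perm (l1 ++ l2) ∧ (l2.map Prod.fst).sum = s := by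
  haveI : Fact p.Prime := ⟨hp⟩
  have h1 := ss_card hp l h0
  have h2 : (ss l).card ≤ p := by
    have := Finset.card_le_univ (ss l)
    rwa [ZMod.card] at this
  have h3 : (ss l).card = Fintype.card (ZMod p) := by
    rw [ZMod.card]
    have := hp.pos
    omega
  have h4 : ss l = Finset.univ := (Finset.card_eq_iff_eq_univ _).1 h3
  exact ss_mem l s (by rw [h4]; exact Finset.mem_univ _)

end Pool.Agent.FRK
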