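import Pool.Agent.FRK.ME

/-!
# FRK/MP: reordering operators modulo the next term of the chain

Plan: `ac_mem`: `ac (t :: l) v = t.2 • ac l v`; induction on `l` with `vs_act` (degree: `dg (t :: l) = t.1 + dg l`).
`ac_perm`: induction on `l.Perm l'` (`List.Perm.rec` / `induction`): `nil` trivial; `cons t`: `t.2 • (ac l v - ac l' v)` with
`vs_act` for `m + 1`; `swap`: `ac (t :: t' :: l) v - ac (t' :: t :: l) v = t.2 • t'.2 • u - t'.2 • t.2 • u`, `u = ac l v`
(`ac_mem`), `vs_comm`; `trans`: sum of the two differences (`dg l = dg l'` by `List.Perm.sum_eq`, `Hm` is preserved).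
-/

set_option autoImplicit false

namespace Pool.Agent.FRK

variable {p : ℕ} {R : Type*} [Ring R] {A : Type*} [AddCommGroup A] [Module R A]

theorem ac_mem {L : ZMod p → AddSubgroup R} {V : ZMod p → AddSubgroup A} (hL : Cl L) (hV : Act L V) (m : ℕ)
    {l : List (ZMod p × R)} (hl : Hm L l) {w : ZMod p} {v : A} (hv : v ∈ Vs L V m w) :
    ac l v ∈ Vs L V m (dg l + w) := by
  induction l with
  | nil => simpa [ac, dg] using hv
  | cons t l ih =>
    have h1 := ih (fun t' ht' => hl t' (List.mem_cons_of_mem _ ht'))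
    have h2 := vs_act hL hV m t.1 (dg l + w) t.2 _ (hl t List.mem_cons_self) h1
    have h3 : ac (t :: l) v = t.2 • ac l v := by
      simp [ac, mul_smul]
    have h4 : dg (t :: l) = t.1 + dg l := by simp [dg]
    rw [h3, h4, add_assoc]
    exact h2

theorem ac_append (l l' : List (ZMod p × R)) (v : A) : ac (l ++ l') v = ac l (ac l' v) := by
  simp [ac, mul_smul]

theorem ac_perm {L : ZMod p → AddSubgroup R} {V : ZMod p → AddSubgroup A} (hL : Cl L) (hV : Act L V) (m : ℕ)
    {l l' : List (ZMod p × R)} (h : l.Perm l') (hl : Hm L l) {w : ZMod p} {v : A} (hv : v ∈ Vs L V m w) :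
    ac l v - ac l' v ∈ Vs L V (m + 1) (dg l + w) := by
  have ac_cons : ∀ (t : ZMod p × R) (l : List (ZMod p × R)) (v : A), ac (t :: l) v = t.2 • ac l v := by
    intro t l v; simp [ac, mul_smul]
  have dg_cons : ∀ (t : ZMod p × R) (l : List (ZMod p × R)), dg (t :: l) = t.1 + dg l := by
    intro t l; simp [dg]
  induction h with
  | nil => simp
  | @cons t l l' h ih =>
    have h1 := ih (fun t' ht' => hl t' (List.mem_cons_of_mem _ ht'))
    rw [ac_cons, ac_cons, ← smul_sub, dg_cons, add_assoc]
    exact vs_act hL hV (m + 1) t.1 (dg l + w) t.2 _ (hl t List.mem_cons_self) h1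
  | swap t t' l =>
    have hm := ac_mem hL hV m (l := l)
      (fun t'' ht'' => hl t'' (List.mem_cons_of_mem _ (List.mem_cons_of_mem _ ht''))) hv
    rw [ac_cons, ac_cons, ac_cons, ac_cons, dg_cons, dg_cons]
    have h2 := vs_comm (L := L) (V := V) m (hl t' List.mem_cons_self)
      (hl t (List.mem_cons_of_mem _ List.mem_cons_self)) hm
    have h3 : t'.1 + (t.1 + dg l) + w = t'.1 + t.1 + (dg l + w) := by abel
    rw [h3]
    exact h2
  | @trans l1 l2 l3 h12 h23 ih1 ih2 =>
    have h1 := ih1 hl
    have h2 := ih2 (fun t ht => hl t (h12.symm.subset ht))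
    have h3 : dg l2 = dg l1 := by
      unfold dg
      exact ((h12.map Prod.fst).sum_eq).symm
    rw [h3] at h2
    have h4 := AddSubgroup.add_mem _ h1 h2
    simpa using h4

end Pool.Agent.FRK
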