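import Pool.Agent.FRK.KD
import Pool.Agent.FRK.MP
import Pool.Agent.FRK.CD

/-!
# FRK/MM: nilpotency of the action

`mm_one`: `v ∈ Vs L V m w`, `l` homogeneous of length `p - 1`.  If some entry has degree `0` it is `0` (`L 0 = ⊥`), so
`(l.map Prod.snd).prod = 0` (`List.prod_eq_zero` for a `MonoidWithZero`).  Otherwise `cd_split` with `s = -w`: `l ~ l1 ++ l2`,
`dg l2 = -w`; `ac l2 v ∈ Vs L V m (dg l2 + w) = Vs L V m 0 ≤ V 0 = ⊥` (`ac_mem`, `vs_le_self`), so `ac (l1 ++ l2) v = 0`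
(`ac_append`) and `ac_perm`.
`mm_many`: `l` of length `(p - 1) * m`: `ac l v ∈ Vs L V m _` for `v ∈ V w`, induction on `m`: `l = l1 ++ l2` with `l1` of
length `p - 1` (`List.take`, `List.drop`), `l2` of length `(p - 1) * m`.
`mm`: induction on `s` for all `L` (`V` fixed).  `s = 0`: `L i = ⊥` for all `i`; `(p - 1)^0 = 1`, `l = [t]`, `t.2 ∈ ⊥`.
`s + 1`: `(Dr^[s]) (Dr L) = (Dr^[s+1]) L`, `Dr L` is closed, `(Dr L) 0 = ⊥`, `Act (Dr L) V`; by induction products of length
`m = (p - 1)^s` of `Dr L` kill `V`, so `Vs L V m = ⊥` (`vs_bot`), and `mm_many`.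
`kk`: `mm` with `s = 2^(p-1) - 1` and `kr`.
-/

set_option autoImplicit false

namespace Pool.Agent.FRK

variable {p : ℕ} {R : Type*} [Ring R] {A : Type*} [AddCommGroup A] [Module R A]

theorem mm_one (hp : p.Prime) {L : ZMod p → AddSubgroup R} {V : ZMod p → AddSubgroup A} (hL : Cl L) (h0 : L 0 = ⊥)
    (hV : Act L V) (hV0 : V 0 = ⊥) (m : ℕ) {l : List (ZMod p × R)} (hl : Hm L l) (hlen : l.length = p - 1)
    {w : ZMod p} {v : A} (hv : v ∈ Vs L V m w) : ac l v ∈ Vs L V (m + 1) (dg l + w) := by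
  by_cases hz : ∀ t ∈ l, t.1 ≠ 0
  · obtain ⟨l1, l2, hperm, hs⟩ := cd_split hp hz hlen.ge (-w)
    have hl12 : Hm L (l1 ++ l2) := fun t ht => hl t (hperm.mem_iff.mpr ht)
    have hl2 : Hm L l2 := fun t ht => hl12 t (List.mem_append_right _ ht)
    have h2 : ac l2 v ∈ Vs L V m (dg l2 + w) := ac_mem hL hV m hl2 hv
    have h3 : dg l2 + w = 0 := by
      unfold dg
      rw [hs]; ring
    rw [h3] at h2
    have h4 : ac l2 v ∈ V 0 := vs_le_self hL hV m 0 h2
    rw [hV0, AddSubgroup.mem_bot] at h4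
    have h5 : ac (l1 ++ l2) v = 0 := by
      rw [ac_append, h4]
      simp [ac]
    have h6 := ac_perm hL hV m hperm hl hv
    rw [h5, sub_zero] at h6
    exact h6
  · push Not at hz
    obtain ⟨t, ht, ht0⟩ := hz
    have h1 : t.2 ∈ L 0 := by
      have := hl t ht
      rwa [ht0] at this
    rw [h0, AddSubgroup.mem_bot] at h1
    have h2 : (l.map Prod.snd).prod = 0 := by
      apply List.prod_eq_zero
      rw [List.mem_map]
      exact ⟨t, ht, h1⟩
    have h3 : ac l v = 0 := by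
      unfold ac
      rw [h2, zero_smul]
    rw [h3]
    exact AddSubgroup.zero_mem _

theorem mm_many (hp : p.Prime) {L : ZMod p → AddSubgroup R} {V : ZMod p → AddSubgroup A} (hL : Cl L) (h0 : L 0 = ⊥)
    (hV : Act L V) (hV0 : V 0 = ⊥) (m : ℕ) {l : List (ZMod p × R)} (hl : Hm L l) (hlen : l.length = (p - 1) * m)
    {w : ZMod p} {v : A} (hv : v ∈ V w) : ac l v ∈ Vs L V m (dg l + w) := by
  induction m generalizing l with
  | zero =>
    have h1 : l = [] := by
      apply List.eq_nil_of_length_eq_zero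
      rw [hlen, Nat.mul_zero]
    subst h1
    simpa [ac, dg, Vs] using hv
  | succ m ih =>
    have hsplit : l = l.take (p - 1) ++ l.drop (p - 1) := (List.take_append_drop _ _).symm
    have hl1 : Hm L (l.take (p - 1)) := fun t ht => hl t (List.mem_of_mem_take ht)
    have hl2 : Hm L (l.drop (p - 1)) := fun t ht => hl t (List.mem_of_mem_drop ht)
    have hlen' : l.length = (p - 1) * m + (p - 1) := by rw [hlen, Nat.mul_succ]
    have hlen1 : (l.take (p - 1)).length = p - 1 := by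
      rw [List.length_take]
      omega
    have hlen2 : (l.drop (p - 1)).length = (p - 1) * m := by
      rw [List.length_drop]
      omega
    have h1 := ih hl2 hlen2
    have h2 := mm_one hp hL h0 hV hV0 m hl1 hlen1 h1
    rw [← ac_append, List.take_append_drop] at h2
    have h3 : dg l = dg (l.take (p - 1)) + dg (l.drop (p - 1)) := by
      conv_lhs => rw [hsplit]
      simp [dg]
    rw [h3, add_assoc]
    exact h2

theorem mm (hp : p.Prime) {V : ZMod p → AddSubgroup A} (hV0 : V 0 = ⊥) (s : ℕ) : ∀ (L : ZMod p → AddSubgroup R),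
    Cl L → L 0 = ⊥ → Act L V → (∀ i, ((Dr^[s]) L) i = ⊥) → ∀ l : List (ZMod p × R), Hm L l →
      l.length = (p - 1) ^ s → ∀ (w : ZMod p) (v : A), v ∈ V w → ac l v = 0 := by
  induction s with
  | zero =>
    intro L _ _ _ hs l hl hlen w v _
    rw [pow_zero] at hlen
    obtain ⟨t, rfl⟩ := List.length_eq_one_iff.mp hlen
    have h1 : t.2 ∈ L t.1 := hl t (by simp)
    have h2 : L t.1 = ⊥ := hs t.1
    rw [h2, AddSubgroup.mem_bot] at h1
    simp [ac, h1]
  | succ s ih =>
    intro L hL h0 hV hs l hl hlen w v hv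
    have hs' : ∀ i, ((Dr^[s]) (Dr L)) i = ⊥ := by
      intro i
      rw [← Function.iterate_succ_apply]
      exact hs i
    have hVD : Act (Dr L) V := fun i j x u hx hu => hV i j x u (dr_le hL i hx) hu
    have h1 := ih (Dr L) (cl_dr hL) (it_zero hL h0 1) hVD hs'
    have h2 : ∀ k, Vs L V ((p - 1) ^ s) k = ⊥ := by
      intro k
      apply vs_bot
      intro l' hl' hHm w' v' hv'
      exact h1 l' hHm hl' w' v' hv'
    have h3 := mm_many hp hL h0 hV hV0 ((p - 1) ^ s) hl (by rw [hlen, pow_succ, mul_comm]) hv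
    rw [h2, AddSubgroup.mem_bot] at h3
    exact h3

/-- Kreknin - Kostrikin, module form -/
theorem kk (hp : p.Prime) {L : ZMod p → AddSubgroup R} {V : ZMod p → AddSubgroup A} (hL : Cl L) (h0 : L 0 = ⊥)
    (hV : Act L V) (hV0 : V 0 = ⊥) {l : List (ZMod p × R)} (hl : Hm L l) (hlen : l.length = hh p) {w : ZMod p} {v : A}
    (hv : v ∈ V w) : ac l v = 0 := by
  have : NeZero p := ⟨hp.ne_zero⟩
  exact mm hp hV0 (2 ^ (p - 1) - 1) L hL h0 hV (fun i => kr hL h0 i) l hl hlen w v hv

end Pool.Agent.FRK
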