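import Pool.Agent.FRK.PDefs

/-!
# FRK/PC: existence of logarithms

Plan: `T = S - 1`, `T^(d+1) = 0`.  `S^m = (1 + T)^m = ∑ j ∈ range (m+1), (m choose j) • T^j` (`Commute.add_pow` or `add_pow` for
commuting elements), and the terms with `j > d` vanish, so `S^m = ∑ j ∈ range (d+1), (m choose j) • T^j` (for `j > m` the
binomial is `0`).  For `j ≤ d` let `f j : Λ` be the inverse of `j!` (product of units).  `P = ∑ j ∈ range (d+1),
C (f j • T^j) * (descPochhammer R j)` (`descPochhammer ℤ j` mapped to `R`); `(descPochhammer R j).eval m = (m.descFactorial j : R)`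
(`descPochhammer_eval_eq_descFactorial`), `Nat.descFactorial_eq_factorial_mul_choose`; the degree of
`descPochhammer R j` is `≤ j` (map of `descPochhammer ℤ j`, `natDegree_map_le`, `descPochhammer_natDegree`); the value of a product
`C c * Q` at a natural number is `c * Q.eval m` (`Polynomial.eval_C_mul`).  `P.coeff 0 = P.eval 0 = S^0 = 1`.
-/

set_option autoImplicit false

namespace Pool.Agent.FRK

open Polynomial

variable {Λ : Type*} [CommRing Λ] {R : Type*} [Ring R] [Algebra Λ R]

private theorem isUnit_fact {d : ℕ} (hu : ∀ m : ℕ, 0 < m → m ≤ d → IsUnit (m : Λ)) (j : ℕ) (hj : j ≤ d) :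
    IsUnit (j.factorial : Λ) := by
  induction j with
  | zero => simp
  | succ j ih =>
    rw [Nat.factorial_succ, Nat.cast_mul]
    exact (hu (j + 1) (Nat.succ_pos j) hj).mul (ih (by omega))

private theorem natDegree_desc (j : ℕ) : (descPochhammer R j).natDegree ≤ j := by
  rw [← descPochhammer_map (Int.castRingHom R) j]
  refine natDegree_map_le.trans ?_
  rw [descPochhammer_natDegree]

private theorem pow_eq {d : ℕ} {S : R} (hT : (S - 1) ^ (d + 1) = 0) (m : ℕ) :
    S ^ m = ∑ j ∈ Finset.range (d + 1), (S - 1) ^ j * (m.choose j : R) := by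
  have h0 : ∀ j, d < j → (S - 1) ^ j = 0 := by
    intro j hj
    have : j = (d + 1) + (j - (d + 1)) := by omega
    rw [this, pow_add, hT, zero_mul]
  have h1 : S ^ m = ∑ j ∈ Finset.range (m + 1), (S - 1) ^ j * (m.choose j : R) := by
    have h := (Commute.one_right (S - 1)).add_pow m
    rw [sub_add_cancel] at h
    rw [h]
    refine Finset.sum_congr rfl fun j _ => ?_
    rw [one_pow, mul_one]
  rw [h1]
  rcases le_total (m + 1) (d + 1) with h | h
  · refine Finset.sum_subset (Finset.range_subset_range.2 h) fun j _ hj => ?_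
    rw [Finset.mem_range, not_lt] at hj
    rw [Nat.choose_eq_zero_of_lt (by omega), Nat.cast_zero, mul_zero]
  · refine (Finset.sum_subset (Finset.range_subset_range.2 h) fun j _ hj => ?_).symm
    rw [Finset.mem_range, not_lt] at hj
    rw [h0 j (by omega), zero_mul]

theorem log_exists {d : ℕ} {S : R} (hT : (S - 1) ^ (d + 1) = 0) (hu : ∀ m : ℕ, 0 < m → m ≤ d → IsUnit (m : Λ)) :
    ∃ n : R, IsLog d S n := by
  classical
  have hf : ∀ j : ℕ, ∃ f : Λ, j ≤ d → f * (j.factorial : Λ) = 1 := by
    intro j
    by_cases hj : j ≤ d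
    · obtain ⟨f, hf⟩ := (isUnit_fact hu j hj).exists_left_inv
      exact ⟨f, fun _ => hf⟩
    · exact ⟨0, fun h => absurd h hj⟩
  choose f hf using hf
  let P : R[X] := ∑ j ∈ Finset.range (d + 1), C (f j • (S - 1) ^ j) * descPochhammer R j
  have hP : ∀ m : ℕ, P.eval (m : R) = S ^ m := by
    intro m
    rw [pow_eq hT m]
    simp only [P]
    rw [eval_finsetSum]
    refine Finset.sum_congr rfl fun j hj => ?_
    have hj' : j ≤ d := by
      have := Finset.mem_range.1 hj
      omega
    rw [eval_C_mul, descPochhammer_eval_eq_descFactorial, Nat.descFactorial_eq_factorial_mul_choose, Nat.cast_mul,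
      ← mul_assoc, smul_mul_assoc]
    congr 1
    rw [show ((j.factorial : ℕ) : R) = algebraMap Λ R (j.factorial : Λ) by simp, ← Algebra.commutes, ← Algebra.smul_def,
      smul_smul, hf j hj', one_smul]
  refine ⟨P.coeff 1, P, ?_, ?_, rfl, fun m => (hP m).symm⟩
  · refine natDegree_sum_le_of_forall_le _ _ fun j hj => ?_
    have hj' := Finset.mem_range.1 hj
    refine (natDegree_C_mul_le _ _).trans ((natDegree_desc j).trans (by omega))
  · have h := hP 0
    rw [Nat.cast_zero, pow_zero] at h
    rw [coeff_zero_eq_eval_zero, h]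

end Pool.Agent.FRK
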