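import Pool.Agent.FRK.PDefs
import Pool.Agent.FRK.PA
import Pool.Agent.FRK.PB

/-!
# FRK/PE: properties of logarithms

Plan.  `log_unique`: `P - P'` has all values `0`, `interp` with `B = ⊥`, coefficient 1.
`log_inv`: `S * S' = 1`: `S^m * S'^m = 1` for all `m`, so `P * P' - 1` (degree `≤ 2 d`, `pb_mul`) has all values `0`; its linear
coefficient `P.coeff 0 * P'.coeff 1 + P.coeff 1 * P'.coeff 0 = n' + n` is `0`.
`log_conj`: `(g' * S * g)^m = g' * S^m * g` (`g * g' = 1`), `pb_conj`; coefficient 0: `g' * 1 * g = 1`.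
`log_pow`: `(S^e)^m = S^(m e)`, `pb_comp`.
`log_br`: `Q = P' * C x * P` with `P` for `S`, `P'` for `S'`; `Q.eval m = S'^m * x * S^m ∈ B`; degree `≤ 2 d`; coefficient 1 is
`n' * x + x * n = x * n - n * x`, `n' = -n` (`log_inv`).
`log_der`: for fixed `t : ℕ`: `S^(m+t) = S^m * S^t`: `pb_shift` and `P * C (S^t)` have the same values at all `m`, so the same linear
coefficients (`interp`, `B = ⊥`): `(derivative P).eval t = n * P.eval t` for all `t`; so the polynomials `derivative P` and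
`C n * P` of degree `≤ d` have the same coefficients (`interp`): `P.coeff (j+1) * (j+1) = n * P.coeff j`.
`log_span`: so `P.coeff j` is in the span of `{n^j}`, by induction on `j ≤ d` (`j+1 ≤ d` is a unit; coefficients above `d` are `0`), and
`S - 1 = P.eval 1 - P.coeff 0 = ∑_{1 ≤ j ≤ d} P.coeff j`.
-/

set_option autoImplicit false

namespace Pool.Agent.FRK

open Polynomial

variable {Λ : Type*} [CommRing Λ] {R : Type*} [Ring R] [Algebra Λ R]

/-- polynomials with the same values have the same coefficients -/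
private theorem pe_eq {d : ℕ} {P Q : R[X]} (hu : ∀ m : ℕ, 0 < m → m ≤ d → IsUnit (m : Λ)) (hP : P.natDegree ≤ d)
    (hQ : Q.natDegree ≤ d) (h : ∀ m : ℕ, P.eval (m : R) = Q.eval (m : R)) (j : ℕ) : P.coeff j = Q.coeff j := by
  have h1 := interp (Λ := Λ) (⊥ : Submodule Λ R) (P := P - Q) (d := d)
    ((natDegree_sub_le_of_le hP hQ).trans (le_of_eq (max_self d))) hu
    (fun m => by rw [eval_sub, h m, sub_self]; exact Submodule.zero_mem _) j
  rw [coeff_sub, Submodule.mem_bot] at h1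
  exact sub_eq_zero.1 h1

theorem log_unique {d : ℕ} {S n n' : R} (hu : ∀ m : ℕ, 0 < m → m ≤ d → IsUnit (m : Λ)) (h : IsLog d S n)
    (h' : IsLog d S n') : n = n' := by
  obtain ⟨P, h1, h2, h3, h4⟩ := h
  obtain ⟨P', h1', h2', h3', h4'⟩ := h'
  rw [← h3, ← h3']
  exact pe_eq (Λ := Λ) hu h1 h1' (fun m => by rw [← h4, ← h4']) 1

private theorem pe_powmul {S S' : R} (hS : S * S' = 1) (hS' : S' * S = 1) (m : ℕ) : S ^ m * S' ^ m = 1 := by
  have hc : Commute S S' := by rw [Commute, SemiconjBy, hS, hS']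
  rw [← hc.mul_pow, hS, one_pow]

theorem log_inv {d : ℕ} {S S' n n' : R} (hu : ∀ m : ℕ, 0 < m → m ≤ 2 * d → IsUnit (m : Λ)) (hS : S * S' = 1)
    (hS' : S' * S = 1) (h : IsLog d S n) (h' : IsLog d S' n') : n' = -n := by
  obtain ⟨P, h1, h2, h3, h4⟩ := h
  obtain ⟨P', h1', h2', h3', h4'⟩ := h'
  have hd : (P * P').natDegree ≤ 2 * d := by
    refine natDegree_mul_le.trans ?_
    omega
  have hd1 : (1 : R[X]).natDegree ≤ 2 * d := by
    rw [natDegree_one]
    exact Nat.zero_le _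
  have h5 := pe_eq (Λ := Λ) hu hd hd1 (fun m => by
    rw [pb_mul, ← h4, ← h4', pe_powmul hS hS', eval_one]) 1
  rw [mul_coeff_one, h2, h2', h3, h3', coeff_one, if_neg one_ne_zero, one_mul, mul_one] at h5
  exact eq_neg_of_add_eq_zero_left h5

theorem log_conj {d : ℕ} {S n g g' : R} (hg : g * g' = 1) (hg' : g' * g = 1) (h : IsLog d S n) :
    IsLog d (g' * S * g) (g' * n * g) := by
  obtain ⟨P, h1, h2, h3, h4⟩ := h
  obtain ⟨Q, q1, q2, q3⟩ := pb_conj P g' g
  refine ⟨Q, q1.trans h1, ?_, ?_, ?_⟩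
  · rw [q2, h2, mul_one, hg']
  · rw [q2, h3]
  · intro m
    rw [q3, ← h4]
    induction m with
    | zero => rw [pow_zero, pow_zero, mul_one, hg']
    | succ m ih =>
      rw [pow_succ, ih, pow_succ]
      calc g' * S ^ m * g * (g' * S * g) = g' * S ^ m * (g * g') * (S * g) := by noncomm_ring
        _ = g' * (S ^ m * S) * g := by rw [hg]; noncomm_ring

theorem log_pow {d : ℕ} {S n : R} (e : ℕ) (h : IsLog d S n) : IsLog d (S ^ e) ((e : R) * n) := by
  obtain ⟨P, h1, h2, h3, h4⟩ := h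
  obtain ⟨Q, q1, q2, q3, q4⟩ := pb_comp P e
  refine ⟨Q, q1.trans h1, ?_, ?_, ?_⟩
  · rw [q2, h2]
  · rw [q3, h3]
  · intro m
    rw [q4, ← h4, pow_mul']

theorem log_br {d : ℕ} {S S' n n' x : R} (hu : ∀ m : ℕ, 0 < m → m ≤ 2 * d → IsUnit (m : Λ)) (hS : S * S' = 1)
    (hS' : S' * S = 1) (h : IsLog d S n) (h' : IsLog d S' n') (B : Submodule Λ R)
    (hB : ∀ m : ℕ, S' ^ m * x * S ^ m ∈ B) : x * n - n * x ∈ B := by
  have hn := log_inv (Λ := Λ) hu hS hS' h h'
  obtain ⟨P, h1, h2, h3, h4⟩ := h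
  obtain ⟨P', h1', h2', h3', h4'⟩ := h'
  have hd : (P' * C x * P).natDegree ≤ 2 * d := by
    refine natDegree_mul_le.trans ?_
    have h5 : (P' * C x).natDegree ≤ P'.natDegree + (C x).natDegree := natDegree_mul_le
    rw [natDegree_C] at h5
    omega
  have h6 := interp (Λ := Λ) B hd hu (fun m => by
    rw [pb_mul, pb_mul, eval_C, ← h4, ← h4']
    exact hB m) 1
  rw [mul_coeff_one, mul_coeff_zero, coeff_C_zero, coeff_mul_C, h2, h2', h3, h3', hn, one_mul, mul_one] at h6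
  have h7 : x * n - n * x = x * n + -n * x := by noncomm_ring
  rw [h7]
  exact h6

private theorem pe_der {d : ℕ} {S n : R} {P : R[X]} (hu : ∀ m : ℕ, 0 < m → m ≤ d → IsUnit (m : Λ))
    (h1 : P.natDegree ≤ d) (h3 : P.coeff 1 = n) (h4 : ∀ m : ℕ, S ^ m = P.eval (m : R)) (j : ℕ) :
    P.coeff (j + 1) * ((j + 1 : ℕ) : R) = n * P.coeff j := by
  have hv : ∀ t : ℕ, (derivative P).eval (t : R) = n * P.eval (t : R) := by
    intro t
    obtain ⟨Q, q1, q2, q3⟩ := pb_shift P t
    have hd : (P * C (S ^ t)).natDegree ≤ d := by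
      refine natDegree_mul_le.trans ?_
      rw [natDegree_C]
      exact h1
    have h5 := pe_eq (Λ := Λ) hu (q1.trans h1) hd (fun m => by
      rw [q3, ← h4, pb_mul, eval_C, ← h4, pow_add]) 1
    rw [q2, coeff_mul_C, h3] at h5
    rw [h5, h4]
  have hd1 : (derivative P).natDegree ≤ d := (natDegree_derivative_le P).trans ((Nat.sub_le _ _).trans h1)
  have hd2 : (C n * P).natDegree ≤ d := by
    refine natDegree_mul_le.trans ?_
    rw [natDegree_C, zero_add]
    exact h1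
  have h6 := pe_eq (Λ := Λ) hu hd1 hd2 (fun m => by rw [hv, pb_mul, eval_C]) j
  rw [coeff_derivative, coeff_C_mul] at h6
  rw [← h6]
  push_cast
  rfl

theorem log_span {d : ℕ} {S n : R} (hu : ∀ m : ℕ, 0 < m → m ≤ d → IsUnit (m : Λ)) (h : IsLog d S n) :
    S - 1 ∈ Submodule.span Λ {y : R | ∃ j : ℕ, 1 ≤ j ∧ y = n ^ j} := by
  obtain ⟨P, h1, h2, h3, h4⟩ := h
  have hc : ∀ j : ℕ, j ≤ d → ∃ c : Λ, P.coeff j = c • n ^ j := by
    intro j
    induction j with
    | zero =>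
      intro _
      exact ⟨1, by rw [h2, pow_zero, one_smul]⟩
    | succ j ih =>
      intro hj
      obtain ⟨c, hcj⟩ := ih (by omega)
      obtain ⟨u, hu1⟩ := (hu (j + 1) (Nat.succ_pos j) hj).exists_left_inv
      have h5 := pe_der (Λ := Λ) hu h1 h3 h4 j
      have h6 : P.coeff (j + 1) * ((j + 1 : ℕ) : R) = ((j + 1 : ℕ) : Λ) • P.coeff (j + 1) := by
        rw [Algebra.smul_def, map_natCast]
        exact (Nat.cast_commute (j + 1) (P.coeff (j + 1))).symm.eq
      refine ⟨u * c, ?_⟩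
      calc P.coeff (j + 1) = (u * ((j + 1 : ℕ) : Λ)) • P.coeff (j + 1) := by rw [hu1, one_smul]
        _ = u • (n * P.coeff j) := by rw [mul_smul, ← h6, h5]
        _ = (u * c) • n ^ (j + 1) := by rw [hcj, mul_smul_comm, smul_smul, pow_succ']
  have hS : S - 1 = ∑ j ∈ Finset.range d, P.coeff (j + 1) := by
    have h5 := h4 1
    rw [pow_one, eval_eq_sum_range' (Nat.lt_succ_of_le h1), Finset.sum_range_succ', h2] at h5
    rw [h5]
    simp
  rw [hS]
  refine Submodule.sum_mem _ fun j hj => ?_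
  obtain ⟨c, hcj⟩ := hc (j + 1) (Finset.mem_range.1 hj)
  rw [hcj]
  exact Submodule.smul_mem _ _ (Submodule.subset_span ⟨j + 1, Nat.succ_pos j, rfl⟩)

end Pool.Agent.FRK
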