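import Pool.Agent.FRS.Gen

/-!
# FRK/Spl: the splitting identity

The map `y ↦ y⁻¹ * a y` of the finite group generated by the orbit of `x` is injective, so `x = y⁻¹ * a y`; the product telescopes.
-/

set_option autoImplicit false

namespace Pool.Agent.FRK

open Pool.Agent.FRS (Root Hyp)

variable {p r : ℕ} {X : Type*} [Group X] {a : MulAut X}

theorem split (H : Hyp p r a) (x : X) : ((List.range p).map fun i => (a ^ i) x).prod = 1 := by
  have hT : Finite (Subgroup.closure (Set.range fun n : ℕ => (a ^ n) x) : Subgroup X) := (H.orb x).to_subtype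
  have hI := Pool.Agent.FRS.inv_orb a x
  have hx : x ∈ Subgroup.closure (Set.range fun n : ℕ => (a ^ n) x) := Subgroup.subset_closure ⟨0, by simp⟩
  let g : (Subgroup.closure (Set.range fun n : ℕ => (a ^ n) x) : Subgroup X) →
      (Subgroup.closure (Set.range fun n : ℕ => (a ^ n) x) : Subgroup X) := fun y => ⟨(y : X)⁻¹ * a y,
    Subgroup.mul_mem _ (Subgroup.inv_mem _ y.2) (hI y y.2)⟩
  have hg : Function.Injective g := by
    intro y z hyz
    have h1 : (y : X)⁻¹ * a y = (z : X)⁻¹ * a z := congrArg Subtype.val hyz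
    have h2 : a ((z : X) * (y : X)⁻¹) = (z : X) * (y : X)⁻¹ := by
      have h3 : a (z : X) = (z : X) * ((y : X)⁻¹ * a y) := by rw [h1, mul_inv_cancel_left]
      rw [map_mul, map_inv, h3]
      group
    have h4 := H.fpf _ h2
    exact (Subtype.ext (mul_inv_eq_one.1 h4)).symm
  obtain ⟨y, hy⟩ := (Finite.injective_iff_surjective.1 hg) ⟨x, hx⟩
  have hy1 : (y : X)⁻¹ * a y = x := congrArg Subtype.val hy
  have key : ∀ m : ℕ, ((List.range m).map fun i => (a ^ i) x).prod = (y : X)⁻¹ * (a ^ m) y := by
    intro m
    induction m with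
    | zero => simp
    | succ m ih =>
      rw [List.range_succ, List.map_append, List.prod_append, ih]
      have h5 : (a ^ (m + 1)) (y : X) = (a ^ m) (a y) := by
        rw [pow_succ, MulAut.mul_apply]
      have h6 : (a ^ m) x = ((a ^ m) (y : X))⁻¹ * (a ^ m) (a y) := by
        have h7 := congrArg (a ^ m) hy1
        rw [map_mul, map_inv] at h7
        exact h7.symm
      rw [List.map_singleton, List.prod_singleton, h6, h5]
      group
  rw [key, H.powp, MulAut.one_apply, inv_mul_cancel]

end Pool.Agent.FRK
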