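import Pool.Agent.FRS.Sec
import Pool.Agent.FRK.KDefs

/-!
# FRK: iterated commutators (definitions)
-/

set_option autoImplicit false

namespace Pool.Agent.FRK

open Pool.Agent.FRB (Inv Eig LF SS)
open Pool.Agent.FRS (Root Hyp rs qt)

/-- the iterated commutator `[x, g₁, ..., g_n]` with `[u, g] = u * g * u⁻¹ * g⁻¹` -/
def ic {X : Type*} [Group X] (x : X) (l : List X) : X := l.foldl (fun u g => u * g * u⁻¹ * g⁻¹) x

/-- `[x, g₁, ..., g_n] = 1` for all `x ∈ S`, `g_i ∈ N` -/
def Hc {X : Type*} [Group X] (S N : Subgroup X) (n : ℕ) : Prop :=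
  ∀ x ∈ S, ∀ l : List X, (∀ g ∈ l, g ∈ N) → l.length = n → ic x l = 1

/-- the upper central series of the subgroup `S` -/
def Zr {X : Type*} [Group X] (S : Subgroup X) (i : ℕ) : Subgroup X :=
  (Subgroup.upperCentralSeries S i).map S.subtype

open Classical in
/-- the set of degrees (below `p`) of nontrivial eigen-elements -/
noncomputable def Dl (p r k : ℕ) {X : Type*} [Group X] (a : MulAut X) : Finset ℕ :=
  (Finset.range p).filter fun i => ∃ x : X, x ≠ 1 ∧ Eig r k a i x

end Pool.Agent.FRK
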