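import Pool.Agent.FRK.RH
import Pool.Agent.FRK.GDefs
import Pool.Agent.FRK.Spl

/-!
# FRK/GA: the linear theorem for a normal abelian subgroup of bounded exponent

Plan: `V` normal, invariant, commutative, `v^(r^n) = 1` on `V`.  `CommGroup V` (`{ inferInstance with mul_comm := ... }`), `A = Additive V`,
`Module (ZMod (r^n)) A` by `AddCommGroup.zmodModule` (`r^n • v = 0`).  `ρ g` is the additive endomorphism `v ↦ g v g⁻¹`
(`MulAut.conjNormal g`), made linear by `AddMonoidHom.toZModLinearMap (r^n)`; `ρ : X →* Module.End (ZMod (r^n)) A`; `α` is the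
restriction of `a` to `V`, `α'` that of `a⁻¹` (`FRS.inv_symm`).  `Rp p r k n a ρ α α'`: `α (g (α' v) g⁻¹) = (a g) v (a g)⁻¹`;
`α^p = 1` (`Hyp.powp`); `∑_{i<p} α^i v = 0` is `split H v` in the commutative group `V`.
`rep` for the list `l.reverse`: `(ρ g - 1) v` is `g v g⁻¹ v⁻¹`, the inverse of `[v, g] = v g v⁻¹ g⁻¹`; so (induction on `l`)
`ic v l = 1` iff `((l.reverse.map fun g => ρ g - 1).prod) v = 0`: precisely, `ofMul (ic v l)` is `(-1)^(length)` times this element.
-/

set_option autoImplicit false

namespace Pool.Agent.FRK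

open Pool.Agent.FRB (Inv Eig LF SS)
open Pool.Agent.FRS (Root Hyp rs qt)

universe u

variable {p r k : ℕ} {X : Type u} [Group X] {a : MulAut X}

section core

variable {W : Type u} [CommGroup W]

/-- automorphisms as linear maps -/
private def Phi (W : Type u) [CommGroup W] (m : ℕ) [Module (ZMod m) (Additive W)] :
    MulAut W →* Module.End (ZMod m) (Additive W) where
  toFun b := (MonoidHom.toAdditive b.toMonoidHom).toZModLinearMap m
  map_one' := LinearMap.ext fun _ => rfl
  map_mul' _ _ := LinearMap.ext fun _ => rfl

private theorem Phi_apply {m : ℕ} [Module (ZMod m) (Additive W)] (b : MulAut W) (w : W) : Phi W m b (Additive.ofMul w) = Additive.ofMul (b w) := rfl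

private theorem sgn {R : Type*} [Ring R] {Y : Type*} (f : Y → R) (L : List Y) :
    (L.map fun g => 1 - f g).prod = (L.map fun g => f g - 1).prod ∨
      (L.map fun g => 1 - f g).prod = -(L.map fun g => f g - 1).prod := by
  induction L with
  | nil => exact Or.inl rfl
  | cons g L ih =>
    rw [List.map_cons, List.map_cons, List.prod_cons, List.prod_cons]
    rcases ih with ih | ih
    · right
      rw [ih]
      noncomm_ring
    · left
      rw [ih]
      noncomm_ring

private theorem core {m : ℕ} [Module (ZMod (r ^ m)) (Additive W)] (h : Root p r k) (H : Hyp p r a) (hb : p * (p - 1) < 2 * r)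
    (c : X →* MulAut W) (b : MulAut W)
    (hbc : ∀ x, b * c x * b⁻¹ = c (a x)) (hbp : b ^ p = 1) (hsum : ∀ w, ((List.range p).map fun i => (b ^ i) w).prod = 1)
    (l : List X) (hl : l.length = hh p) (w : W) : l.foldl (fun u g => u * (c g u)⁻¹) w = 1 := by
  have hΦ : ∀ t : ℕ, ∀ w : W, (∑ i ∈ Finset.range t, Phi W (r ^ m) b ^ i) (Additive.ofMul w) =
      Additive.ofMul (((List.range t).map fun i => (b ^ i) w).prod) := by
    intro t w
    induction t with
    | zero => simp
    | succ t ih =>
      rw [Finset.sum_range_succ, LinearMap.add_apply, ih, List.range_succ, List.map_append, List.prod_append,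
        List.map_singleton, List.prod_singleton, ← map_pow, Phi_apply]
      rfl
  have P : Rp p r k m a ((Phi W (r ^ m)).comp c) (Phi W (r ^ m) b) (Phi W (r ^ m) b⁻¹) :=
    { root := h
      hyp := H
      big := hb
      inv := by rw [← map_mul, mul_inv_cancel, map_one]
      inv' := by rw [← map_mul, inv_mul_cancel, map_one]
      powp := by rw [← map_pow, hbp, map_one]
      sum := by
        refine LinearMap.ext fun w => ?_
        have h1 := hΦ p (Additive.toMul w)
        rw [hsum] at h1
        exact h1
      conj := fun x => by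
        rw [MonoidHom.comp_apply, MonoidHom.comp_apply, ← map_mul, ← map_mul, hbc] }
  have h1 := rep P l.reverse (by rw [List.length_reverse, hl])
  have h2 : ∀ (l : List X) (w : W), Additive.ofMul (l.foldl (fun u g => u * (c g u)⁻¹) w) =
      ((l.reverse.map fun g => 1 - ((Phi W (r ^ m)).comp c) g).prod) (Additive.ofMul w) := by
    intro l
    induction l with
    | nil => intro w; rfl
    | cons g l ih =>
      intro w
      rw [List.foldl_cons, ih, List.reverse_cons, List.map_append, List.prod_append, List.map_singleton,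
        List.prod_singleton, Module.End.mul_apply]
      congr 1
      rw [LinearMap.sub_apply, MonoidHom.comp_apply, Phi_apply, Module.End.one_apply, ofMul_mul, ofMul_inv, sub_eq_add_neg]
  have h3 := h2 l w
  have h4 : (l.reverse.map fun g => 1 - ((Phi W (r ^ m)).comp c) g).prod = 0 := by
    rcases sgn ((Phi W (r ^ m)).comp c) l.reverse with h5 | h5
    · rw [h5, h1]
    · rw [h5, h1, neg_zero]
  rw [h4, LinearMap.zero_apply] at h3
  exact Additive.ofMul.injective h3

end core

theorem ltv (h : Root p r k) (H : Hyp p r a) (hb : p * (p - 1) < 2 * r) (V : Subgroup X) [V.Normal] (hVi : Inv a V)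
    (hc : ∀ x ∈ V, ∀ y ∈ V, Commute x y) (n : ℕ) (hn : ∀ v ∈ V, v ^ (r ^ n) = 1) : Hc V ⊤ (hh p) := by
  intro x hx l _ hl
  let _ : CommGroup V := { (inferInstance : Group V) with
    mul_comm := fun u v => Subtype.ext (hc u u.2 v v.2) }
  let _ : Module (ZMod (r ^ n)) (Additive V) := AddCommGroup.zmodModule (fun u => by
    have h1 : (Additive.toMul u) ^ (r ^ n) = 1 := Subtype.ext (hn _ (Additive.toMul u).2)
    exact congrArg Additive.ofMul h1)
  have hb1 : ∀ (m : ℕ) (v : V), (((rs H V hVi ^ m) v : V) : X) = (a ^ m) v := by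
    intro m
    induction m with
    | zero => intro v; rfl
    | succ m ih =>
      intro v
      rw [pow_succ, MulAut.mul_apply, ih, pow_succ, MulAut.mul_apply]
      rfl
  have key := core (W := V) (m := n) h H hb (MulAut.conjNormal : X →* MulAut V) (rs H V hVi) (by
      intro g
      refine MulEquiv.ext fun v => Subtype.ext ?_
      rw [MulAut.mul_apply, MulAut.mul_apply, MulAut.conjNormal_apply]
      have h1 : ((rs H V hVi ((rs H V hVi)⁻¹ v) : V) : X) = v := by
        rw [MulAut.apply_inv_self]
      have h2 : ((rs H V hVi ((rs H V hVi)⁻¹ v) : V) : X) = a (((rs H V hVi)⁻¹ v : V) : X) := rfl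
      have h3 : ((rs H V hVi (MulAut.conjNormal g ((rs H V hVi)⁻¹ v)) : V) : X) =
          a ((MulAut.conjNormal g ((rs H V hVi)⁻¹ v) : V) : X) := rfl
      rw [h3, MulAut.conjNormal_apply, map_mul, map_mul, map_inv, ← h2, h1]) (by
      refine MulEquiv.ext fun v => Subtype.ext ?_
      rw [hb1, H.powp]
      rfl) (by
      intro w
      apply Subtype.ext
      have h1 := map_list_prod V.subtype ((List.range p).map fun i => (rs H V hVi ^ i) w)
      rw [List.map_map] at h1
      refine h1.trans ?_
      have h2 : (V.subtype ∘ fun i => (rs H V hVi ^ i) w) = fun i => (a ^ i) (w : X) := by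
        funext i
        exact hb1 i w
      rw [h2]
      exact split H (w : X)) l hl ⟨x, hx⟩
  have h2 : ∀ (l : List X) (u : V), ic (u : X) l =
      ((l.foldl (fun (u : V) g => u * (MulAut.conjNormal g u)⁻¹) u : V) : X) := by
    intro l
    induction l with
    | nil => intro u; rfl
    | cons g l ih =>
      intro u
      rw [List.foldl_cons, ← ih]
      have h1 : ((u * (MulAut.conjNormal g u)⁻¹ : V) : X) = (u : X) * g * (u : X)⁻¹ * g⁻¹ := by
        rw [Subgroup.coe_mul, Subgroup.coe_inv, MulAut.conjNormal_apply]
        group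
      rw [h1]
      rfl
  exact (h2 l ⟨x, hx⟩).trans (congrArg Subtype.val key)

end Pool.Agent.FRK
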