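import Pool.Agent.FRK.GDefs

/-!
# FRK/GC: the three subgroups lemma and central series

`tsl`: in `G ⧸ N` the images satisfy `⁅⁅K,L⁆,H⁆ = ⊥`, `⁅⁅L,H⁆,K⁆ = ⊥` (`Subgroup.map_commutator`), so
`Subgroup.commutator_commutator_eq_bot_of_rotate`.
`lcs_ucs`: induction on `i`.  `i = 0`: the lower central series at `0` is `⊤`; `⁅⊤, Z (j+1)⁆ ≤ Z j`
(`Subgroup.mem_upperCentralSeries_succ_iff`).  `i + 1`: `lowerCentralSeries (i+1) = ⁅lowerCentralSeries i, ⊤⁆`; `tsl` with `N = Z j`:
`⁅⁅⊤, Z (i+2+j)⁆, γ i⁆ ≤ ⁅Z (i+1+j), γ i⁆ ≤ Z j` and `⁅⁅Z (i+2+j), γ i⁆, ⊤⁆ ≤ ⁅Z (j+1), ⊤⁆ ≤ Z j` (induction with `j`, `j + 1`).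
`hc_cent`: in the group `N` (type): `D' = D.subgroupOf N ≤ upperCentralSeries N (n+1)` because `Hc D N (n+1)` (induction:
`x` is in the `m`-th term iff all `ic x l`, `l` of length `m`, are `1`), and `ic g l`, `l` of length `n`, is in
`lowerCentralSeries ⊤ n` (induction); `lcs_ucs` with `i = n`, `j = 0`.
-/

set_option autoImplicit false

namespace Pool.Agent.FRK

theorem tsl {G : Type*} [Group G] (N : Subgroup G) [N.Normal] {H K L : Subgroup G} (h1 : ⁅⁅K, L⁆, H⁆ ≤ N)
    (h2 : ⁅⁅L, H⁆, K⁆ ≤ N) : ⁅⁅H, K⁆, L⁆ ≤ N := by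
  have key : ∀ {A : Subgroup G}, A ≤ N ↔ A.map (QuotientGroup.mk' N) = ⊥ := by
    intro A
    rw [Subgroup.map_eq_bot_iff, QuotientGroup.ker_mk']
  rw [key] at h1 h2 ⊢
  rw [Subgroup.map_commutator, Subgroup.map_commutator] at h1 h2 ⊢
  exact Subgroup.commutator_commutator_eq_bot_of_rotate h1 h2

theorem lcs_ucs {G : Type*} [Group G] (i j : ℕ) :
    ⁅(⊤ : Subgroup G).lowerCentralSeries i, Subgroup.upperCentralSeries G (i + 1 + j)⁆ ≤
      Subgroup.upperCentralSeries G j := by
  induction i generalizing j with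
  | zero =>
    rw [Subgroup.lowerCentralSeries_zero, Subgroup.commutator_comm, show 0 + 1 + j = j + 1 by omega]
    exact Subgroup.commutator_upperCentralSeries_top_le G j
  | succ i ih =>
    rw [Subgroup.lowerCentralSeries_succ]
    apply tsl
    · have h1 : ⁅(⊤ : Subgroup G), Subgroup.upperCentralSeries G (i + 1 + 1 + j)⁆ ≤
          Subgroup.upperCentralSeries G (i + 1 + j) := by
        rw [Subgroup.commutator_comm, show i + 1 + 1 + j = i + 1 + j + 1 by omega]
        exact Subgroup.commutator_upperCentralSeries_top_le G _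
      refine (Subgroup.commutator_mono h1 le_rfl).trans ?_
      rw [Subgroup.commutator_comm]
      exact ih j
    · have h1 : ⁅Subgroup.upperCentralSeries G (i + 1 + 1 + j),
          (⊤ : Subgroup G).lowerCentralSeries i⁆ ≤ Subgroup.upperCentralSeries G (j + 1) := by
        rw [Subgroup.commutator_comm, show i + 1 + 1 + j = i + 1 + (j + 1) by omega]
        exact ih (j + 1)
      refine (Subgroup.commutator_mono h1 le_rfl).trans ?_
      exact Subgroup.commutator_upperCentralSeries_top_le G _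

theorem mem_ucs_iff {G : Type*} [Group G] (n : ℕ) (x : G) :
    x ∈ Subgroup.upperCentralSeries G n ↔ ∀ l : List G, l.length = n → ic x l = 1 := by
  induction n generalizing x with
  | zero =>
    rw [Subgroup.upperCentralSeries_zero, Subgroup.mem_bot]
    constructor
    · intro h l hl
      rw [List.length_eq_zero_iff] at hl
      subst hl
      exact h
    · intro h
      exact h [] rfl
  | succ n ih =>
    rw [Subgroup.mem_upperCentralSeries_succ_iff]
    constructor
    · intro h l hl
      cases l with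
      | nil => simp at hl
      | cons y l => exact (ih _).1 (h y) l (by simpa using hl)
    · intro h y
      rw [ih]
      intro l hl
      exact h (y :: l) (by simp [hl])

private theorem ic_mem_lcs {G : Type*} [Group G] (l : List G) : ∀ (x : G) (m : ℕ),
    x ∈ (⊤ : Subgroup G).lowerCentralSeries m → ic x l ∈ (⊤ : Subgroup G).lowerCentralSeries (m + l.length) := by
  induction l with
  | nil => intro x m hx; exact hx
  | cons y l ih =>
    intro x m hx
    have h1 : x * y * x⁻¹ * y⁻¹ ∈ (⊤ : Subgroup G).lowerCentralSeries (m + 1) :=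
      Subgroup.commutator_mem_commutator hx (Subgroup.mem_top y)
    have h2 := ih _ _ h1
    rw [show m + (y :: l).length = m + 1 + l.length by simp only [List.length_cons]; omega]
    exact h2

private theorem coe_ic {X : Type*} [Group X] {N : Subgroup X} (l : List N) : ∀ x : N,
    ((ic x l : N) : X) = ic (x : X) (l.map (fun u : N => (u : X))) := by
  induction l with
  | nil => intro x; rfl
  | cons y l ih =>
    intro x
    exact ih (x * y * x⁻¹ * y⁻¹)

theorem hc_cent {X : Type*} [Group X] {D N : Subgroup X} (hDN : D ≤ N) {n : ℕ} (hn : Hc D N (n + 1)) {g : X}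
    (hg : g ∈ N) {l : List X} (hl : ∀ u ∈ l, u ∈ N) (hlen : l.length = n) {d : X} (hd : d ∈ D) :
    Commute (ic g l) d := by
  obtain ⟨l', rfl⟩ : ∃ l' : List N, l'.map (fun u : N => (u : X)) = l := by
    refine ⟨l.pmap (fun u hu => (⟨u, hu⟩ : N)) hl, ?_⟩
    rw [List.map_pmap]
    simp
  rw [List.length_map] at hlen
  have h1 : ic (⟨g, hg⟩ : N) l' ∈ (⊤ : Subgroup N).lowerCentralSeries n := by
    have := ic_mem_lcs l' (⟨g, hg⟩ : N) 0 (Subgroup.mem_top _)
    rwa [zero_add, hlen] at this
  have h2 : (⟨d, hDN hd⟩ : N) ∈ Subgroup.upperCentralSeries N (n + 1) := by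
    rw [mem_ucs_iff]
    intro k hk
    apply Subtype.ext
    rw [coe_ic]
    exact hn d hd _ (by intro u hu; rw [List.mem_map] at hu; obtain ⟨v, _, rfl⟩ := hu; exact v.2)
      (by rw [List.length_map, hk])
  have h3 := lcs_ucs (G := N) n 0 (Subgroup.commutator_mem_commutator h1 h2)
  rw [Subgroup.upperCentralSeries_zero, Subgroup.mem_bot, commutatorElement_eq_one_iff_commute] at h3
  have h4 : Commute ((ic (⟨g, hg⟩ : N) l' : N) : X) d := h3.map N.subtype
  rwa [coe_ic] at h4

end Pool.Agent.FRK
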