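import Pool.Agent.FRK.GDefs

/-!
# FRK/GF: the upper central series `Zr S i` of a subgroup

Plan: `mem_zr_succ`: `Subgroup.mem_upperCentralSeries_succ_iff` in the group `S`.  All other statements by induction on `i` with
`mem_zr_succ`.  `zr_inv`: `a` and `a⁻¹` map `S` into itself (`FRS.inv_symm`): for `x ∈ Zr S (i+1)`, `y ∈ S`: `[a x, y] = a [x, a⁻¹ y]`.
`zr_norm`: `[g⁻¹ x g, y] = g⁻¹ [x, g y g⁻¹] g`, `g y g⁻¹ ∈ S` because `g⁻¹ ∈ N`.
`zr_top`: `x ∈ Zr S i` iff `x ∈ S` and `ic x l = 1` for all lists `l` in `S` of length `i`.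
`zr_grow`: `T = N_X(D)`, see the statement: if `Zr S i ≤ D ≤ S` then `Zr S (i+1)` normalises `D`: for `z ∈ Zr S (i+1)`, `d ∈ D`:
`z d z⁻¹ = [z, d] d` with `[z, d] ∈ Zr S i ≤ D`, the same for `z⁻¹`.
-/

set_option autoImplicit false

namespace Pool.Agent.FRK

open Pool.Agent.FRB (Inv Eig LF SS)
open Pool.Agent.FRS (Root Hyp rs qt)

variable {X : Type*} [Group X] {a : MulAut X}

theorem zr_zero (S : Subgroup X) : Zr S 0 = ⊥ := by
  unfold Zr
  rw [Subgroup.upperCentralSeries_zero, Subgroup.map_bot]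

theorem mem_zr_succ {S : Subgroup X} {i : ℕ} {x : X} :
    x ∈ Zr S (i + 1) ↔ x ∈ S ∧ ∀ y ∈ S, x * y * x⁻¹ * y⁻¹ ∈ Zr S i := by
  unfold Zr
  constructor
  · rintro ⟨u, hu, rfl⟩
    refine ⟨u.2, fun y hy => ?_⟩
    exact ⟨u * ⟨y, hy⟩ * u⁻¹ * ⟨y, hy⟩⁻¹, (Subgroup.mem_upperCentralSeries_succ_iff.1 hu) ⟨y, hy⟩, rfl⟩
  · rintro ⟨hx, h⟩
    refine ⟨⟨x, hx⟩, ?_, rfl⟩
    refine Subgroup.mem_upperCentralSeries_succ_iff.2 fun y => ?_
    obtain ⟨w, hw, hw'⟩ := h y.1 y.2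
    have h1 : w = (⟨x, hx⟩ : S) * y * (⟨x, hx⟩ : S)⁻¹ * y⁻¹ := Subtype.ext hw'
    rw [h1] at hw
    exact hw

theorem zr_le (S : Subgroup X) (i : ℕ) : Zr S i ≤ S := by
  rintro x ⟨u, -, rfl⟩
  exact u.2

theorem zr_mono (S : Subgroup X) (i : ℕ) : Zr S i ≤ Zr S (i + 1) := by
  induction i with
  | zero => rw [zr_zero]; exact bot_le
  | succ i ih =>
    intro x hx
    rw [mem_zr_succ] at hx ⊢
    exact ⟨hx.1, fun y hy => ih (hx.2 y hy)⟩

theorem zr_inv {p r : ℕ} (H : Hyp p r a) {S : Subgroup X} (hS : Inv a S) (i : ℕ) : Inv a (Zr S i) := by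
  induction i with
  | zero =>
    intro x hx
    rw [zr_zero, Subgroup.mem_bot] at hx ⊢
    rw [hx, map_one]
  | succ i ih =>
    intro x hx
    rw [mem_zr_succ] at hx ⊢
    refine ⟨hS x hx.1, fun y hy => ?_⟩
    have h1 := ih _ (hx.2 _ (Pool.Agent.FRS.inv_symm H hS y hy))
    rw [map_mul, map_mul, map_mul, map_inv, map_inv, MulAut.apply_inv_self] at h1
    exact h1

theorem zr_norm {S N : Subgroup X} (nS : ∀ g ∈ N, ∀ s ∈ S, g⁻¹ * s * g ∈ S) (i : ℕ) :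
    ∀ g ∈ N, ∀ s ∈ Zr S i, g⁻¹ * s * g ∈ Zr S i := by
  induction i with
  | zero =>
    intro g _ s hs
    rw [zr_zero, Subgroup.mem_bot] at hs ⊢
    rw [hs, mul_one, inv_mul_cancel]
  | succ i ih =>
    intro g hg s hs
    rw [mem_zr_succ] at hs ⊢
    refine ⟨nS g hg s hs.1, fun y hy => ?_⟩
    have h0 := nS g⁻¹ (N.inv_mem hg) y hy
    rw [inv_inv] at h0
    have h1 := ih g hg _ (hs.2 _ h0)
    have h2 : g⁻¹ * (s * (g * y * g⁻¹) * s⁻¹ * (g * y * g⁻¹)⁻¹) * g =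
        g⁻¹ * s * g * y * (g⁻¹ * s * g)⁻¹ * y⁻¹ := by group
    rw [h2] at h1
    exact h1

private theorem zr_of_ic (S : Subgroup X) (i : ℕ) : ∀ x ∈ S,
    (∀ l : List X, (∀ g ∈ l, g ∈ S) → l.length = i → ic x l = 1) → x ∈ Zr S i := by
  induction i with
  | zero =>
    intro x _ h
    rw [zr_zero, Subgroup.mem_bot]
    exact h [] (by simp) rfl
  | succ i ih =>
    intro x hx h
    rw [mem_zr_succ]
    refine ⟨hx, fun y hy => ih _ ?_ ?_⟩
    · exact S.mul_mem (S.mul_mem (S.mul_mem hx hy) (S.inv_mem hx)) (S.inv_mem hy)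
    · intro l hl hlen
      refine h (y :: l) ?_ (by simp [hlen])
      intro g hg
      rcases List.mem_cons.1 hg with h1 | h1
      · rw [h1]; exact hy
      · exact hl g h1

theorem zr_top {S : Subgroup X} {c : ℕ} (h : Hc S S c) : Zr S c = S := by
  refine le_antisymm (zr_le S c) fun x hx => ?_
  exact zr_of_ic S c x hx (h x hx)

theorem zr_grow {S D : Subgroup X} {i : ℕ} (h1 : Zr S i ≤ D) (h2 : D ≤ S) :
    Zr S (i + 1) ≤ Subgroup.normalizer (D : Set X) := by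
  have key : ∀ z ∈ Zr S (i + 1), ∀ d ∈ D, z * d * z⁻¹ ∈ D := by
    intro z hz d hd
    have h3 := h1 ((mem_zr_succ.1 hz).2 d (h2 hd))
    have h4 : z * d * z⁻¹ = (z * d * z⁻¹ * d⁻¹) * d := by group
    rw [h4]
    exact D.mul_mem h3 hd
  intro z hz
  rw [Subgroup.mem_normalizer_iff]
  intro h
  refine ⟨fun hh => key z hz h hh, fun hh => ?_⟩
  have h3 := key z⁻¹ (Subgroup.inv_mem _ hz) _ hh
  have h4 : z⁻¹ * (z * h * z⁻¹) * z⁻¹⁻¹ = h := by group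
  rw [h4] at h3
  exact h3

end Pool.Agent.FRK
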