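import Pool.Agent.FRK.GB
import Pool.Agent.FRK.GC

/-!
# FRK/GG: finite groups of the class are nilpotent of bounded class

Plan.  `P = ⊤`; `X` is a finite `r`-group (`Hyp.tors`, `IsPGroup`).  Let `A` be a subgroup which is maximal among the normal,
invariant, commutative subgroups (finitely many subgroups; `⊥` is one; `Set.Finite.exists_maximal...` or `Finite.exists_maximal`).
Claim: `x` commuting with all of `A` is in `A`.  `C = centralizer A` is normal and invariant (`A` is invariant and `a⁻¹` too: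
`FRS.inv_symm`), `A ≤ C`.  Suppose `C ≠ A`.  In `Q = X ⧸ A` (with `qt`) the image `C'` of `C` is a nontrivial normal subgroup of a
finite `r`-group, so it meets the centre nontrivially (as in the private lemma `ln_meet` of `FRS/LiftN.lean`, copy it);
`C' ⊓ center Q` is invariant and nontrivial, so it contains a nontrivial eigen-element `q` (`FRS.gen` for `Q`, `qt_hyp`).  Let `x ∈ C`
be a preimage of `q`: `A' = A ⊔ zpowers x` is commutative (`x` centralises `A`), normal (`q` is central: `g x g⁻¹ ∈ x A`),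
invariant (`a q ∈ zpowers q`: `eig_mem`), and larger than `A`, a contradiction.
So: `Hc A ⊤ (hh p)` (`lt`), `hh p = n + 1` (`Nat.pos_pow`); for all `g` and `l` of length `n` the element `ic g l` commutes with `A`
(`hc_cent`, `N = ⊤`), so it is in `A`, and `ic (ic g l) l' = 1` for `l'` of length `hh p`.  A list of length `2 * hh p` is
`l ++ l' ++ [u]`; `ic 1 _ = 1`.
-/

set_option autoImplicit false

namespace Pool.Agent.FRK

open Pool.Agent.FRB (Inv Eig LF SS)
open Pool.Agent.FRS (Root Hyp rs qt)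

universe u

variable {p r k : ℕ} {X : Type u} [Group X] {a : MulAut X}

private theorem gg_meet {X : Type u} [Group X] [Finite X] (hr : r.Prime) (hP : IsPGroup r X) {N : Subgroup X}
    (hN : N.Normal) (h : N ≠ ⊥) : N ⊓ Subgroup.center X ≠ ⊥ := by
  have hp : Fact r.Prime := ⟨hr⟩
  have hnt : Nontrivial N := (Subgroup.nontrivial_iff_ne_bot N).2 h
  have hd : r ∣ Nat.card N := by
    obtain ⟨n, hn0, hn⟩ := (hP.to_subgroup N).nontrivial_iff_card.mp inferInstance
    exact hn.symm ▸ dvd_pow_self _ (ne_of_gt hn0)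
  have h1 : (1 : N) ∈ MulAction.fixedPoints (ConjAct X) N := fun g => smul_one g
  obtain ⟨b, hb, hb1⟩ := (hP.of_equiv ConjAct.toConjAct).exists_fixed_point_of_prime_dvd_card_of_fixed_point N hd h1
  intro hbot
  refine hb1 (Subtype.ext ?_)
  have h2 : (b : X) ∈ N ⊓ Subgroup.center X := by
    refine ⟨b.2, Subgroup.mem_center_iff.2 fun g => ?_⟩
    have h3 := congrArg (Subtype.val) (hb (ConjAct.toConjAct g))
    rw [ConjAct.Subgroup.val_conj_smul, ConjAct.smul_def, ConjAct.ofConjAct_toConjAct] at h3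
    rw [← h3]
    rw [h3]
    exact mul_inv_eq_iff_eq_mul.1 h3
  rw [hbot, Subgroup.mem_bot] at h2
  exact h2.symm

private theorem gg_one {Y : Type*} [Group Y] (l : List Y) : ic (1 : Y) l = 1 := by
  induction l with
  | nil => rfl
  | cons g l ih =>
    show ic (1 * g * 1⁻¹ * g⁻¹) l = 1
    rw [show (1 * g * 1⁻¹ * g⁻¹ : Y) = 1 by group]
    exact ih

private theorem gg_app {Y : Type*} [Group Y] (x : Y) (l l' : List Y) : ic x (l ++ l') = ic (ic x l) l' := by
  unfold ic
  rw [List.foldl_append]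

/-- the class of subgroups -/
private def gg_P {X : Type u} [Group X] (a : MulAut X) (A : Subgroup X) : Prop :=
  A.Normal ∧ Inv a A ∧ ∀ x ∈ A, ∀ y ∈ A, Commute x y

private theorem gg_self [Finite X] (h : Root p r k) (H : Hyp p r a) (A : Subgroup X) (hA : gg_P a A)
    (hmax : ∀ B : Subgroup X, gg_P a B → A ≤ B → B ≤ A) (x : X) (hx : ∀ y ∈ A, Commute x y) : x ∈ A := by
  by_contra hxA
  obtain ⟨hAn, hAi, hAc⟩ := hA
  obtain ⟨C, hC⟩ : ∃ C : Subgroup X, C = Subgroup.centralizer (A : Set X) := ⟨_, rfl⟩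
  have hmem : ∀ c, c ∈ C ↔ ∀ y ∈ A, Commute c y := by
    intro c
    rw [hC, Subgroup.mem_centralizer_iff]
    exact ⟨fun h1 y hy => (h1 y hy).symm, fun h1 y hy => (h1 y hy).symm⟩
  have hCn : C.Normal := by
    refine ⟨fun c hc g => ?_⟩
    rw [hmem] at hc ⊢
    intro y hy
    have h1 : g⁻¹ * y * g ∈ A := by
      have := hAn.conj_mem y hy g⁻¹
      rwa [inv_inv] at this
    have h2 : c * (g⁻¹ * y * g) = (g⁻¹ * y * g) * c := (hc _ h1).eq
    show g * c * g⁻¹ * y = y * (g * c * g⁻¹)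
    calc g * c * g⁻¹ * y = g * (c * (g⁻¹ * y * g)) * g⁻¹ := by group
      _ = g * ((g⁻¹ * y * g) * c) * g⁻¹ := by rw [h2]
      _ = y * (g * c * g⁻¹) := by group
  have hCi : Inv a C := by
    intro c hc
    rw [hmem] at hc ⊢
    intro y hy
    have h1 : c * a⁻¹ y = a⁻¹ y * c := (hc _ (Pool.Agent.FRS.inv_symm H hAi y hy)).eq
    have h2 := congrArg a h1
    rw [map_mul, map_mul, MulAut.apply_inv_self] at h2
    exact h2
  have hQ := Pool.Agent.FRS.qt_hyp H A hAi
  have hCQn : (C.map (QuotientGroup.mk' A)).Normal := hCn.map _ (QuotientGroup.mk'_surjective A)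
  have hCQ0 : C.map (QuotientGroup.mk' A) ≠ ⊥ := by
    intro h0
    apply hxA
    have h1 : QuotientGroup.mk' A x ∈ C.map (QuotientGroup.mk' A) := ⟨x, (hmem x).2 hx, rfl⟩
    rw [h0, Subgroup.mem_bot] at h1
    exact (QuotientGroup.eq_one_iff x).1 h1
  have hm := gg_meet (r := r) h.prime (hQ.tors : IsPGroup r (X ⧸ A)) hCQn hCQ0
  have hDi : Inv (qt H A hAi) (C.map (QuotientGroup.mk' A) ⊓ Subgroup.center (X ⧸ A)) := by
    rintro _ ⟨⟨c, hc, rfl⟩, hz⟩
    exact ⟨⟨a c, hCi c hc, rfl⟩, Pool.Agent.FRB.inv_center _ _ hz⟩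
  obtain ⟨q, hq1, hqC, hqZ, i, hqE⟩ : ∃ q : X ⧸ A, q ≠ 1 ∧ q ∈ C.map (QuotientGroup.mk' A) ∧
      q ∈ Subgroup.center (X ⧸ A) ∧ ∃ i, Eig r k (qt H A hAi) i q := by
    by_contra hno
    apply hm
    rw [Subgroup.eq_bot_iff_forall]
    intro z hz
    have h1 := Pool.Agent.FRS.gen h hQ hDi hz
    have h2 : Subgroup.closure {e : X ⧸ A | e ∈ C.map (QuotientGroup.mk' A) ⊓ Subgroup.center (X ⧸ A) ∧
        ∃ i, 1 ≤ i ∧ i < p ∧ Eig r k (qt H A hAi) i e} ≤ ⊥ := by
      rw [Subgroup.closure_le]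
      rintro e ⟨he, i, _, _, hE⟩
      by_contra he1
      exact hno ⟨e, fun h0 => he1 (by rw [h0]; exact Subgroup.one_mem _), he.1, he.2, i, hE⟩
    exact Subgroup.mem_bot.1 (h2 h1)
  obtain ⟨x0, hx0, rfl⟩ := hqC
  have hZn : (Subgroup.zpowers (QuotientGroup.mk' A x0)).Normal := by
    refine ⟨fun n hn g => ?_⟩
    have h1 : n ∈ Subgroup.center (X ⧸ A) := (Subgroup.zpowers_le.2 hqZ) hn
    rw [Subgroup.mem_center_iff.1 h1 g, mul_inv_cancel_right]
    exact hn
  have hB : gg_P a ((Subgroup.zpowers (QuotientGroup.mk' A x0)).comap (QuotientGroup.mk' A)) := by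
    refine ⟨hZn.comap _, Pool.Agent.FRS.qt_inv_comap H A hAi (Pool.Agent.FRS.inv_zpowers hqE), ?_⟩
    have hrep : ∀ y ∈ (Subgroup.zpowers (QuotientGroup.mk' A x0)).comap (QuotientGroup.mk' A),
        ∃ (m : ℤ) (b : X), b ∈ A ∧ y = x0 ^ m * b := by
      intro y hy
      obtain ⟨m, hm⟩ := Subgroup.mem_zpowers_iff.1 (Subgroup.mem_comap.1 hy)
      refine ⟨m, (x0 ^ m)⁻¹ * y, ?_, by group⟩
      rw [← QuotientGroup.eq]
      rw [← map_zpow] at hm
      exact hm
    intro y hy z hz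
    obtain ⟨m, b, hb, rfl⟩ := hrep y hy
    obtain ⟨n, c, hc, rfl⟩ := hrep z hz
    have h1 : ∀ d ∈ A, Commute x0 d := (hmem x0).1 hx0
    have h2 : Commute (x0 ^ m) (x0 ^ n) := (Commute.refl x0).zpow_zpow m n
    have h3 : Commute (x0 ^ m) c := (h1 c hc).zpow_left m
    have h4 : Commute b (x0 ^ n) := ((h1 b hb).zpow_left n).symm
    exact (h2.mul_right h3).mul_left (h4.mul_right (hAc b hb c hc))
  have h5 := hmax _ hB (by
    intro y hy
    rw [Subgroup.mem_comap]
    have h6 : QuotientGroup.mk' A y = 1 := (QuotientGroup.eq_one_iff y).2 hy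
    rw [h6]
    exact Subgroup.one_mem _)
  apply hq1
  exact (QuotientGroup.eq_one_iff x0).2 (h5 (Subgroup.mem_comap.2 (Subgroup.mem_zpowers _)))

theorem nil_fin [Finite X] (h : Root p r k) (H : Hyp p r a) (hb : p * (p - 1) < 2 * r) :
    Hc (⊤ : Subgroup X) ⊤ (2 * hh p) := by
  have hfin : Finite (Subgroup X) := inferInstance
  have hne : (setOf (gg_P a) : Set (Subgroup X)).Nonempty := by
    refine ⟨⊥, inferInstance, ?_, ?_⟩
    · intro x hx
      rw [Subgroup.mem_bot] at hx ⊢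
      rw [hx, map_one]
    · intro x hx y hy
      rw [Subgroup.mem_bot] at hx
      rw [hx]
      exact Commute.one_left y
  obtain ⟨A, hA, hmax⟩ := (Set.toFinite (setOf (gg_P a) : Set (Subgroup X))).exists_maximal hne
  have hself := gg_self h H A hA (fun B hB hAB => hmax hB hAB)
  obtain ⟨hAn, hAi, hAc⟩ := hA
  have hlt : Hc A ⊤ (hh p) := lt h H hb A hAi hAc
  have hpos : 0 < hh p := by
    unfold hh
    have := h.five
    exact Nat.pow_pos (by omega)
  obtain ⟨n, hn⟩ : ∃ n, hh p = n + 1 := ⟨hh p - 1, by omega⟩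
  rw [hn] at hlt ⊢
  intro g _ l _ hlen
  have e1 : l = l.take n ++ ((l.drop n).take (n + 1) ++ (l.drop n).drop (n + 1)) := by
    rw [List.take_append_drop, List.take_append_drop]
  rw [e1, gg_app, gg_app]
  have h1 : ic g (l.take n) ∈ A := by
    apply hself
    intro y hy
    exact hc_cent (le_top : A ≤ ⊤) hlt (Subgroup.mem_top g) (fun u _ => Subgroup.mem_top u)
      (by rw [List.length_take, hlen]; omega) hy
  have h2 := hlt _ h1 ((l.drop n).take (n + 1)) (fun u _ => Subgroup.mem_top u)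
    (by rw [List.length_take, List.length_drop, hlen]; omega)
  rw [h2]
  exact gg_one _

end Pool.Agent.FRK
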