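import Pool.Agent.FRK.GG
import Pool.Agent.FRK.GF

/-!
# FRK/GH: locally finite groups of the class are nilpotent; nilpotent normal subgroups are hypercentral

`nil_lf`: `x ∈ S`, `l` a list in `S`.  Let `T` be the closure of the (finite) set of all `(a^i) z`, `i < p`, `z ∈ x :: l`.  `T ≤ S`
(`S` is invariant), `T` is finite (`LF S`), invariant (`a^p = 1`).  Apply `nil_fin` to the group `T` with `rs H T _` (`rs_hyp`) and map
to `X` (`ic_map` of `FRK/GB` with `T.subtype`).
`hc_nil`: `c = 2 * hh p`, `Zr S c = S` (`nil_lf`, `zr_top`).  Claim `Hc (Zr S i) N (i * hh p)`, induction on `i`: `i = 0`: `Zr S 0 = ⊥`,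
`ic 1 [] = 1`.  `i + 1`: a list of length `(i+1) * hh p` is `l ++ l'` with `l` of length `hh p`; `ic x l ∈ Zr S i` by `lt_sec` with `B = Zr S (i+1)`,
`C = Zr S i` (`zr_inv`, `zr_norm`, `mem_zr_succ`), and `ic x (l ++ l') = ic (ic x l) l'`.
-/

set_option autoImplicit false

namespace Pool.Agent.FRK

open Pool.Agent.FRB (Inv Eig LF SS)
open Pool.Agent.FRS (Root Hyp rs qt)

universe u

variable {p r k : ℕ} {X : Type u} [Group X] {a : MulAut X}

theorem nil_lf (h : Root p r k) (H : Hyp p r a) (hb : p * (p - 1) < 2 * r) {S : Subgroup X} (hS : Inv a S)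
    (hl : LF S) : Hc S S (2 * hh p) := by
  have hlf := hl
  clear hl
  intro x hx l hl hlen
  -- the finite invariant subgroup generated by the orbits
  have hpow : ∀ i : ℕ, ∀ w ∈ S, (a ^ i) w ∈ S := by
    intro i
    induction i with
    | zero => intro w hw; exact hw
    | succ i ih =>
      intro w hw
      rw [pow_succ, MulAut.mul_apply]
      exact ih _ (hS w hw)
  have hmem : ∀ w ∈ x :: l, w ∈ S := by
    intro w hw
    rcases List.mem_cons.1 hw with h1 | h1
    · rw [h1]; exact hx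
    · exact hl w h1
  have hfin : {z : X | ∃ i < p, ∃ w ∈ x :: l, z = (a ^ i) w}.Finite := by
    have h1 : {z : X | ∃ i < p, ∃ w ∈ x :: l, z = (a ^ i) w} ⊆
        ⋃ i ∈ Set.Iio p, (fun w => (a ^ i) w) '' {w | w ∈ x :: l} := by
      rintro z ⟨i, hi, w, hw, rfl⟩
      exact Set.mem_biUnion (Set.mem_Iio.2 hi) ⟨w, hw, rfl⟩
    exact ((Set.finite_Iio p).biUnion fun i _ => (List.finite_toSet (x :: l)).image _).subset h1
  obtain ⟨T, hTdef⟩ : ∃ T : Subgroup X,
      T = Subgroup.closure {z : X | ∃ i < p, ∃ w ∈ x :: l, z = (a ^ i) w} := ⟨_, rfl⟩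
  have hTfin : (T : Set X).Finite := by
    have h1 := hlf hfin.toFinset (by
      intro z hz
      rw [Set.Finite.coe_toFinset] at hz
      obtain ⟨i, _, w, hw, rfl⟩ := hz
      exact hpow i w (hmem w hw))
    rw [Set.Finite.coe_toFinset, ← hTdef] at h1
    exact h1
  have hTinv : Inv a T := by
    have h1 : T ≤ T.comap (a : X →* X) := by
      conv_lhs => rw [hTdef]
      rw [Subgroup.closure_le]
      rintro z ⟨i, hi, w, hw, rfl⟩
      show a ((a ^ i) w) ∈ T
      rw [← MulAut.mul_apply, ← pow_succ', hTdef]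
      rcases Nat.lt_or_ge (i + 1) p with h2 | h2
      · exact Subgroup.subset_closure ⟨i + 1, h2, w, hw, rfl⟩
      · have h3 : i + 1 = p := le_antisymm hi h2
        rw [h3, H.powp]
        exact Subgroup.subset_closure ⟨0, H.pos, w, hw, rfl⟩
    intro z hz
    exact h1 hz
  have hTmem : ∀ w ∈ x :: l, w ∈ T := by
    intro w hw
    rw [hTdef]
    exact Subgroup.subset_closure ⟨0, H.pos, w, hw, rfl⟩
  have hTf : Finite T := hTfin.to_subtype
  have h1 := nil_fin h (FRS.rs_hyp H T hTinv) hb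
  have hxT : x ∈ T := hTmem x (List.mem_cons_self)
  have hlT : ∀ w ∈ l, w ∈ T := fun w hw => hTmem w (List.mem_cons_of_mem _ hw)
  have h2 := h1 ⟨x, hxT⟩ (Subgroup.mem_top _) (l.pmap (fun w hw => (⟨w, hw⟩ : T)) hlT)
    (fun g _ => Subgroup.mem_top g) (by rw [List.length_pmap]; exact hlen)
  have h3 := ic_map T.subtype ⟨x, hxT⟩ (l.pmap (fun w hw => (⟨w, hw⟩ : T)) hlT)
  rw [h2, map_one, List.map_pmap] at h3
  have h4 : List.pmap (fun w hw => T.subtype (⟨w, hw⟩ : T)) l hlT = l := by
    have h5 : List.pmap (fun w hw => T.subtype (⟨w, hw⟩ : T)) l hlT =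
        List.pmap (fun w _ => w) l hlT := rfl
    rw [h5, List.pmap_eq_map, List.map_id']
  rw [h4] at h3
  exact h3.symm

theorem hc_nil (h : Root p r k) (H : Hyp p r a) (hb : p * (p - 1) < 2 * r) {S N : Subgroup X} (hS : Inv a S)
    (hN : Inv a N) (hSN : S ≤ N) (nS : ∀ g ∈ N, ∀ s ∈ S, g⁻¹ * s * g ∈ S) (hl : LF S) : ∃ n : ℕ, Hc S N n := by
  have hclaim : ∀ i : ℕ, Hc (Zr S i) N (i * hh p) := by
    intro i
    induction i with
    | zero =>
      intro x hx l _ hlen
      rw [zr_zero, Subgroup.mem_bot] at hx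
      rw [Nat.zero_mul] at hlen
      rw [List.length_eq_zero_iff.1 hlen, hx]
      rfl
    | succ i ih =>
      intro x hx l hlN hlen
      have h1 : l = l.take (hh p) ++ l.drop (hh p) := (List.take_append_drop _ _).symm
      have h2 : ic x l = ic (ic x (l.take (hh p))) (l.drop (hh p)) := by
        conv_lhs => rw [h1]
        exact List.foldl_append
      have hlen' : l.length = i * hh p + hh p := by rw [hlen, Nat.succ_mul]
      have h3 : ic x (l.take (hh p)) ∈ Zr S i := by
        refine lt_sec h H hb hN (zr_inv H hS (i + 1)) (zr_inv H hS i) (zr_mono S i)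
          ((zr_le S (i + 1)).trans hSN) (zr_norm nS (i + 1)) (zr_norm nS i) ?_ hx ?_ ?_
        · intro u hu v hv
          exact (mem_zr_succ.1 hu).2 v (zr_le S (i + 1) hv)
        · intro g hg
          exact hlN g (List.mem_of_mem_take hg)
        · rw [List.length_take, hlen']
          exact min_eq_left (Nat.le_add_left _ _)
      rw [h2]
      refine ih _ h3 _ (fun g hg => hlN g (List.mem_of_mem_drop hg)) ?_
      rw [List.length_drop, hlen', Nat.add_sub_cancel]
  refine ⟨2 * hh p * hh p, ?_⟩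
  have h1 := hclaim (2 * hh p)
  rw [zr_top (nil_lf h H hb hS hl)] at h1
  exact h1

end Pool.Agent.FRK
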