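import Pool.Agent.FRK.GI
import Pool.Agent.FRK.GJ

/-!
# FRK/GK: a group with an eigen-element with locally finite centraliser is locally finite

Plan: `zpowers y` is invariant (`FRS.inv_zpowers`) and finite, so locally finite; `exists_max`: `M` maximal with `y ∈ M`.
`max_uniq` with `D0 = {y}`: `hN`: for `D` invariant, locally finite, `y ∈ D`: `centralizer D ≤ centralizer {y}` is locally finite
(`FRB.lf_mono`), so `nrm_fin`; `hnil`: `nil_lf`; `hin`: `inv_nrm`.  For every eigen-element `x`: `closure {x, y}` is finite (`Hyp.two`),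
so locally finite, invariant (`FRS.inv_pair`), contains `y`, so `x ∈ M`.  By `FRS.gen` (`S = ⊤`) `M = ⊤`.
-/

set_option autoImplicit false

namespace Pool.Agent.FRK

open Pool.Agent.FRB (Inv Eig LF SS)
open Pool.Agent.FRS (Root Hyp rs qt)

universe u

variable {p r k : ℕ} {X : Type u} [Group X] {a : MulAut X}

theorem lf_of_cent (h : Root p r k) (H : Hyp p r a) (hb : p * (p - 1) < 2 * r) {j : ℕ} {y : X}
    (hy : Eig r k a j y) (hC : LF (Subgroup.centralizer ({y} : Set X))) : LF (⊤ : Subgroup X) := by
  have finLF : ∀ S : Subgroup X, (S : Set X).Finite → LF S :=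
    fun S hS s hs => hS.subset ((Subgroup.closure_le S).2 hs)
  have hz : LF (Subgroup.zpowers y) := by
    refine finLF _ ((H.two y y).subset ?_)
    exact Subgroup.zpowers_le.2 (Subgroup.subset_closure (Set.mem_insert _ _))
  obtain ⟨M, hM, hMi, hMl, hMm⟩ := exists_max (FRS.inv_zpowers hy) hz
  have hyM : y ∈ M := hM (Subgroup.mem_zpowers y)
  have huniq := max_uniq (fun D hD => inv_nrm H hD) (fun T hT hl => ⟨2 * hh p, nil_lf h H hb hT hl⟩) hMi hMl hMm
    ({y} : Set X) (Set.singleton_subset_iff.2 hyM)
    (fun D hD hl hy' => nrm_fin h H hb hD hl (FRB.lf_mono (Subgroup.centralizer_le hy') hC))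
  have htop : (⊤ : Subgroup X) ≤ M := by
    intro x _
    have hx := FRS.gen h H (S := ⊤) (fun _ _ => Subgroup.mem_top _) (Subgroup.mem_top x)
    refine (Subgroup.closure_le M).2 ?_ hx
    rintro e ⟨-, i, -, -, he⟩
    exact huniq (Subgroup.closure ({e, y} : Set X)) (FRS.inv_pair he hy) (finLF _ (H.two e y))
      (Set.singleton_subset_iff.2 (Subgroup.subset_closure (Set.mem_insert_of_mem _ rfl)))
      (Subgroup.subset_closure (Set.mem_insert _ _))
  exact FRB.lf_mono htop hMl

end Pool.Agent.FRK
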