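import Pool.Agent.FRK.GDefs
import Pool.Agent.FRS.RulA
import Pool.Agent.FRS.ChD

/-!
# FRK/GL: the set of degrees

`com_triv`: `FRS.str_exists` gives `Str r k a i j x y n e`; if `n ≥ 1` then `e 1 ≠ 1` (`Str.ne`) has degree `i + 1 * j` (`Str.eig`), a
contradiction; so `n = 0` and `FRS.cj_one`.
`dl_rs`, `dl_qt`: eigen-elements of a subgroup are eigen-elements (`FRS.rs_eig`), eigen-elements of a quotient lift
(`FRS.lift_quo`; the lift of a nontrivial element is nontrivial).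
`dl_step`: `q ∈ Dl`; then `¬ p ∣ q` (`FRS.eig_triv`).  Let `l ≥ 1` be minimal with: all eigen-elements of degree `(l + 1) * q` are
trivial (`l = p - 1` has this property, `FRS.eig_triv`); `d = (l * q) % p`.  For `l = 1` `d = q ∈ Dl` (`q < p`), for `l > 1` the minimality for
`l - 1` gives a nontrivial eigen-element of degree `l * q`, so of degree `d` (`FRS.eig_congr`).  Elements of degree `d + q` have
degree `(l + 1) * q`, so they are trivial.
-/

set_option autoImplicit false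

namespace Pool.Agent.FRK

open Pool.Agent.FRB (Inv Eig LF SS)
open Pool.Agent.FRS (Root Hyp rs qt)

universe u

variable {p r k : ℕ} {X : Type u} [Group X] {a : MulAut X}

theorem mem_dl {i : ℕ} : i ∈ Dl p r k a ↔ i < p ∧ ∃ x : X, x ≠ 1 ∧ Eig r k a i x := by
  unfold Dl
  simp only [Finset.mem_filter, Finset.mem_range]

theorem com_triv (h : Root p r k) (H : Hyp p r a) {i j : ℕ} (ht : ∀ z : X, Eig r k a (i + j) z → z = 1) {x y : X}
    (hx : Eig r k a i x) (hy : Eig r k a j y) : Commute x y := by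
  obtain ⟨n, e, hS⟩ := Pool.Agent.FRS.str_exists h H hx hy
  rcases Nat.eq_zero_or_pos n with h0 | h0
  · rw [h0] at hS
    exact Pool.Agent.FRS.cj_one h H hx hy hS
  · exfalso
    have h1 := hS.eig 1 h0
    rw [one_mul] at h1
    exact hS.ne 1 h0 le_rfl (ht _ h1)

theorem dl_rs (h : Root p r k) (H : Hyp p r a) (S : Subgroup X) (hS : Inv a S) : Dl p r k (rs H S hS) ⊆ Dl p r k a := by
  have _ := h
  intro i hi
  obtain ⟨hip, x, hx1, hx⟩ := mem_dl.1 hi
  refine mem_dl.2 ⟨hip, (x : X), fun h1 => hx1 (Subtype.ext h1), ?_⟩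
  exact (Pool.Agent.FRS.rs_eig H S hS).1 hx

theorem dl_qt (h : Root p r k) (H : Hyp p r a) (N : Subgroup X) [N.Normal] (hN : Inv a N) :
    Dl p r k (qt H N hN) ⊆ Dl p r k a := by
  intro i hi
  obtain ⟨hip, q, hq1, hq⟩ := mem_dl.1 hi
  obtain ⟨x, hxq, hx⟩ := Pool.Agent.FRS.lift_quo h H N hN hq
  refine mem_dl.2 ⟨hip, x, fun h1 => hq1 ?_, hx⟩
  rw [← hxq, h1]
  rfl

/-- if `N` contains all eigen-elements of degree `q` then `q` is not a degree of the quotient -/
theorem dl_qt_not (h : Root p r k) (H : Hyp p r a) (N : Subgroup X) [N.Normal] (hN : Inv a N) {q : ℕ}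
    (hq : ∀ x : X, Eig r k a q x → x ∈ N) : q ∉ Dl p r k (qt H N hN) := by
  intro hi
  obtain ⟨_, y, hy1, hy⟩ := mem_dl.1 hi
  obtain ⟨x, hxy, hx⟩ := Pool.Agent.FRS.lift_quo h H N hN hy
  refine hy1 ?_
  rw [← hxy]
  exact (QuotientGroup.eq_one_iff x).2 (hq x hx)

theorem dl_step (h : Root p r k) (H : Hyp p r a) {q : ℕ} (hq : q ∈ Dl p r k a) :
    ∃ d ∈ Dl p r k a, ∀ z : X, Eig r k a (d + q) z → z = 1 := by
  classical
  obtain ⟨_, x, hx1, hx⟩ := mem_dl.1 hq
  have hpp := h.pp.one_lt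
  have hex : ∃ l, 1 ≤ l ∧ ∀ z : X, Eig r k a ((l + 1) * q) z → z = 1 := by
    refine ⟨p - 1, by omega, fun z hz => ?_⟩
    refine Pool.Agent.FRS.eig_triv h H ?_ hz
    rw [Nat.sub_add_cancel hpp.le]
    exact dvd_mul_right p q
  obtain ⟨hl1, hl2⟩ := Nat.find_spec hex
  have hmin := fun m (hm : m < Nat.find hex) => Nat.find_min hex hm
  set l := Nat.find hex with hl
  have hz : ∃ z : X, z ≠ 1 ∧ Eig r k a (l * q) z := by
    rcases Nat.lt_or_ge 1 l with h1 | h1
    · have h2 := hmin (l - 1) (by omega)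
      push Not at h2
      obtain ⟨z, hz, hz1⟩ := h2 (by omega)
      rw [Nat.sub_add_cancel hl1] at hz
      exact ⟨z, hz1, hz⟩
    · have h2 : l = 1 := by omega
      rw [h2, one_mul]
      exact ⟨x, hx1, hx⟩
  obtain ⟨z, hz1, hz⟩ := hz
  refine ⟨l * q % p, mem_dl.2 ⟨Nat.mod_lt _ h.pp.pos, z, hz1, ?_⟩, fun w hw => hl2 w ?_⟩
  · exact Pool.Agent.FRS.eig_congr h (Nat.mod_modEq _ _).symm hz
  · refine Pool.Agent.FRS.eig_congr h ?_ hw
    have h3 : l * q % p + q ≡ l * q + q [MOD p] := (Nat.mod_modEq _ _).add_right q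
    have h4 : (l + 1) * q = l * q + q := by ring
    rw [h4]
    exact h3

/-- a group without degrees is trivial -/
theorem dl_empty (h : Root p r k) (H : Hyp p r a) (he : Dl p r k a = ∅) (x : X) : x = 1 := by
  have h1 := Pool.Agent.FRS.gen h H (S := ⊤) (fun y _ => Subgroup.mem_top _) (Subgroup.mem_top x)
  have h2 : Subgroup.closure {e : X | e ∈ (⊤ : Subgroup X) ∧ ∃ i, 1 ≤ i ∧ i < p ∧ Eig r k a i e} ≤ ⊥ := by
    rw [Subgroup.closure_le]
    rintro e ⟨_, i, _, hip, hi⟩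
    rw [SetLike.mem_coe, Subgroup.mem_bot]
    by_contra hne
    have h3 : i ∈ Dl p r k a := mem_dl.2 ⟨hip, e, hne, hi⟩
    rw [he] at h3
    exact Finset.notMem_empty i h3
  exact Subgroup.mem_bot.1 (h2 h1)

end Pool.Agent.FRK
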