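import Pool.Agent.FRK.GK
import Pool.Agent.FRK.GL

/-!
# FRK/GM: `⟨L_q, y⟩` is locally finite

`IH`: all groups of the class with fewer than `m` degrees are locally finite; `hm`: `X` has at most `m` degrees.
Plan.  Suppose `E = closure ({x | Eig q x} ∪ {y})` is not locally finite.  `E` is invariant (`FRB.inv_closure`, `FRS.eig_mem`: `a x` is a
power of `x`).  `FRS.sec H hE hL`: `Y`, `b`, `π : E →* Y` surjective, `Hyp p r b`, `SS b ⊤`, `Nontrivial Y`, eigen-elements map to
eigen-elements and lift.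
(1) `Y` is not locally finite (`SS b ⊤` for `L = ⊤` would give `⊤ = ⊥`, `Nontrivial`).
(2) `Dl p r k b ⊆ Dl p r k a` (lifting: a nontrivial eigen-element of `Y` lifts to a nontrivial eigen-element of `E ≤ X`), and by `IH` and
    (1) `(Dl p r k b).card ≥ m`, so the two sets are equal (`Finset.eq_of_subset_of_card_le`).
(3) `C = centralizer {π y}` is invariant (`FRS.inv_cent` with `V = ⊤`, the image of `y` is an eigen-element) and not locally finite
    (`lf_of_cent` and (1)).  The group `C` with `rs Hb C _` has at least `m` degrees (`IH`, `FRS.lf_coe`), so all of `Dl p r k b`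
    (`dl_rs`).
(4) `dl_step` for `q`: `d ∈ Dl p r k a` with: all elements of degree `d + q` in `X` are trivial.  The same holds in `Y` (lifting).  By (3)
    there is `c ∈ C`, `c ≠ 1`, of degree `d`.  `c` commutes with all eigen-elements of degree `q` of `Y` (`com_triv`), in
    particular with `π x` for `x ∈ E` of degree `q`, and with `π y`.  So `c` commutes with `π e` for all `e ∈ E` (closure induction,
    or: the preimage under `π` of the centraliser of `c`, mapped to `X`, contains the generators of `E`), i.e. with all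
    of `Y`.
(5) `zpowers c` is normal, invariant (`FRS.inv_zpowers`), locally finite (finite; `Hyp.two` or `FRB.lf_comm`), so `⊥` by `SS`: `c = 1`.
    Contradiction.
-/

set_option autoImplicit false

namespace Pool.Agent.FRK

open Pool.Agent.FRB (Inv Eig LF SS)
open Pool.Agent.FRS (Root Hyp rs qt)

universe u

variable {p r k : ℕ} {X : Type u} [Group X] {a : MulAut X}

private theorem ss_not_lf {Y : Type*} [Group Y] [Nontrivial Y] {b : MulAut Y} (hSS : SS b (⊤ : Subgroup Y)) :
    ¬ LF (⊤ : Subgroup Y) := by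
  intro hL
  have h1 : (⊤ : Subgroup Y) = ⊥ := hSS ⊤ le_rfl (fun x _ => Subgroup.mem_top _) (fun y _ x _ => Subgroup.mem_top _) hL
  obtain ⟨y, hy⟩ := exists_ne (1 : Y)
  have h2 : y ∈ (⊥ : Subgroup Y) := by
    rw [← h1]
    exact Subgroup.mem_top y
  exact hy (Subgroup.mem_bot.1 h2)

private theorem lf_fin {Y : Type*} [Group Y] {S : Subgroup Y} (hS : (S : Set Y).Finite) : LF S := by
  intro s hs
  exact hS.subset ((Subgroup.closure_le S).2 hs)

theorem pair_lf (h : Root p r k) (hb : p * (p - 1) < 2 * r) {m : ℕ}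
    (IH : ∀ (Y : Type u) [Group Y] (b : MulAut Y), Hyp p r b → (Dl p r k b).card < m → LF (⊤ : Subgroup Y))
    (H : Hyp p r a) (hm : (Dl p r k a).card ≤ m) {q : ℕ} (hq : q ∈ Dl p r k a) {j : ℕ} {y : X} (hy : Eig r k a j y) :
    LF (Subgroup.closure ({x : X | Eig r k a q x} ∪ {y})) := by
  by_contra hE
  have hEi : Inv a (Subgroup.closure ({x : X | Eig r k a q x} ∪ {y})) := by
    refine FRB.inv_closure fun z hz => ?_
    rcases hz with hz | hz
    · exact Subgroup.subset_closure (Or.inl (FRS.eig_app h hz))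
    · have hz' : z = y := hz
      subst hz'
      have hz2 : z ∈ Subgroup.closure ({x : X | Eig r k a q x} ∪ {z}) :=
        Subgroup.subset_closure (Or.inr (Set.mem_singleton _))
      exact (Subgroup.zpowers_le.2 hz2) (FRS.eig_mem hy)
  obtain ⟨Y, hY, b, π, hπ, Hb, hSS, hnt, hmap, hlift⟩ := FRS.sec H hEi hE
  have hYn : ¬ LF (⊤ : Subgroup Y) := ss_not_lf hSS
  -- degrees
  have hsub : Dl p r k b ⊆ Dl p r k a := by
    intro i hi
    rw [mem_dl] at hi ⊢
    obtain ⟨hip, z, hz1, hz⟩ := hi
    obtain ⟨x, hx, hxz⟩ := hlift k i z h hz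
    refine ⟨hip, (x : X), ?_, hx⟩
    intro hx1
    apply hz1
    have : x = 1 := Subtype.ext hx1
    rw [← hxz, this, map_one]
  have hcard : m ≤ (Dl p r k b).card := by
    by_contra hlt
    exact hYn (IH Y b Hb (not_le.1 hlt))
  have hDeq : Dl p r k b = Dl p r k a := Finset.eq_of_subset_of_card_le hsub (hm.trans hcard)
  -- the centraliser
  have hyE : y ∈ Subgroup.closure ({x : X | Eig r k a q x} ∪ {y}) :=
    Subgroup.subset_closure (Or.inr (Set.mem_singleton _))
  have hyb : Eig r k b j (π ⟨y, hyE⟩) := hmap k j ⟨y, hyE⟩ hy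
  have hCi : Inv b (Subgroup.centralizer ({π ⟨y, hyE⟩} : Set Y)) := by
    have h1 := FRS.inv_cent h hyb (V := ⊤) (fun x _ => Subgroup.mem_top _)
    rwa [top_inf_eq] at h1
  have hCn : ¬ LF (Subgroup.centralizer ({π ⟨y, hyE⟩} : Set Y)) := fun hC => hYn (lf_of_cent h Hb hb hyb hC)
  have hCcard : m ≤ (Dl p r k (rs Hb _ hCi)).card := by
    by_contra hlt
    apply hCn
    exact FRS.lf_coe.1 (IH _ (rs Hb _ hCi) (FRS.rs_hyp Hb _ hCi) (not_le.1 hlt))
  have hCeq : Dl p r k (rs Hb _ hCi) = Dl p r k b := by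
    apply Finset.eq_of_subset_of_card_le (dl_rs h Hb _ hCi)
    rw [hDeq]
    exact hm.trans hCcard
  obtain ⟨d, hd, hdq⟩ := dl_step h H hq
  have hdq' : ∀ z : Y, Eig r k b (d + q) z → z = 1 := by
    intro z hz
    obtain ⟨x, hx, hxz⟩ := hlift k (d + q) z h hz
    have hx1 : x = 1 := Subtype.ext (hdq x hx)
    rw [← hxz, hx1, map_one]
  have hdC : d ∈ Dl p r k (rs Hb _ hCi) := by
    rw [hCeq, hDeq]
    exact hd
  rw [mem_dl] at hdC
  obtain ⟨_, c, hc1, hc⟩ := hdC
  have hcb : Eig r k b d (c : Y) := (FRS.rs_eig Hb _ hCi).1 hc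
  have hcc : Commute (c : Y) (π ⟨y, hyE⟩) := by
    have := c.2
    rw [Subgroup.mem_centralizer_singleton_iff] at this
    exact this
  have hcq : ∀ z : Y, Eig r k b q z → Commute (c : Y) z := fun z hz => com_triv h Hb hdq' hcb hz
  have hall : ∀ e : Subgroup.closure ({x : X | Eig r k a q x} ∪ {y}), Commute (c : Y) (π e) := by
    have hle : Subgroup.closure ({x : X | Eig r k a q x} ∪ {y}) ≤
        ((Subgroup.centralizer ({(c : Y)} : Set Y)).comap π).map (Subgroup.subtype _) := by
      rw [Subgroup.closure_le]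
      intro z hz
      have hzE : z ∈ Subgroup.closure ({x : X | Eig r k a q x} ∪ {y}) := Subgroup.subset_closure hz
      refine ⟨⟨z, hzE⟩, ?_, rfl⟩
      change π ⟨z, hzE⟩ ∈ Subgroup.centralizer ({(c : Y)} : Set Y)
      rw [Subgroup.mem_centralizer_singleton_iff]
      rcases hz with hz | hz
      · exact (hcq _ (hmap k q ⟨z, hzE⟩ hz)).symm
      · have hz' : z = y := hz
        subst hz'
        exact hcc.symm
    intro e
    obtain ⟨e', he', hee⟩ := hle e.2
    have h1 : e' = e := Subtype.ext hee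
    rw [h1] at he'
    have he'' : π e ∈ Subgroup.centralizer ({(c : Y)} : Set Y) := he'
    rw [Subgroup.mem_centralizer_singleton_iff] at he''
    exact he''.symm
  have hcy : ∀ z : Y, Commute (c : Y) z := by
    intro z
    obtain ⟨e, rfl⟩ := hπ z
    exact hall e
  have hz1 : Subgroup.zpowers (c : Y) = ⊥ := by
    apply hSS _ le_top (FRS.inv_zpowers hcb)
    · intro z _ x hx
      obtain ⟨n, rfl⟩ := Subgroup.mem_zpowers_iff.1 hx
      have h2 : Commute ((c : Y) ^ n) z := (hcy z).zpow_left n
      rw [mul_assoc, h2.eq, inv_mul_cancel_left]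
      exact hx
    · apply lf_fin
      have h3 := Hb.two (c : Y) (c : Y)
      rw [Set.pair_eq_singleton, ← Subgroup.zpowers_eq_closure] at h3
      exact h3
  apply hc1
  apply Subtype.ext
  have h4 : (c : Y) ∈ Subgroup.zpowers (c : Y) := Subgroup.mem_zpowers _
  rw [hz1] at h4
  exact Subgroup.mem_bot.1 h4

end Pool.Agent.FRK
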