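import Pool.Agent.FRK.GM

/-!
# FRK/GN: the theorem for groups with an automorphism

`nrm_q`: `N = normalizer D` (invariant: `inv_nrm`); `D' = D.subgroupOf N` is a normal invariant subgroup of the group `N`
(`FRS.inv_subgroupOf`), and contains all eigen-elements of degree `q` of `N` (`FRS.rs_eig`).  The quotient `Q = N ⧸ D'` has
`Dl ⊆ Dl N ⊆ Dl X` (`dl_qt`, `dl_rs`) without `q` (`dl_qt_not`), so fewer than `m` elements, so it is locally finite by `IH`
(`rs_hyp`, `qt_hyp`); `D'` is locally finite; `FRB.lf_ext` for the group `N`; `FRS.lf_coe`.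
`lf_step`: if `Dl = ∅` then `X` is trivial (`dl_empty`).  Otherwise let `q ∈ Dl`, `D0 = {x | Eig q x}`; `closure (D0 ∪ {1})` is locally finite
(`pair_lf` with `y = 1`, `FRS.eig_one`) and invariant; `M` maximal over it (`exists_max`).  `max_uniq` with `D0` (`nrm_q`, `nil_lf`,
`inv_nrm`).  For every eigen-element `y`: `closure (D0 ∪ {y})` is invariant and locally finite (`pair_lf`), so `y ∈ M`.  `FRS.gen`: `M = ⊤`.
`lf_all`: strong induction on the number of degrees.
-/

set_option autoImplicit false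

namespace Pool.Agent.FRK

open Pool.Agent.FRB (Inv Eig LF SS)
open Pool.Agent.FRS (Root Hyp rs qt)

universe u

variable {p r k : ℕ} {X : Type u} [Group X] {a : MulAut X}

private theorem fgn_sub {S D : Subgroup X} (hl : LF D) : LF (D.subgroupOf S) := by
  classical
  intro s hs
  apply (FRS.fin_sub S (s : Set S)).1
  have h1 : S.subtype '' (s : Set S) = ((s.image S.subtype : Finset X) : Set X) := by
    rw [Finset.coe_image]
  rw [h1]
  apply hl
  intro x hx
  rw [Finset.coe_image] at hx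
  obtain ⟨y, hy, rfl⟩ := hx
  exact hs hy

private theorem fgn_inv {q j : ℕ} {y : X} (hy : Eig r k a j y) :
    Inv a (Subgroup.closure ({x : X | Eig r k a q x} ∪ {y})) := by
  apply FRB.inv_closure
  intro x hx
  have hx' : a x ∈ Subgroup.zpowers x := by
    rcases hx with hx | hx
    · exact FRS.eig_mem hx
    · rw [Set.mem_singleton_iff] at hx
      subst hx
      exact FRS.eig_mem hy
  have hle : Subgroup.zpowers x ≤ Subgroup.closure ({x : X | Eig r k a q x} ∪ {y}) := by
    rw [Subgroup.zpowers_le]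
    exact Subgroup.subset_closure hx
  exact hle hx'

theorem nrm_q (h : Root p r k) {m : ℕ}
    (IH : ∀ (Y : Type u) [Group Y] (b : MulAut Y), Hyp p r b → (Dl p r k b).card < m → LF (⊤ : Subgroup Y))
    (H : Hyp p r a) (hm : (Dl p r k a).card ≤ m) {q : ℕ} (hq : q ∈ Dl p r k a) {D : Subgroup X} (hD : Inv a D)
    (hl : LF D) (hqD : ∀ x : X, Eig r k a q x → x ∈ D) : LF (Subgroup.normalizer (D : Set X)) := by
  have hNi : Inv a (Subgroup.normalizer (D : Set X)) := inv_nrm H hD
  obtain ⟨N, hNdef⟩ : ∃ N : Subgroup X, N = Subgroup.normalizer (D : Set X) := ⟨_, rfl⟩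
  have hnorm : (D.subgroupOf N).Normal := by
    rw [hNdef]
    exact Subgroup.normal_in_normalizer
  rw [← hNdef] at hNi ⊢
  have Hb := FRS.rs_hyp H N hNi
  have hi : Inv (rs H N hNi) (D.subgroupOf N) := FRS.inv_subgroupOf H N hNi hD
  have hsub : Dl p r k (qt Hb (D.subgroupOf N) hi) ⊆ Dl p r k a :=
    (dl_qt h Hb (D.subgroupOf N) hi).trans (dl_rs h H N hNi)
  have hnot : q ∉ Dl p r k (qt Hb (D.subgroupOf N) hi) := by
    apply dl_qt_not h Hb (D.subgroupOf N) hi
    intro x hx
    rw [Subgroup.mem_subgroupOf]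
    exact hqD _ ((FRS.rs_eig H N hNi).1 hx)
  have hcard : (Dl p r k (qt Hb (D.subgroupOf N) hi)).card < m := by
    refine lt_of_lt_of_le (Finset.card_lt_card ?_) hm
    refine (Finset.ssubset_iff_of_subset hsub).2 ⟨q, hq, hnot⟩
  have hQ := IH _ (qt Hb (D.subgroupOf N) hi) (FRS.qt_hyp Hb (D.subgroupOf N) hi) hcard
  apply FRS.lf_coe.1
  refine FRB.lf_ext (D.subgroupOf N) (fgn_sub hl) fun s => ?_
  exact hQ s (fun x _ => Subgroup.mem_top x)

theorem lf_step (h : Root p r k) (hb : p * (p - 1) < 2 * r) {m : ℕ}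
    (IH : ∀ (Y : Type u) [Group Y] (b : MulAut Y), Hyp p r b → (Dl p r k b).card < m → LF (⊤ : Subgroup Y))
    (H : Hyp p r a) (hm : (Dl p r k a).card ≤ m) : LF (⊤ : Subgroup X) := by
  by_cases he : Dl p r k a = ∅
  · have hsb : Subsingleton X := ⟨fun x y => by rw [dl_empty h H he x, dl_empty h H he y]⟩
    intro s _
    exact Set.toFinite _
  obtain ⟨q, hq⟩ := Finset.nonempty_iff_ne_empty.2 he
  have hT := fgn_inv (q := q) (FRS.eig_one r k a 0)
  have hTl := pair_lf h hb IH H hm hq (FRS.eig_one r k a 0)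
  obtain ⟨M, hTM, hMi, hMl, hMm⟩ := exists_max hT hTl
  have hD0 : {x : X | Eig r k a q x} ⊆ M := fun x hx =>
    hTM (Subgroup.subset_closure (Or.inl hx))
  have huniq := max_uniq (fun D hD => inv_nrm H hD) (fun T hT hl => ⟨_, nil_lf h H hb hT hl⟩) hMi hMl hMm
    {x : X | Eig r k a q x} hD0 (fun D hD hl hsub => nrm_q h IH H hm hq hD hl fun x hx => hsub hx)
  have hmem : ∀ (j : ℕ) (y : X), Eig r k a j y → y ∈ M := by
    intro j y hy
    have h1 := huniq _ (fgn_inv (q := q) hy) (pair_lf h hb IH H hm hq hy)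
      (fun x hx => Subgroup.subset_closure (Or.inl hx))
    exact h1 (Subgroup.subset_closure (Or.inr rfl))
  have htop : M = ⊤ := by
    rw [eq_top_iff]
    intro x _
    have h1 := FRS.gen h H (S := (⊤ : Subgroup X)) (fun x _ => Subgroup.mem_top _) (Subgroup.mem_top x)
    refine (Subgroup.closure_le M).2 ?_ h1
    rintro e ⟨_, i, _, _, hei⟩
    exact hmem i e hei
  rw [← htop]
  exact hMl

theorem lf_all (h : Root p r k) (hb : p * (p - 1) < 2 * r) (H : Hyp p r a) : LF (⊤ : Subgroup X) := by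
  have key : ∀ m : ℕ, ∀ (Y : Type u) [Group Y] (b : MulAut Y), Hyp p r b → (Dl p r k b).card ≤ m →
      LF (⊤ : Subgroup Y) := by
    intro m
    induction m using Nat.strong_induction_on with
    | _ m ih =>
      intro Y _ b Hb hm
      refine lf_step h hb (m := m) ?_ Hb hm
      intro Z _ c Hc' hlt
      exact ih _ hlt Z c Hc' le_rfl
  exact key _ X a H le_rfl

end Pool.Agent.FRK
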