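import Pool.Agent.FRK.GO
import Pool.Agent.FRC.FiveB

/-! # FRK/GP: primary components and the final statement for a general prime `p` -/

set_option autoImplicit false

namespace Pool.Agent.FRK

open Pool.Agent.FRB Pool.Agent.FRC

universe u

/-- The closure in a subgroup is finite if the closure of the image is. -/
private theorem fin_of_image {G : Type u} [Group G] (S : Subgroup G) (T : Set S)
    (h : ((Subgroup.closure ((fun x : S => (x : G)) '' T) : Subgroup G) : Set G).Finite) :
    ((Subgroup.closure T : Subgroup S) : Set S).Finite := by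
  have e : (Subgroup.closure T).map S.subtype =
      Subgroup.closure ((fun x : S => (x : G)) '' T) := MonoidHom.map_closure S.subtype T
  rw [← e, Subgroup.coe_map] at h
  exact h.of_finite_image (Set.injOn_of_injective S.subtype_injective)

private theorem fin_image {G : Type u} [Group G] (S : Subgroup G) (T : Set S)
    (h : ((Subgroup.closure T : Subgroup S) : Set S).Finite) :
    ((Subgroup.closure ((fun x : S => (x : G)) '' T) : Subgroup G) : Set G).Finite := by
  have e : (Subgroup.closure T).map S.subtype =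
      Subgroup.closure ((fun x : S => (x : G)) '' T) := MonoidHom.map_closure S.subtype T
  rw [← e, Subgroup.coe_map]
  exact h.image _

theorem lf_r {G : Type u} [Group G] {F : Subgroup G} {a : G} {p : ℕ} (h5 : 5 ≤ p)
    (H : FRC.HG p F a) {r : ℕ} (hr : r.Prime) (hrp : r % p = 1) (hb : p * (p - 1) < 2 * r) :
    FRB.LF (Subgroup.closure {x : G | x ∈ F ∧ FRC.PE r x}) := by
  classical
  rw [Prim_closure H hr]
  set Fr : Subgroup G := Prim H hr with hFr
  have hFrn : Fr.Normal := Prim_normal H hr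
  have hFrF : Fr ≤ F := fun x hx => hx.1
  set G' : Subgroup G := Fr ⊔ Subgroup.zpowers a with hG'
  have haG : a ∈ G' := (le_sup_right : Subgroup.zpowers a ≤ G') (Subgroup.mem_zpowers a)
  have hFG : Fr ≤ G' := le_sup_left
  have ha1 : a ≠ 1 := fun h => H.nmem (h ▸ F.one_mem)
  have hap : orderOf a = p := by
    have : Fact (Nat.Prime p) := ⟨H.prime⟩
    exact orderOf_eq_prime H.pow ha1
  have hmain := main_r H.prime h5 (G := G') (Fr.subgroupOf G') ⟨a, haG⟩ (hFrn.subgroupOf G')
    (by rw [Subgroup.orderOf_mk, hap])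
    (by
      rintro ⟨g, hg⟩
      obtain ⟨y, hy, z, hz, rfl⟩ := Subgroup.mem_sup_of_normal_left.1 hg
      obtain ⟨k, rfl⟩ := (isOfFinOrder_iff_pow_eq_one.2 ⟨p, H.prime.pos, H.pow⟩).mem_zpowers_iff_mem_range_orderOf.1
        hz |> fun h => (Finset.mem_image.1 h).imp fun k hk => hk.2
      exact ⟨⟨y, hFG hy⟩, hy, k, rfl⟩)
    (by
      rintro ⟨f, hf⟩ hf' h
      have h1 := H.fpf f (hFrF hf') (congrArg Subtype.val h)
      exact Subtype.ext h1)
    (by
      intro x y
      apply fin_of_image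
      rw [Set.image_pair]
      exact H.fin _ _)
    r hr hrp hb
    (by
      rintro ⟨f, hf⟩ hf'
      obtain ⟨n, hn⟩ := (show f ∈ F ∧ PE r f from hf').2
      exact ⟨n, Subtype.ext hn⟩)
  intro s hs
  have h1 := hmain (s.subtype (· ∈ G'))
  have h2 := fin_image G' _ h1
  have h3 : (fun x : G' => (x : G)) '' ((s.subtype (· ∈ G') : Finset G') : Set G') = (s : Set G) := by
    ext x
    constructor
    · rintro ⟨y, hy, rfl⟩
      simpa using hy
    · intro hx
      exact ⟨⟨x, hFG (hs hx)⟩, by simpa using hx, rfl⟩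
  rwa [h3] at h2

theorem glue_r {p : ℕ} (hp : p.Prime) (h5 : 5 ≤ p) (G : Type u) [Group G] (F : Subgroup G) (a : G)
    (hFn : F.Normal) (ha : orderOf a = p) (hgen : ∀ g : G, ∃ f ∈ F, ∃ k : ℕ, g = f * a ^ k)
    (hfpf : ∀ f ∈ F, a * f * a⁻¹ = f → f = 1)
    (hbin : ∀ x y : G, ((Subgroup.closure ({x, y} : Set G) : Subgroup G) : Set G).Finite)
    (hsol' : (∀ x y : G, Group.IsSolvable (Subgroup.closure ({x, y} : Set G))) ∨
        ∃ r : ℕ, r.Prime ∧ ∀ f ∈ F, ∃ n : ℕ, orderOf f = r ^ n) :
      (∀ s : Finset G, (∀ x ∈ s, x ∈ F ∧ ∀ r : ℕ, r.Prime → r ∣ orderOf x → r % p = 1 ∧ p * (p - 1) < 2 * r) →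
        ((Subgroup.closure (s : Set G) : Subgroup G) : Set G).Finite) ∧
      ((∀ r : ℕ, r.Prime → ¬ (r % p = 1 ∧ p * (p - 1) < 2 * r) → ∀ s : Finset G, (∀ x ∈ s, x ∈ F ∧ ∃ n : ℕ, orderOf x = r ^ n) →
          ((Subgroup.closure (s : Set G) : Subgroup G) : Set G).Finite) →
        ∀ s : Finset G, ((Subgroup.closure (s : Set G) : Subgroup G) : Set G).Finite) := by
  have hsol : ∀ x y : G, Group.IsSolvable (Subgroup.closure ({x, y} : Set G)) := by
    rcases hsol' with h | ⟨r, hr, h⟩
    · exact h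
    · refine sol_of_pgroup (r := r) hr hFn hgen hbin fun f hf => ?_
      obtain ⟨n, hn⟩ := h f hf
      exact ⟨n, by rw [← hn]; exact pow_orderOf_eq_one f⟩
  have H : HG p F a := hg_mk hp hFn ha hgen hfpf hbin hsol
  refine ⟨fun s hs => ?_, fun h => ?_⟩
  · exact lf_of_primes H (fun r => r % p = 1 ∧ p * (p - 1) < 2 * r) (fun r hr hrp => lf_r h5 H hr hrp.1 hrp.2) s
      (fun x hx => Subgroup.subset_closure (hs x hx))
  · refine lf_top_of_kernel H (lf_of_primary H fun r hr => ?_)
    by_cases hrp : r % p = 1 ∧ p * (p - 1) < 2 * r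
    · exact lf_r h5 H hr hrp.1 hrp.2
    · intro s hs
      refine h r hr hrp s fun x hx => ?_
      have h1 : x ∈ Prim H hr := by
        rw [← Prim_closure H hr]
        exact hs hx
      exact ⟨h1.1, (pe_iff hr).1 h1.2⟩

end Pool.Agent.FRK
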