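import Pool.Agent.FRS.FD
import Pool.Agent.FRC.FiveB

/-! # FRK/GlueK: from groups with `Hyp p r a` to groups `F⟨a⟩`, with the theorem on `Hyp p r a` as a hypothesis

Port of `FRS/MainP` and `FRS/GlueP`: `LFAt p r` says that every group with `Hyp p r a` is locally finite.
-/

set_option autoImplicit false

namespace Pool.Agent.FRK

open Pool.Agent.FRB Pool.Agent.FRC Pool.Agent.FRS

universe u

/-- every group with `Hyp p r a` is locally finite -/
def LFAt (p r : ℕ) : Prop :=
  ∀ (k : ℕ) (X : Type u) [Group X] (a : MulAut X), Root p r k → FRS.Hyp p r a → FRB.LF (⊤ : Subgroup X)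

private theorem fin_of_imageM {G : Type u} [Group G] (F : Subgroup G) (S : Set F)
    (h : ((Subgroup.closure ((fun x : F => (x : G)) '' S) : Subgroup G) : Set G).Finite) :
    ((Subgroup.closure S : Subgroup F) : Set F).Finite := by
  have e : (Subgroup.closure S).map F.subtype =
      Subgroup.closure ((fun x : F => (x : G)) '' S) := MonoidHom.map_closure F.subtype S
  rw [← e, Subgroup.coe_map] at h
  exact h.of_finite_image (Set.injOn_of_injective F.subtype_injective)

private theorem fin_image' {G : Type u} [Group G] (F : Subgroup G) (S : Set F)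
    (h : ((Subgroup.closure S : Subgroup F) : Set F).Finite) :
    ((Subgroup.closure ((fun x : F => (x : G)) '' S) : Subgroup G) : Set G).Finite := by
  have e : (Subgroup.closure S).map F.subtype =
      Subgroup.closure ((fun x : F => (x : G)) '' S) := MonoidHom.map_closure F.subtype S
  rw [← e, Subgroup.coe_map]
  exact h.image _

theorem main_k {p : ℕ} (hp : p.Prime) (h5 : 5 ≤ p) {G : Type u} [Group G] (F : Subgroup G) (a : G)
    (hFn : F.Normal) (ha : orderOf a = p)
    (hgen : ∀ g : G, ∃ f ∈ F, ∃ k : ℕ, g = f * a ^ k) (hfpf : ∀ f ∈ F, a * f * a⁻¹ = f → f = 1)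
    (hbin : ∀ x y : G, ((Subgroup.closure ({x, y} : Set G) : Subgroup G) : Set G).Finite)
    (r : ℕ) (hr : r.Prime) (hrp : r % p = 1) (hL : LFAt.{u} p r) (hF : ∀ f ∈ F, ∃ n : ℕ, f ^ (r ^ n) = 1) :
    ∀ s : Finset G, ((Subgroup.closure (s : Set G) : Subgroup G) : Set G).Finite := by
  have hap1 : a ^ p = 1 := by rw [← ha, pow_orderOf_eq_one]
  obtain ⟨a', ha'⟩ : ∃ a' : MulAut F, a' = MulAut.conjNormal a := ⟨_, rfl⟩
  have hap : ∀ x : F, ((a' x : F) : G) = a * x * a⁻¹ := by
    intro x
    rw [ha']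
    exact MulAut.conjNormal_apply a x
  have hpp : a' ^ p = 1 := by rw [ha', ← map_pow, hap1, map_one]
  have hmem : ∀ x : F, ∀ T : Subgroup G, a ∈ T → ((x : F) : G) ∈ T →
      ∀ n : ℕ, (((a' ^ n) x : F) : G) ∈ T := by
    intro x T hT hx n
    induction n with
    | zero => rwa [pow_zero, MulAut.one_apply]
    | succ n ih =>
      rw [pow_succ', MulAut.mul_apply, hap]
      exact T.mul_mem (T.mul_mem hT ih) (T.inv_mem hT)
  have H : FRS.Hyp p r a' := by
    refine ⟨hp.pos, ?_, hpp, ?_, ?_, ?_⟩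
    · intro x
      obtain ⟨n, hn⟩ := hF x x.2
      exact ⟨n, Subtype.ext (by simpa using hn)⟩
    · intro x hx
      have h1 : a * (x : G) * a⁻¹ = x := by rw [← hap, hx]
      exact Subtype.ext (hfpf x x.2 h1)
    · intro x y
      apply fin_of_imageM
      have h1 : (fun z : F => (z : G)) '' {x, y} = {(x : G), (y : G)} := Set.image_pair _ _ _
      rw [h1]
      exact hbin x y
    · intro x
      apply fin_of_imageM
      refine (hbin (x : G) a).subset ?_
      have hxT : (x : G) ∈ Subgroup.closure ({(x : G), a} : Set G) :=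
        Subgroup.subset_closure (Or.inl rfl)
      have haT : a ∈ Subgroup.closure ({(x : G), a} : Set G) :=
        Subgroup.subset_closure (Or.inr rfl)
      have h5 : Subgroup.closure ((fun z : F => (z : G)) '' (Set.range fun n : ℕ => (a' ^ n) x)) ≤
          Subgroup.closure ({(x : G), a} : Set G) := by
        rw [Subgroup.closure_le]
        rintro z ⟨w, ⟨n, rfl⟩, rfl⟩
        exact hmem x _ haT hxT n
      exact h5
  obtain ⟨k, hk⟩ := exists_root hp h5 hr hrp
  have hLF := hL k F a' hk H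
  have hN : LF F := by
    intro s hs
    classical
    obtain ⟨t, ht⟩ : ∃ t : Finset F, t = s.attach.image
      fun z : {x // x ∈ s} => (⟨z.1, hs (Finset.mem_coe.2 z.2)⟩ : F) := ⟨_, rfl⟩
    have e : (fun z : F => (z : G)) '' (t : Set F) = (s : Set G) := by
      ext z
      constructor
      · rintro ⟨w, hw, rfl⟩
        rw [ht] at hw
        obtain ⟨v, _, rfl⟩ := Finset.mem_image.1 (Finset.mem_coe.1 hw)
        exact v.2
      · intro hz
        refine ⟨⟨z, hs hz⟩, ?_, rfl⟩
        rw [ht]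
        exact Finset.mem_coe.2 (Finset.mem_image.2
          ⟨⟨z, Finset.mem_coe.1 hz⟩, Finset.mem_attach _ _, rfl⟩)
    rw [← e]
    apply fin_image'
    exact hLF t (fun _ _ => Subgroup.mem_top _)
  have hfin : (Set.univ : Set (G ⧸ F)).Finite := by
    refine ((Finset.range p).finite_toSet.image fun i => ((a ^ i : G) : G ⧸ F)).subset ?_
    intro q _
    obtain ⟨g, rfl⟩ := QuotientGroup.mk_surjective q
    obtain ⟨f, hf, i, rfl⟩ := hgen g
    refine ⟨i % p, Finset.mem_coe.2 (Finset.mem_range.2 (Nat.mod_lt _ hp.pos)), ?_⟩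
    have h1 : a ^ (i % p) = a ^ i := by
      rw [← ha, pow_mod_orderOf]
    have h2 : ((f : G) : G ⧸ F) = 1 := (QuotientGroup.eq_one_iff f).2 hf
    change ((a ^ (i % p) : G) : G ⧸ F) = ((f * a ^ i : G) : G ⧸ F)
    rw [h1, QuotientGroup.mk_mul, h2, one_mul]
  intro s
  exact FRB.lf_ext F hN (fun t => hfin.subset (Set.subset_univ _)) s (fun _ _ => Subgroup.mem_top _)

/-- The closure in a subgroup is finite if the closure of the image is. -/
private theorem fin_of_image {G : Type u} [Group G] (S : Subgroup G) (T : Set S)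
    (h : ((Subgroup.closure ((fun x : S => (x : G)) '' T) : Subgroup G) : Set G).Finite) :
    ((Subgroup.closure T : Subgroup S) : Set S).Finite := by
  have e : (Subgroup.closure T).map S.subtype =
      Subgroup.closure ((fun x : S => (x : G)) '' T) := MonoidHom.map_closure S.subtype T
  rw [← e, Subgroup.coe_map] at h
  exact h.of_finite_image (Set.injOn_of_injective S.subtype_injective)

private theorem fin_image {G : Type u} [Group G] (S : Subgroup G) (T : Set S)
    (h : ((Subgroup.closure T : Subgroup S) : Set S).Finite) :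
    ((Subgroup.closure ((fun x : S => (x : G)) '' T) : Subgroup G) : Set G).Finite := by
  have e : (Subgroup.closure T).map S.subtype =
      Subgroup.closure ((fun x : S => (x : G)) '' T) := MonoidHom.map_closure S.subtype T
  rw [← e, Subgroup.coe_map]
  exact h.image _

theorem lf_k {G : Type u} [Group G] {F : Subgroup G} {a : G} {p : ℕ} (h5 : 5 ≤ p)
    (H : FRC.HG p F a) {r : ℕ} (hr : r.Prime) (hrp : r % p = 1) (hL : LFAt.{u} p r) :
    FRB.LF (Subgroup.closure {x : G | x ∈ F ∧ FRC.PE r x}) := by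
  classical
  rw [Prim_closure H hr]
  set Fr : Subgroup G := Prim H hr with hFr
  have hFrn : Fr.Normal := Prim_normal H hr
  have hFrF : Fr ≤ F := fun x hx => hx.1
  set G' : Subgroup G := Fr ⊔ Subgroup.zpowers a with hG'
  have haG : a ∈ G' := (le_sup_right : Subgroup.zpowers a ≤ G') (Subgroup.mem_zpowers a)
  have hFG : Fr ≤ G' := le_sup_left
  have ha1 : a ≠ 1 := fun h => H.nmem (h ▸ F.one_mem)
  have hap : orderOf a = p := by
    have : Fact (Nat.Prime p) := ⟨H.prime⟩
    exact orderOf_eq_prime H.pow ha1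
  have hmain := main_k H.prime h5 (G := G') (Fr.subgroupOf G') ⟨a, haG⟩ (hFrn.subgroupOf G')
    (by rw [Subgroup.orderOf_mk, hap])
    (by
      rintro ⟨g, hg⟩
      obtain ⟨y, hy, z, hz, rfl⟩ := Subgroup.mem_sup_of_normal_left.1 hg
      obtain ⟨k, rfl⟩ := (isOfFinOrder_iff_pow_eq_one.2 ⟨p, H.prime.pos, H.pow⟩).mem_zpowers_iff_mem_range_orderOf.1
        hz |> fun h => (Finset.mem_image.1 h).imp fun k hk => hk.2
      exact ⟨⟨y, hFG hy⟩, hy, k, rfl⟩)
    (by
      rintro ⟨f, hf⟩ hf' h
      have h1 := H.fpf f (hFrF hf') (congrArg Subtype.val h)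
      exact Subtype.ext h1)
    (by
      intro x y
      apply fin_of_image
      rw [Set.image_pair]
      exact H.fin _ _)
    r hr hrp hL
    (by
      rintro ⟨f, hf⟩ hf'
      obtain ⟨n, hn⟩ := (show f ∈ F ∧ PE r f from hf').2
      exact ⟨n, Subtype.ext hn⟩)
  intro s hs
  have h1 := hmain (s.subtype (· ∈ G'))
  have h2 := fin_image G' _ h1
  have h3 : (fun x : G' => (x : G)) '' ((s.subtype (· ∈ G') : Finset G') : Set G') = (s : Set G) := by
    ext x
    constructor
    · rintro ⟨y, hy, rfl⟩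
      simpa using hy
    · intro hx
      exact ⟨⟨x, hFG (hs hx)⟩, by simpa using hx, rfl⟩
  rwa [h3] at h2

theorem glue_k {p : ℕ} (hp : p.Prime) (h5 : 5 ≤ p) (C : ℕ → Prop)
    (hC : ∀ r : ℕ, r.Prime → C r → r % p = 1 ∧ LFAt.{u} p r) (G : Type u) [Group G] (F : Subgroup G) (a : G)
    (hFn : F.Normal) (ha : orderOf a = p) (hgen : ∀ g : G, ∃ f ∈ F, ∃ k : ℕ, g = f * a ^ k)
    (hfpf : ∀ f ∈ F, a * f * a⁻¹ = f → f = 1)
    (hbin : ∀ x y : G, ((Subgroup.closure ({x, y} : Set G) : Subgroup G) : Set G).Finite)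
    (hsol' : (∀ x y : G, Group.IsSolvable (Subgroup.closure ({x, y} : Set G))) ∨
        ∃ r : ℕ, r.Prime ∧ ∀ f ∈ F, ∃ n : ℕ, orderOf f = r ^ n) :
      (∀ s : Finset G, (∀ x ∈ s, x ∈ F ∧ ∀ r : ℕ, r.Prime → r ∣ orderOf x → C r) →
        ((Subgroup.closure (s : Set G) : Subgroup G) : Set G).Finite) ∧
      ((∀ r : ℕ, r.Prime → ¬ C r → ∀ s : Finset G, (∀ x ∈ s, x ∈ F ∧ ∃ n : ℕ, orderOf x = r ^ n) →
          ((Subgroup.closure (s : Set G) : Subgroup G) : Set G).Finite) →
        ∀ s : Finset G, ((Subgroup.closure (s : Set G) : Subgroup G) : Set G).Finite) := by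
  have hsol : ∀ x y : G, Group.IsSolvable (Subgroup.closure ({x, y} : Set G)) := by
    rcases hsol' with h | ⟨r, hr, h⟩
    · exact h
    · refine sol_of_pgroup (r := r) hr hFn hgen hbin fun f hf => ?_
      obtain ⟨n, hn⟩ := h f hf
      exact ⟨n, by rw [← hn]; exact pow_orderOf_eq_one f⟩
  have H : HG p F a := hg_mk hp hFn ha hgen hfpf hbin hsol
  refine ⟨fun s hs => ?_, fun h => ?_⟩
  · exact lf_of_primes H C (fun r hr hrp => lf_k h5 H hr (hC r hr hrp).1 (hC r hr hrp).2) s
      (fun x hx => Subgroup.subset_closure (hs x hx))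
  · refine lf_top_of_kernel H (lf_of_primary H fun r hr => ?_)
    by_cases hrp : C r
    · exact lf_k h5 H hr (hC r hr hrp).1 (hC r hr hrp).2
    · intro s hs
      refine h r hr hrp s fun x hx => ?_
      have h1 : x ∈ Prim H hr := by
        rw [← Prim_closure H hr]
        exact hs hx
      exact ⟨h1.1, (pe_iff hr).1 h1.2⟩

end Pool.Agent.FRK
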