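import Pool.Agent.FRK.KDefs

/-!
# FRK/KA: the derived family

Plan: `Dr L k` is generated by the commutators `[x, y]`, `x ∈ L i`, `y ∈ L j`, `i + j = k` (`AddSubgroup.closure_induction`,
`AddSubgroup.closure_le`, `AddSubgroup.closure_mono`).  `cl_dr`: for `x ∈ Dr L i`, `y ∈ Dr L j` we have `x ∈ L i`,
`y ∈ L j` (`dr_le`), so `[x,y]` is a generator of `Dr L (i + j)` ... of `Dr (L)`; precisely: `Cl (Dr L)` asks for
`x * y - y * x ∈ Dr L (i + j)`, and this is a generator of `Dr L (i + j)` because `x ∈ L i`, `y ∈ L j`.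
-/

set_option autoImplicit false

namespace Pool.Agent.FRK

variable {p : ℕ} {R : Type*} [Ring R]

theorem dr_mem {L : ZMod p → AddSubgroup R} {i j : ZMod p} {x y : R} (hx : x ∈ L i) (hy : y ∈ L j) :
    x * y - y * x ∈ Dr L (i + j) := by
  exact AddSubgroup.subset_closure ⟨i, j, x, y, rfl, hx, hy, rfl⟩

theorem dr_le {L : ZMod p → AddSubgroup R} (hL : Cl L) (k : ZMod p) : Dr L k ≤ L k := by
  refine (AddSubgroup.closure_le _).mpr ?_
  rintro z ⟨i, j, x, y, hij, hx, hy, rfl⟩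
  rw [← hij]
  exact hL i j x y hx hy

theorem dr_mono {L M : ZMod p → AddSubgroup R} (h : ∀ k, L k ≤ M k) (k : ZMod p) : Dr L k ≤ Dr M k := by
  refine AddSubgroup.closure_mono ?_
  rintro z ⟨i, j, x, y, hij, hx, hy, rfl⟩
  exact ⟨i, j, x, y, hij, h i hx, h j hy, rfl⟩

theorem cl_dr {L : ZMod p → AddSubgroup R} (hL : Cl L) : Cl (Dr L) := by
  intro i j x y hx hy
  exact dr_mem (dr_le hL i hx) (dr_le hL j hy)

theorem it_cl {L : ZMod p → AddSubgroup R} (hL : Cl L) (s : ℕ) : Cl ((Dr^[s]) L) := by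
  induction s with
  | zero => exact hL
  | succ s ih =>
    rw [Function.iterate_succ_apply']
    exact cl_dr ih

theorem it_le {L : ZMod p → AddSubgroup R} (hL : Cl L) (s : ℕ) (k : ZMod p) : ((Dr^[s]) L) k ≤ L k := by
  induction s with
  | zero => exact le_refl _
  | succ s ih =>
    rw [Function.iterate_succ_apply']
    exact (dr_le (it_cl hL s) k).trans ih

theorem it_zero {L : ZMod p → AddSubgroup R} (hL : Cl L) (h0 : L 0 = ⊥) (s : ℕ) : ((Dr^[s]) L) 0 = ⊥ := by
  have h := it_le hL s 0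
  rw [h0] at h
  exact le_bot_iff.mp h

end Pool.Agent.FRK
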