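import Pool.Agent.FRK.KDefs

/-!
# FRK/KB: commutators `[w, z]` with `z` in the Lie ring generated by the `L j`, `J j`

Induction on `z` for all `w`, `v`; the Jacobi identity for commutators `z = [x, y]`.
-/

set_option autoImplicit false

namespace Pool.Agent.FRK

variable {p : ℕ} {R : Type*} [Ring R]

private theorem ln_trans {L : ZMod p → AddSubgroup R} {J : ZMod p → Prop} {w t : R} {v a b : ZMod p} {z : R}
    (h : Ln L J w v a t) (hz : Ln L J t a b z) : Ln L J w v b z := by
  induction hz with
  | start => exact h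
  | step _ hJ hx ih => exact Ln.step ih hJ hx

private theorem lst_sub {L : ZMod p → AddSubgroup R} {J : ZMod p → Prop} {w t : R} {v a b : ZMod p}
    (h : Ln L J w v a t) : Lst L J t a b ⊆ Lst L J w v b := by
  rintro y ⟨i, j, z, x, hz, hJ, hx, hij, rfl⟩
  exact ⟨i, j, z, x, ln_trans h hz, hJ, hx, hij, rfl⟩

private theorem cl_br {L : ZMod p → AddSubgroup R} {J : ZMod p → Prop} {j : ZMod p} {y : R}
    (hy : ∀ (w : R) (v : ZMod p), w * y - y * w ∈ AddSubgroup.closure (Lst L J w v (v + j))) {w : R} {v a : ZMod p} {s : R}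
    (hs : s ∈ AddSubgroup.closure (Lst L J w v a)) : s * y - y * s ∈ AddSubgroup.closure (Lst L J w v (a + j)) := by
  induction hs using AddSubgroup.closure_induction with
  | mem s hs =>
    obtain ⟨i, k, z, x, hz, hJ, hx, rfl, rfl⟩ := hs
    have h : Ln L J w v (i + k) (z * x - x * z) := Ln.step hz hJ hx
    exact AddSubgroup.closure_mono (lst_sub h) (hy _ (i + k))
  | zero => simpa using AddSubgroup.zero_mem _
  | add x z _ _ h1 h2 =>
    have h3 : (x + z) * y - y * (x + z) = (x * y - y * x) + (z * y - y * z) := by noncomm_ring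
    rw [h3]
    exact AddSubgroup.add_mem _ h1 h2
  | neg x _ h1 =>
    have h3 : -x * y - y * -x = -(x * y - y * x) := by noncomm_ring
    rw [h3]
    exact AddSubgroup.neg_mem _ h1

theorem gn_br {L : ZMod p → AddSubgroup R} {J : ZMod p → Prop} {u : ZMod p} {z : R} (hz : Gn L J u z) :
    ∀ (w : R) (v : ZMod p), w * z - z * w ∈ AddSubgroup.closure (Lst L J w v (v + u)) := by
  induction hz with
  | base hJ hx =>
    intro w v
    exact AddSubgroup.subset_closure ⟨v, _, w, _, Ln.start, hJ, hx, rfl, rfl⟩
  | zero i =>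
    intro w v
    simpa using AddSubgroup.zero_mem _
  | @add i x y _ _ h1 h2 =>
    intro w v
    have h3 : w * (x + y) - (x + y) * w = (w * x - x * w) + (w * y - y * w) := by noncomm_ring
    rw [h3]
    exact AddSubgroup.add_mem _ (h1 w v) (h2 w v)
  | @neg i x _ h1 =>
    intro w v
    have h3 : w * -x - -x * w = -(w * x - x * w) := by noncomm_ring
    rw [h3]
    exact AddSubgroup.neg_mem _ (h1 w v)
  | @br i j x y _ _ h1 h2 =>
    intro w v
    have h3 : w * (x * y - y * x) - (x * y - y * x) * w =
        ((w * x - x * w) * y - y * (w * x - x * w)) - ((w * y - y * w) * x - x * (w * y - y * w)) := by noncomm_ring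
    rw [h3]
    have h4 := cl_br h2 (h1 w v)
    have h5 := cl_br h1 (h2 w v)
    rw [add_assoc] at h4 h5
    rw [add_comm j i] at h5
    exact AddSubgroup.sub_mem _ h4 h5

/-- members of `Ln` are homogeneous if `w` is -/
theorem ln_mem {L : ZMod p → AddSubgroup R} (hL : Cl L) {J : ZMod p → Prop} {w : R} {v i : ZMod p} {z : R}
    (hw : w ∈ L v) (hz : Ln L J w v i z) : z ∈ L i := by
  induction hz with
  | start => exact hw
  | step _ _ hx ih => exact hL _ _ _ _ ih hx

end Pool.Agent.FRK
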