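import Pool.Agent.FRK.KA
import Pool.Agent.FRK.KB

/-!
# FRK/KC: one step of Kreknin's theorem

`M` is a family with `M i ≤ L i`, all elements of `M i` lie in the Lie ring generated by the `L j`, `k < j.val`;
`κ = k + 1 < p` as an element of `ZMod p`, i.e. `κ.val = k + 1`.
Plan: `x ∈ Dr M κ`; `Gn` is closed under sums, so let `x = [m, w]`, `m ∈ M u`, `w ∈ M v`, `u + v = κ`.  `[m, w] = -[w, m]` and by
`gn_br` (with `z = m`, `w`, `v`) `[w, m]` is in the closure of `Lst L (k < val) w v (v + u)`.  Let `y = [z, x']` be a member of this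
set: `z ∈ L i` (`ln_mem`, `w ∈ M v ≤ L v`), `x' ∈ L j`, `k < j.val`, `i + j = κ`.  If `j.val = k + 1` then `j = κ`
(`ZMod.val_injective`), `i = 0`, `z ∈ L 0 = ⊥`, `y = 0`.  Otherwise `k + 1 < j.val`, and `i = κ - j` has
`i.val = p + (k + 1) - j.val > k + 1` (because `j.val < p`; e.g. from `i + j = κ` and `ZMod.val_add`: `(i.val + j.val) % p = k + 1`
and `j.val > k + 1` imply `i.val + j.val = p + k + 1`), so `Gn.br (Gn.base ..) (Gn.base ..)` (degree `i + j = κ`).
-/

set_option autoImplicit false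

namespace Pool.Agent.FRK

variable {p : ℕ} {R : Type*} [Ring R]

theorem gn_closure {L : ZMod p → AddSubgroup R} {J : ZMod p → Prop} {i : ZMod p} {s : Set R}
    (hs : ∀ x ∈ s, Gn L J i x) {x : R} (hx : x ∈ AddSubgroup.closure s) : Gn L J i x := by
  induction hx using AddSubgroup.closure_induction with
  | mem x hx => exact hs x hx
  | zero => exact Gn.zero i
  | add x y _ _ hx hy => exact Gn.add hx hy
  | neg x _ hx => exact Gn.neg hx

/-- `Gn` for a smaller family and a smaller set of degrees -/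
theorem gn_sub {L M : ZMod p → AddSubgroup R} {J K : ZMod p → Prop} (h : ∀ i x, J i → x ∈ M i → Gn L K i x)
    {i : ZMod p} {x : R} (hx : Gn M J i x) : Gn L K i x := by
  induction hx with
  | base hJ hx => exact h _ _ hJ hx
  | zero i => exact Gn.zero i
  | add _ _ hx hy => exact Gn.add hx hy
  | neg _ hx => exact Gn.neg hx
  | br _ _ hx hy => exact Gn.br hx hy

theorem gn_step [NeZero p] {L M : ZMod p → AddSubgroup R} (hL : Cl L) (h0 : L 0 = ⊥) (hML : ∀ i, M i ≤ L i) {k : ℕ}
    (hM : ∀ i, ∀ x ∈ M i, Gn L (fun j => k < j.val) i x) {κ : ZMod p} (hκ : κ.val = k + 1) {x : R} (hx : x ∈ Dr M κ) :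
    Gn L (fun j => k + 1 < j.val) κ x := by
  refine gn_closure ?_ hx
  rintro y ⟨u, v, m, w, huv, hm, hw, rfl⟩
  have h1 : m * w - w * m = -(w * m - m * w) := by abel
  rw [h1]
  refine Gn.neg ?_
  have h2 := gn_br (hM u m hm) w v
  have hvu : v + u = κ := by rw [add_comm]; exact huv
  refine gn_closure ?_ h2
  rintro y ⟨i, j, z, x', hz, hj, hx', hij, rfl⟩
  have hij' : i + j = κ := hij.trans hvu
  have hzi : z ∈ L i := ln_mem hL (hML v hw) hz
  rcases Nat.lt_or_ge (k + 1) j.val with h3 | h3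
  · have h4 : (i.val + j.val) % p = k + 1 := by
      rw [← ZMod.val_add, hij', hκ]
    have h5 := ZMod.val_lt i
    have h6 := ZMod.val_lt j
    have h7 : k + 1 < i.val := by
      rcases Nat.lt_or_ge (i.val + j.val) p with h8 | h8
      · rw [Nat.mod_eq_of_lt h8] at h4
        omega
      · rw [Nat.mod_eq_sub_mod h8, Nat.mod_eq_of_lt (by omega)] at h4
        omega
    have h8 : Gn L (fun j => k + 1 < j.val) (i + j) (z * x' - x' * z) :=
      Gn.br (Gn.base (J := fun j : ZMod p => k + 1 < j.val) h7 hzi) (Gn.base (J := fun j : ZMod p => k + 1 < j.val) h3 hx')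
    rwa [hij'] at h8
  · have h4 : j = κ := ZMod.val_injective p (by rw [hκ]; omega)
    have h5 : i = 0 := by
      rw [h4] at hij'
      exact add_eq_right.1 hij'
    rw [h5, h0, AddSubgroup.mem_bot] at hzi
    rw [hzi, zero_mul, mul_zero, sub_zero]
    exact Gn.zero κ

end Pool.Agent.FRK
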