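import Pool.Agent.FRK.KC

/-!
# FRK/KD: Kreknin's theorem

Induction on `k`: the members of the `2^k - 1`-th derived family lie in the Lie ring generated by the `L j` with `k < j.val`;
for `k = p - 1` there are no such `j`.
-/

set_option autoImplicit false

namespace Pool.Agent.FRK

variable {p : ℕ} {R : Type*} [Ring R]

theorem kr_gn [NeZero p] (k : ℕ) (hk : k < p) : ∀ (L : ZMod p → AddSubgroup R), Cl L → L 0 = ⊥ →
    ∀ i, ∀ x ∈ ((Dr^[2 ^ k - 1]) L) i, Gn L (fun j => k < j.val) i x := by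
  induction k with
  | zero =>
    intro L _ h0 i x hx
    have hx1 : x ∈ L i := hx
    rcases Nat.eq_zero_or_pos i.val with h | h
    · have hi : i = 0 := (ZMod.val_eq_zero i).1 h
      subst hi
      rw [h0, AddSubgroup.mem_bot] at hx1
      rw [hx1]
      exact Gn.zero _
    · exact Gn.base h hx1
  | succ k ih =>
    intro L hL h0 i x hx
    have ih1 := ih (by omega)
    have hpow : 2 ^ (k + 1) - 1 = (2 ^ k - 1) + (1 + (2 ^ k - 1)) := by
      have h1 : 1 ≤ 2 ^ k := Nat.one_le_two_pow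
      rw [pow_succ]
      omega
    rw [hpow, Function.iterate_add_apply, Function.iterate_add_apply] at hx
    have hN : (Dr^[1]) ((Dr^[2 ^ k - 1]) L) = Dr ((Dr^[2 ^ k - 1]) L) := rfl
    rw [hN] at hx
    have hM : Cl ((Dr^[2 ^ k - 1]) L) := it_cl hL _
    have hML : ∀ i, ((Dr^[2 ^ k - 1]) L) i ≤ L i := fun i => it_le hL _ i
    have hNc : Cl (Dr ((Dr^[2 ^ k - 1]) L)) := cl_dr hM
    have hNL : ∀ i, Dr ((Dr^[2 ^ k - 1]) L) i ≤ L i := fun i => (dr_le hM i).trans (hML i)
    have hN0 : Dr ((Dr^[2 ^ k - 1]) L) 0 = ⊥ := by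
      rw [eq_bot_iff, ← h0]
      exact hNL 0
    refine gn_sub (fun j y hj hy => ?_) (ih1 _ hNc hN0 i x hx)
    rcases Nat.lt_or_ge (k + 1) j.val with h | h
    · exact Gn.base h (hNL j hy)
    · have hj1 : j.val = k + 1 := by
        have hj2 : k < j.val := hj
        omega
      exact gn_step hL h0 hML (ih1 L hL h0) hj1 hy

private theorem gn_zero {L : ZMod p → AddSubgroup R} {J : ZMod p → Prop} (hJ : ∀ j, ¬ J j) {i : ZMod p} {x : R}
    (hx : Gn L J i x) : x = 0 := by
  induction hx with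
  | base h _ => exact absurd h (hJ _)
  | zero => rfl
  | add _ _ h1 h2 => rw [h1, h2, add_zero]
  | neg _ h1 => rw [h1, neg_zero]
  | br _ _ h1 h2 => rw [h1, h2]; simp

theorem kr [NeZero p] {L : ZMod p → AddSubgroup R} (hL : Cl L) (h0 : L 0 = ⊥) (i : ZMod p) :
    ((Dr^[2 ^ (p - 1) - 1]) L) i = ⊥ := by
  have hp : 0 < p := Nat.pos_of_ne_zero (NeZero.ne p)
  rw [eq_bot_iff]
  intro x hx
  rw [AddSubgroup.mem_bot]
  refine gn_zero (J := fun j : ZMod p => p - 1 < j.val) (fun j h => ?_) (kr_gn (p - 1) (by omega) L hL h0 i x hx)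
  have h1 : j.val < p := ZMod.val_lt j
  have h2 : p - 1 < j.val := h
  omega

end Pool.Agent.FRK
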