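import Pool.Agent.FRK.KA

/-!
# FRK/ME: the chain `Vs L V m`
-/

set_option autoImplicit false

namespace Pool.Agent.FRK

variable {p : ℕ} {R : Type*} [Ring R] {A : Type*} [AddCommGroup A] [Module R A]

private lemma me_gen {L : ZMod p → AddSubgroup R} {V : ZMod p → AddSubgroup A} (m : ℕ) {i l k : ZMod p}
    {x : R} {v : A} (hk : i + l = k) (hx : x ∈ Dr L i) (hv : v ∈ Vs L V m l) :
    x • v ∈ Vs L V (m + 1) k :=
  AddSubgroup.subset_closure ⟨i, l, x, v, hk, hx, hv, rfl⟩

theorem vs_act {L : ZMod p → AddSubgroup R} {V : ZMod p → AddSubgroup A} (hL : Cl L) (hV : Act L V) (m : ℕ) :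
    Act L (Vs L V m) := by
  induction m with
  | zero => exact hV
  | succ m ih =>
    intro j k y w hy hw
    refine AddSubgroup.closure_induction (p := fun w _ => y • w ∈ Vs L V (m + 1) (j + k)) ?_ ?_ ?_ ?_ hw
    · rintro _ ⟨i, l, x, v, hil, hx, hv, rfl⟩
      have e : y • x • v = x • y • v + (y * x - x * y) • v := by
        rw [sub_smul, mul_smul, mul_smul]
        abel
      rw [e]
      refine AddSubgroup.add_mem _ (me_gen m ?_ hx (ih j l y v hy hv))
        (me_gen m ?_ (dr_mem hy (dr_le hL i hx)) hv)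
      · rw [← hil]; ring
      · rw [← hil]; ring
    · rw [smul_zero]
      exact AddSubgroup.zero_mem _
    · intro a b _ _ ha hb
      rw [smul_add]
      exact AddSubgroup.add_mem _ ha hb
    · intro a _ ha
      rw [smul_neg]
      exact AddSubgroup.neg_mem _ ha

theorem vs_le {L : ZMod p → AddSubgroup R} {V : ZMod p → AddSubgroup A} (hL : Cl L) (hV : Act L V) (m : ℕ)
    (k : ZMod p) : Vs L V (m + 1) k ≤ Vs L V m k := by
  refine (AddSubgroup.closure_le _).2 ?_
  rintro _ ⟨i, l, x, v, hil, hx, hv, rfl⟩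
  have h := vs_act hL hV m i l x v (dr_le hL i hx) hv
  rw [hil] at h
  exact h

theorem vs_le_self {L : ZMod p → AddSubgroup R} {V : ZMod p → AddSubgroup A} (hL : Cl L) (hV : Act L V) (m : ℕ)
    (k : ZMod p) : Vs L V m k ≤ V k := by
  induction m with
  | zero => exact le_rfl
  | succ m ih => exact (vs_le hL hV m k).trans ih

theorem vs_comm {L : ZMod p → AddSubgroup R} {V : ZMod p → AddSubgroup A} (m : ℕ) {i j l : ZMod p} {x y : R} {v : A}
    (hx : x ∈ L i) (hy : y ∈ L j) (hv : v ∈ Vs L V m l) : x • y • v - y • x • v ∈ Vs L V (m + 1) (i + j + l) := by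
  have e : x • y • v - y • x • v = (x * y - y * x) • v := by
    rw [sub_smul, mul_smul, mul_smul]
  rw [e]
  exact me_gen m rfl (dr_mem hx hy) hv

private lemma me_ac {L : ZMod p → AddSubgroup R} {V : ZMod p → AddSubgroup A} (M : ℕ)
    (h : ∀ l : List (ZMod p × R), l.length = M → Hm (Dr L) l → ∀ (w : ZMod p) (v : A), v ∈ V w → ac l v = 0)
    (m : ℕ) (k : ZMod p) (v : A) (hv : v ∈ Vs L V m k) (l : List (ZMod p × R)) (hl : l.length + m = M)
    (hl2 : Hm (Dr L) l) : ac l v = 0 := by
  induction m generalizing k v l with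
  | zero => exact h l hl hl2 k v hv
  | succ m ih =>
    refine AddSubgroup.closure_induction (p := fun v _ => ac l v = 0) ?_ ?_ ?_ ?_ hv
    · rintro _ ⟨i, j, x, v, _, hx, hv, rfl⟩
      have e : ac l (x • v) = ac (l ++ [(i, x)]) v := by
        unfold ac
        rw [List.map_append, List.prod_append, List.map_cons, List.map_nil, List.prod_singleton,
          mul_smul]
      rw [e]
      refine ih j v hv (l ++ [(i, x)]) ?_ ?_
      · rw [List.length_append, List.length_singleton]
        omega
      · intro t ht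
        rcases List.mem_append.1 ht with h1 | h1
        · exact hl2 t h1
        · rw [List.mem_singleton.1 h1]
          exact hx
    · unfold ac
      rw [smul_zero]
    · intro a b _ _ ha hb
      unfold ac at ha hb ⊢
      rw [smul_add, ha, hb, add_zero]
    · intro a _ ha
      unfold ac at ha ⊢
      rw [smul_neg, ha, neg_zero]

/-- `Vs L V m` is contained in the span of the products of `m` homogeneous elements of `Dr L` applied to `V`; so if
all these products vanish then `Vs L V m = ⊥` -/
theorem vs_bot {L : ZMod p → AddSubgroup R} {V : ZMod p → AddSubgroup A} (m : ℕ)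
    (h : ∀ l : List (ZMod p × R), l.length = m → Hm (Dr L) l → ∀ (w : ZMod p) (v : A), v ∈ V w → ac l v = 0)
    (k : ZMod p) : Vs L V m k = ⊥ := by
  rw [eq_bot_iff]
  intro v hv
  have h1 := me_ac m h m k v hv [] (by rw [List.length_nil, zero_add]) (fun t ht => by simp at ht)
  unfold ac at h1
  rw [List.map_nil, List.prod_nil, one_smul] at h1
  rw [h1]
  exact AddSubgroup.zero_mem _

end Pool.Agent.FRK
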