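import Mathlib

/-! # FRK: logarithms of unipotent elements (definition) -/

set_option autoImplicit false

namespace Pool.Agent.FRK

open Polynomial

/-- `n` is the logarithm of `S`: the powers `S^m` are the values of a polynomial of degree `≤ d` with constant
coefficient `1` and linear coefficient `n`. -/
def IsLog {R : Type*} [Ring R] (d : ℕ) (S n : R) : Prop :=
  ∃ P : R[X], P.natDegree ≤ d ∧ P.coeff 0 = 1 ∧ P.coeff 1 = n ∧ ∀ m : ℕ, S ^ m = P.eval (m : R)

end Pool.Agent.FRK
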