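import Pool.Agent.FRK.RDefs

/-!
# FRK/RA: the root of unity in `ZMod (r ^ n)`

Basic facts.
-/

set_option autoImplicit false

namespace Pool.Agent.FRK

open Pool.Agent.FRS (Root Hyp)

variable {p r k : ℕ}

private theorem ra_odd (h : Root p r k) : ∃ q, p = 2 * q + 1 ∧ 2 ≤ q := by
  have h5 := h.five
  rcases h.pp.eq_two_or_odd' with h1 | ⟨q, hq⟩
  · omega
  · exact ⟨q, hq, by omega⟩

theorem zt_eig (h : Root p r k) {n M : ℕ} (hn : n ≤ M) (i : ℕ) :
    ((k ^ (i * r ^ M) : ℕ) : ZMod (r ^ n)) = zt r k n ^ i := by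
  unfold zt
  rw [← Nat.cast_pow, ← pow_mul, Nat.mul_comm (r ^ n) i]
  exact (ZMod.natCast_eq_natCast_iff _ _ _).2 ((h.stable hn i).of_dvd (pow_dvd_pow r (Nat.le_succ n)))

theorem zt_pow (h : Root p r k) (n : ℕ) : zt r k n ^ p = 1 := by
  have h1 := (ZMod.natCast_eq_natCast_iff _ _ _).2 ((h.pow_lift n).of_dvd (pow_dvd_pow r (Nat.le_succ n)))
  rw [← zt_eig h le_rfl p, h1, Nat.cast_one]

theorem zt_congr (h : Root p r k) (n : ℕ) {i j : ℕ} (hij : i ≡ j [MOD p]) : zt r k n ^ i = zt r k n ^ j := by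
  rw [← zt_eig h le_rfl i, ← zt_eig h le_rfl j]
  exact (ZMod.natCast_eq_natCast_iff _ _ _).2 ((h.congr_p hij n).of_dvd (pow_dvd_pow r (Nat.le_succ n)))

theorem zt_sum (h : Root p r k) (n : ℕ) {m : ℕ} (hm : ¬ p ∣ m) : ∑ t ∈ Finset.range p, zt r k n ^ (m * t) = 0 := by
  have h1 := (ZMod.natCast_eq_natCast_iff _ _ _).2 (Pool.Agent.FRS.sum_root h n hm)
  rw [Nat.cast_sum, Nat.cast_zero] at h1
  rw [← h1]
  exact Finset.sum_congr rfl fun t _ => (zt_eig h le_rfl (m * t)).symm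

theorem unit_nat (h : Root p r k) (n : ℕ) {m : ℕ} (h0 : 0 < m) (hm : m < r) : IsUnit (m : ZMod (r ^ n)) := by
  rw [ZMod.isUnit_iff_coprime]
  refine Nat.Coprime.pow_right n ?_
  exact ((Nat.Prime.coprime_iff_not_dvd h.prime).2 fun hd => absurd (Nat.le_of_dvd h0 hd) (not_le.2 hm)).symm

/-- the degrees that occur in interpolation are smaller than `r` -/
theorem big_two (h : Root p r k) : 2 * (p - 2) < r := by
  obtain ⟨q, hq, hq2⟩ := ra_odd h
  have h1 := Nat.div_add_mod r p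
  rw [h.modp] at h1
  have h2 := h.prime.two_le
  generalize r / p = t at h1
  rcases Nat.lt_or_ge t 2 with h3 | h3
  · exfalso
    have h4 : t = 0 ∨ t = 1 := by omega
    rcases h4 with h4 | h4
    · rw [h4] at h1
      omega
    · rw [h4, Nat.mul_one] at h1
      have h5 : 2 ∣ r := ⟨q + 1, by omega⟩
      have h6 := (Nat.prime_dvd_prime_iff_eq Nat.prime_two h.prime).1 h5
      omega
  · have h4 := Nat.mul_le_mul_left p h3
    omega

theorem big_half (h : Root p r k) (hb : p * (p - 1) < 2 * r) : ((p - 1) / 2 + 1) * (p - 2) < r := by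
  obtain ⟨q, hq, hq2⟩ := ra_odd h
  obtain ⟨s, rfl⟩ : ∃ s, q = s + 2 := ⟨q - 2, by omega⟩
  subst hq
  have h1 : (2 * (s + 2) + 1 - 1) / 2 + 1 = s + 3 := by omega
  have h2 : 2 * (s + 2) + 1 - 2 = 2 * s + 3 := by omega
  have h3 : 2 * (s + 2) + 1 - 1 = 2 * s + 4 := by omega
  rw [h1, h2]
  rw [h3] at hb
  nlinarith

end Pool.Agent.FRK
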