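import Pool.Agent.FRK.RA

/-!
# FRK/RB: eigen-elements act unipotently (first part)

`rp_nil`: binomial theorem modulo `r`, and `r ^ n = 0` in `R`.  `rp_al`: `eig_at` and `zt_eig` with a common
exponent.
-/

set_option autoImplicit false

namespace Pool.Agent.FRK

open Pool.Agent.FRB (Inv Eig LF SS)
open Pool.Agent.FRS (Root Hyp)

variable {p r k n : ℕ} {X : Type*} [Group X] {a : MulAut X} {R : Type*} [Ring R] [Algebra (ZMod (r ^ n)) R]
  {ρ : X →* R} {α α' : R}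

theorem rp_nil (P : Rp p r k n a ρ α α') (x : X) : ∃ N : ℕ, (ρ x - 1) ^ N = 0 := by
  obtain ⟨M, hM⟩ := P.hyp.tors x
  have hc : Commute (1 : R) (ρ x - 1) := Commute.one_left _
  obtain ⟨w0, hw⟩ := hc.exists_add_pow_prime_pow_eq P.root.prime M
  have h1 : (1 : R) + (ρ x - 1) = ρ x := by abel
  rw [h1, ← map_pow, hM, map_one, one_pow, mul_one, mul_assoc] at hw
  set w : R := (ρ x - 1) * w0
  have h2 : (ρ x - 1) ^ r ^ M = (r : R) * (-w) := by
    have h3 : (ρ x - 1) ^ r ^ M + (r : R) * w = 0 := by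
      have h4 : (1 : R) = 1 + ((ρ x - 1) ^ r ^ M + (r : R) * w) := by
        rw [← add_assoc]
        exact hw
      exact (left_eq_add.1 h4)
    rw [mul_neg]
    exact eq_neg_of_add_eq_zero_left h3
  have hr : ((r : R)) ^ n = 0 := by
    have h5 : ((r ^ n : ℕ) : R) = algebraMap (ZMod (r ^ n)) R ((r ^ n : ℕ) : ZMod (r ^ n)) := by
      rw [map_natCast]
    rw [ZMod.natCast_self, map_zero] at h5
    rw [← h5, Nat.cast_pow]
  refine ⟨r ^ M * n, ?_⟩
  rw [pow_mul, h2, (Nat.cast_commute r (-w)).mul_pow, hr, zero_mul]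

theorem rp_al (P : Rp p r k n a ρ α α') {s : ℕ} {x : X} (hx : Eig r k a s x) :
    ∃ e : ℕ, ((e : ℕ) : ZMod (r ^ n)) = zt r k n ^ s ∧ α * ρ x * α' = ρ x ^ e := by
  obtain ⟨N, hN, -⟩ := id hx
  have hM : x ^ (r ^ max N n) = 1 := by
    obtain ⟨d, hd⟩ := Nat.exists_eq_add_of_le (le_max_left N n)
    rw [hd, pow_add, pow_mul, hN, one_pow]
  refine ⟨k ^ (s * r ^ max N n), zt_eig P.root (le_max_right N n) s, ?_⟩
  rw [P.conj, Pool.Agent.FRS.eig_at P.root hx hM, map_pow]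

end Pool.Agent.FRK
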