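import Pool.Agent.FRK.RB

/-!
# FRK/RBp: eigen-elements act unipotently

`rp_pow` (`T^(p-1) = 0`, `T = ρ x - 1`), steps (all in the ring `R`; `e` as in `rp_al`):
(0) if `p ∣ s` then `x = 1` (`FRS.eig_triv`), `T = 0`.
(1) `α * T = ((1 + T)^e - 1) * α`; `(1 + T)^e - 1 = T * c = e • T + T^2 * c'` with `c`, `c'` commuting with `T` (induction on `e`);
    so `α * T^m = T^m * c^m * α` and `((1+T)^e - 1)^j = e^j • T^j + T^(j+1) * c''`.
(2) `E i = ∑ t ∈ range p, zt^(i * (p - t)) • α^t`: `α * E i = zt^i • E i` (shift the index; `α^p = 1`, `zt^p = 1`), `E 0 = 0`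
    (`Rp.sum`), `∑_{i<p} E i = p • 1` (`zt_sum` for `t ≠ 0`).
(3) if `α * w = w + T^m * y` then `w = T^m * y'` for some `y'`: by (1) `α^t * w = w + T^m * y_t`, the sum over `t < p` is
    `0 = p w + T^m * ∑ y_t`, `p` is a unit (`unit_nat`, `Root.lt`).
(4) for `1 ≤ i < p` there is `1 ≤ j ≤ p - 1` with `p ∣ i + j s` (`p ∤ s`); `w = T^j * E i`: `α * w = ((1+T)^e - 1)^j * zt^i • E i =
    zt^(i + j s) • w + T^(j+1) * (..) = w + T^(j+1) * (..)` (`zt_congr`), so `w = T^(j+1) * y'` and `T^(p-1) * E i = T^p * y''`.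
(5) `p • T^(p-1) = ∑ T^(p-1) * E i = T^p * y`, so `T^(p-1) = T^p * y` (another `y`), hence `T^(p-1) = T^(p-1+l) * y^l` for all `l`,
    and this is `0` for large `l` (`rp_nil`).
-/

set_option autoImplicit false

namespace Pool.Agent.FRK

open Pool.Agent.FRB (Inv Eig LF SS)
open Pool.Agent.FRS (Root Hyp)

variable {p r k n : ℕ} {X : Type*} [Group X] {a : MulAut X} {R : Type*} [Ring R] [Algebra (ZMod (r ^ n)) R]
  {ρ : X →* R} {α α' : R}

private theorem rb_lin {R : Type*} [Ring R] (T : R) (e : ℕ) :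
    ∃ c : R, Commute T c ∧ (1 + T) ^ e = 1 + T * (e : R) + T ^ 2 * c := by
  induction e with
  | zero => exact ⟨0, Commute.zero_right T, by simp⟩
  | succ e ih =>
    obtain ⟨c, hc, h⟩ := ih
    refine ⟨(e : R) + c + c * T, ?_, ?_⟩
    · exact ((Nat.cast_commute e T).symm.add_right hc).add_right (hc.mul_right (Commute.refl T))
    · have he : (e : R) * T = T * e := (Nat.cast_commute e T).eq
      have h2 : T * (e : R) * T = T ^ 2 * e := by rw [mul_assoc, he, ← mul_assoc, sq]
      rw [pow_succ, h]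
      push_cast
      simp only [mul_add, add_mul, mul_one, one_mul]
      rw [h2, mul_assoc (T ^ 2) c T]
      abel

private theorem rb_V {R : Type*} [Ring R] (T : R) (e : ℕ) :
    ∃ V c : R, Commute T V ∧ (1 + T) ^ e - 1 = T * V ∧ V = (e : R) + T * c := by
  obtain ⟨c, hc, h⟩ := rb_lin T e
  refine ⟨(e : R) + T * c, c, ?_, ?_, rfl⟩
  · exact (Nat.cast_commute e T).symm.add_right ((Commute.refl T).mul_right hc)
  · rw [h, mul_add, ← mul_assoc, ← sq]
    abel

private theorem rb_Vp {R : Type*} [Ring R] (T V c : R) (e : ℕ) (hV : V = (e : R) + T * c) (j : ℕ) :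
    ∃ d : R, V ^ j = (e : R) ^ j + T * d := by
  induction j with
  | zero => exact ⟨0, by simp⟩
  | succ j ih =>
    obtain ⟨d, hd⟩ := ih
    refine ⟨c * (e : R) ^ j + (e : R) * d + c * (T * d), ?_⟩
    have he : (e : R) * T = T * e := (Nat.cast_commute e T).eq
    rw [pow_succ' V, hd, hV, pow_succ' (e : R)]
    simp only [mul_add, add_mul]
    rw [← mul_assoc (e : R) T d, he, mul_assoc T (e : R) d, mul_assoc T c ((e : R) ^ j), mul_assoc T c (T * d)]
    abel

private theorem rb_conj {R : Type*} [Ring R] {α α' S T V : R} {e : ℕ} (hi : α' * α = 1) (hS : α * S * α' = S ^ e)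
    (hST : S = 1 + T) (hV : (1 + T) ^ e - 1 = T * V) (hc : Commute T V) (m : ℕ) : α * T ^ m = T ^ m * V ^ m * α := by
  have h1 : α * S = S ^ e * α := by
    rw [← hS, mul_assoc, hi, mul_one]
  have h2 : α * T = T * V * α := by
    rw [← hV, sub_mul, one_mul, ← hST, ← h1, hST, mul_add, mul_one]
    abel
  rw [← hc.mul_pow]
  induction m with
  | zero => simp
  | succ m ih => rw [pow_succ, ← mul_assoc, ih, mul_assoc, h2, ← mul_assoc, ← pow_succ]

private theorem rb_three {R : Type*} [Ring R] {A : Type*} [CommRing A] [Algebra A R] {p : ℕ} {α T V : R}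
    (hu : IsUnit (p : A)) (hs : ∑ i ∈ Finset.range p, α ^ i = 0) (hT : ∀ m, α * T ^ m = T ^ m * V ^ m * α) (m : ℕ)
    (w y : R) (h : α * w = w + T ^ m * y) : ∃ y' : R, w = T ^ m * y' := by
  have h1 : ∀ t : ℕ, ∃ z : R, α ^ t * w = w + T ^ m * z := by
    intro t
    induction t with
    | zero => exact ⟨0, by simp⟩
    | succ t ih =>
      obtain ⟨z, hz⟩ := ih
      refine ⟨y + V ^ m * α * z, ?_⟩
      rw [pow_succ', mul_assoc, hz, mul_add, h, ← mul_assoc α, hT m]
      simp only [mul_add, mul_assoc]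
      abel
  choose z hz using h1
  have h2 : (0 : R) = (p : R) * w + T ^ m * ∑ t ∈ Finset.range p, z t := by
    calc (0 : R) = (∑ i ∈ Finset.range p, α ^ i) * w := by rw [hs, zero_mul]
      _ = ∑ i ∈ Finset.range p, (w + T ^ m * z i) := by
          rw [Finset.sum_mul]
          exact Finset.sum_congr rfl fun i _ => hz i
      _ = (p : R) * w + T ^ m * ∑ t ∈ Finset.range p, z t := by
          rw [Finset.sum_add_distrib, Finset.sum_const, Finset.card_range, nsmul_eq_mul, Finset.mul_sum]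
  obtain ⟨u, hu⟩ := hu.exists_left_inv
  refine ⟨-(algebraMap A R u * ∑ t ∈ Finset.range p, z t), ?_⟩
  have h3 : (p : R) * w = -(T ^ m * ∑ t ∈ Finset.range p, z t) := eq_neg_of_add_eq_zero_left h2.symm
  have h4 : algebraMap A R u * (p : R) = 1 := by
    rw [← map_natCast (algebraMap A R) p, ← map_mul, hu, map_one]
  calc w = algebraMap A R u * (p : R) * w := by rw [h4, one_mul]
    _ = algebraMap A R u * (-(T ^ m * ∑ t ∈ Finset.range p, z t)) := by rw [mul_assoc, h3]
    _ = T ^ m * -(algebraMap A R u * ∑ t ∈ Finset.range p, z t) := by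
        rw [mul_neg, mul_neg, ← mul_assoc, ← mul_assoc, Algebra.commutes u (T ^ m)]

private theorem rb_E {p r k n : ℕ} {X : Type*} [Group X] {a : MulAut X} {R : Type*} [Ring R]
    [Algebra (ZMod (r ^ n)) R] {ρ : X →* R} {α α' : R} (P : Rp p r k n a ρ α α') :
    ∃ E : ℕ → R, E 0 = 0 ∧ (∀ i, α * E i = zt r k n ^ i • E i) ∧ ∑ i ∈ Finset.range p, E i = (p : R) := by
  have hzp := zt_pow P.root n
  refine ⟨fun i => ∑ t ∈ Finset.range p, zt r k n ^ (i * (p - t)) • α ^ t, ?_, ?_, ?_⟩
  · simp only [zero_mul, pow_zero, one_smul]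
    exact P.sum
  · intro i
    set g : ℕ → R := fun t => zt r k n ^ (i * (p + 1 - t)) • α ^ t with hg
    have h1 : α * ∑ t ∈ Finset.range p, zt r k n ^ (i * (p - t)) • α ^ t = ∑ t ∈ Finset.range p, g (t + 1) := by
      rw [Finset.mul_sum]
      refine Finset.sum_congr rfl fun t ht => ?_
      rw [mul_smul_comm, ← pow_succ', hg]
      simp only
      rw [show p + 1 - (t + 1) = p - t by omega]
    have h2 : zt r k n ^ i • ∑ t ∈ Finset.range p, zt r k n ^ (i * (p - t)) • α ^ t = ∑ t ∈ Finset.range p, g t := by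
      rw [Finset.smul_sum]
      refine Finset.sum_congr rfl fun t ht => ?_
      rw [smul_smul, ← pow_add, hg]
      simp only
      rw [Finset.mem_range] at ht
      rw [show p + 1 - t = (p - t) + 1 by omega, mul_add, mul_one, add_comm]
    have h3 := Finset.sum_range_succ' g p
    rw [Finset.sum_range_succ] at h3
    have h4 : g p = g 0 := by
      rw [hg]
      simp only
      rw [P.powp, pow_zero, show p + 1 - p = 1 by omega, show p + 1 - 0 = p + 1 by omega, mul_one, mul_add, mul_one,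
        pow_add, mul_comm i p, pow_mul, hzp, one_pow, one_mul]
    rw [h1, h2]
    rw [h4] at h3
    exact (add_right_cancel h3).symm
  · rw [Finset.sum_comm]
    have h1 : ∀ t ∈ Finset.range p, ∑ i ∈ Finset.range p, zt r k n ^ (i * (p - t)) • α ^ t =
        if t = 0 then (p : R) else 0 := by
      intro t ht
      rw [Finset.mem_range] at ht
      rw [← Finset.sum_smul]
      split_ifs with h
      · subst h
        have h2 : ∀ i ∈ Finset.range p, zt r k n ^ (i * (p - 0)) = 1 := by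
          intro i _
          rw [Nat.sub_zero, mul_comm, pow_mul, hzp, one_pow]
        rw [Finset.sum_congr rfl h2, Finset.sum_const, Finset.card_range, pow_zero, nsmul_eq_mul, mul_one,
          Nat.cast_smul_eq_nsmul, nsmul_eq_mul, mul_one]
      · have h3 : ¬ p ∣ p - t := fun h4 => by
          have := Nat.le_of_dvd (by omega) h4
          omega
        have h4 := zt_sum P.root n h3
        have h5 : ∑ i ∈ Finset.range p, zt r k n ^ (i * (p - t)) = 0 := by
          rw [← h4]
          exact Finset.sum_congr rfl fun i _ => by rw [mul_comm]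
        rw [h5, zero_smul]
    rw [Finset.sum_congr rfl h1, Finset.sum_ite_eq' (Finset.range p) 0 fun _ => (p : R)]
    rw [if_pos (Finset.mem_range.2 P.root.pp.pos)]

private theorem rb_j {p s i : ℕ} (hp : p.Prime) (hs : ¬ p ∣ s) : ∃ j, j < p ∧ p ∣ i + s * j := by
  have : Fact p.Prime := ⟨hp⟩
  have hs' : (s : ZMod p) ≠ 0 := fun h => hs ((ZMod.natCast_eq_zero_iff s p).1 h)
  refine ⟨(-(i : ZMod p) * (s : ZMod p)⁻¹).val, ZMod.val_lt _, ?_⟩
  rw [← ZMod.natCast_eq_zero_iff]
  push_cast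
  rw [ZMod.natCast_zmod_val]
  field_simp
  ring

theorem rp_pow (P : Rp p r k n a ρ α α') {s : ℕ} {x : X} (hx : Eig r k a s x) : (ρ x - 1) ^ (p - 1) = 0 := by
  have hpp := P.root.pp
  have hp1 : 1 < p := hpp.one_lt
  by_cases hs : p ∣ s
  · have h1 : x = 1 := Pool.Agent.FRS.eig_triv P.root P.hyp hs hx
    rw [h1, map_one, sub_self, zero_pow (by omega)]
  obtain ⟨e, he, hal⟩ := rp_al P hx
  set T : R := ρ x - 1 with hT
  have hST : ρ x = 1 + T := by rw [hT]; abel
  obtain ⟨V, c, hcV, hU, hVc⟩ := rb_V T e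
  have hconj := rb_conj P.inv' hal hST hU hcV
  have hpr : p < r := by
    have h1 := P.root.modp
    by_contra h2
    rcases Nat.lt_or_ge r p with h3 | h3
    · rw [Nat.mod_eq_of_lt h3] at h1
      exact P.root.prime.one_lt.ne' h1
    · have h4 : r = p := by omega
      rw [h4, Nat.mod_self] at h1
      exact absurd h1 (by norm_num)
  have hu : IsUnit ((p : ℕ) : ZMod (r ^ n)) := unit_nat P.root n hpp.pos hpr
  obtain ⟨E, hE0, hE, hEs⟩ := rb_E P
  have hTE : ∀ i ∈ Finset.range p, ∃ y : R, T ^ (p - 1) * E i = T ^ p * y := by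
    intro i hi
    rw [Finset.mem_range] at hi
    rcases Nat.eq_zero_or_pos i with h0 | h0
    · exact ⟨0, by rw [h0, hE0, mul_zero, mul_zero]⟩
    obtain ⟨j, hj, hij⟩ := rb_j (i := i) hpp hs
    obtain ⟨d, hd⟩ := rb_Vp T V c e hVc j
    have h1 : α * (T ^ j * E i) = T ^ j * E i + T ^ (j + 1) * (d * (zt r k n ^ i • E i)) := by
      have h2 : (e : R) ^ j = algebraMap (ZMod (r ^ n)) R (zt r k n ^ (s * j)) := by
        rw [pow_mul, ← he, ← map_natCast (algebraMap (ZMod (r ^ n)) R) e, ← map_pow]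
      have h3 : zt r k n ^ (s * j) * zt r k n ^ i = 1 := by
        rw [← pow_add, zt_congr P.root n (i := s * j + i) (j := 0), pow_zero]
        rw [add_comm]
        exact (Nat.modEq_zero_iff_dvd).2 hij
      have h4 : (e : R) ^ j * (zt r k n ^ i • E i) = E i := by
        rw [h2, ← Algebra.smul_def, smul_smul, h3, one_smul]
      rw [← mul_assoc, hconj j, mul_assoc, hE i, hd, mul_add, add_mul, mul_assoc (T ^ j) ((e : R) ^ j), h4,
        ← mul_assoc (T ^ j) T d, ← pow_succ, mul_assoc]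
    obtain ⟨y', hy'⟩ := rb_three hu P.sum hconj (j + 1) _ _ h1
    refine ⟨y', ?_⟩
    have h5 : T ^ (p - 1) = T ^ (p - 1 - j) * T ^ j := by
      rw [← pow_add]
      congr 1
      omega
    rw [h5, mul_assoc, hy', ← mul_assoc, ← pow_add]
    congr 2
    omega
  choose! y hy using hTE
  have h6 : (p : R) * T ^ (p - 1) = T ^ p * ∑ i ∈ Finset.range p, y i := by
    calc (p : R) * T ^ (p - 1) = T ^ (p - 1) * (p : R) := (Nat.cast_commute p (T ^ (p - 1))).eq
      _ = ∑ i ∈ Finset.range p, T ^ (p - 1) * E i := by rw [← hEs, Finset.mul_sum]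
      _ = ∑ i ∈ Finset.range p, T ^ p * y i := Finset.sum_congr rfl fun i hi => hy i hi
      _ = T ^ p * ∑ i ∈ Finset.range p, y i := by rw [Finset.mul_sum]
  obtain ⟨u, hu'⟩ := hu.exists_left_inv
  have h7 : ∃ z : R, T ^ (p - 1) = T * T ^ (p - 1) * z := by
    refine ⟨algebraMap (ZMod (r ^ n)) R u * ∑ i ∈ Finset.range p, y i, ?_⟩
    have h8 : algebraMap (ZMod (r ^ n)) R u * (p : R) = 1 := by
      rw [← map_natCast (algebraMap (ZMod (r ^ n)) R) p, ← map_mul, hu', map_one]
    have h9 : T * T ^ (p - 1) = T ^ p := by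
      rw [← pow_succ']
      congr 1
      omega
    calc T ^ (p - 1) = algebraMap (ZMod (r ^ n)) R u * ((p : R) * T ^ (p - 1)) := by rw [← mul_assoc, h8, one_mul]
      _ = algebraMap (ZMod (r ^ n)) R u * (T ^ p * ∑ i ∈ Finset.range p, y i) := by rw [h6]
      _ = T * T ^ (p - 1) * (algebraMap (ZMod (r ^ n)) R u * ∑ i ∈ Finset.range p, y i) := by
          rw [h9, ← mul_assoc, ← mul_assoc, Algebra.commutes u (T ^ p)]
  obtain ⟨z, hz⟩ := h7
  have h10 : ∀ l : ℕ, T ^ (p - 1) = T ^ l * T ^ (p - 1) * z ^ l := by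
    intro l
    induction l with
    | zero => simp
    | succ l ih =>
      calc T ^ (p - 1) = T ^ l * T ^ (p - 1) * z ^ l := ih
        _ = T ^ l * (T * T ^ (p - 1) * z) * z ^ l := by rw [← hz]
        _ = T ^ (l + 1) * T ^ (p - 1) * z ^ (l + 1) := by
            rw [pow_succ T l, pow_succ' z l]
            simp only [mul_assoc]
  obtain ⟨N, hN⟩ := rp_nil P x
  rw [h10 N, hN, zero_mul, zero_mul]

end Pool.Agent.FRK
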