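import Pool.Agent.FRK.RBp
import Pool.Agent.FRK.PC
import Pool.Agent.FRK.PE

/-!
# FRK/RC: logarithms of eigen-elements and of their conjugates

Plan: units of `ZMod (r^n)`: `unit_nat`, `big_two`.  `log_ex`: for `g⁻¹ x g`: `ρ (g⁻¹ * x * g) - 1 = ρ g⁻¹ * (ρ x - 1) * ρ g`, its
`(p-1)`-st power is `ρ g⁻¹ * (ρ x - 1)^(p-1) * ρ g = 0` (`rp_pow`), `log_exists` with `d = p - 2` (`p - 2 + 1 = p - 1`).
`log_eig`: `rp_al`: `α * ρ x * α' = (ρ x)^e`; `log_conj` (with `g' = α`, `g = α'`) and `log_pow` give two logarithms of this element: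
`α * y * α'` and `(e : R) * y`; `log_unique`; `(e : R) * y = (e : ZMod (r^n)) • y = zt^i • y`.
`log_cj`: `log_conj` with `g := ρ g`, `g' := ρ g⁻¹`.
`log_al`: `log_conj` with `α`; `α * ρ (g⁻¹ x g) * α' = ρ (a (g⁻¹ x g))` (`Rp.conj`).
-/

set_option autoImplicit false

namespace Pool.Agent.FRK

open Pool.Agent.FRB (Inv Eig LF SS)
open Pool.Agent.FRS (Root Hyp)

variable {p r k n : ℕ} {X : Type*} [Group X] {a : MulAut X} {R : Type*} [Ring R] [Algebra (ZMod (r ^ n)) R]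
  {ρ : X →* R} {α α' : R}

private theorem rc_unit (P : Rp p r k n a ρ α α') {m : ℕ} (h0 : 0 < m) (hm : m ≤ p - 2) :
    IsUnit (m : ZMod (r ^ n)) := by
  have h := big_two P.root
  exact unit_nat P.root n h0 (by omega)

private theorem rc_pow {g g' t : R} (hg : g * g' = 1) (hg' : g' * g = 1) (m : ℕ) :
    (g' * t * g) ^ m = g' * t ^ m * g := by
  induction m with
  | zero => rw [pow_zero, pow_zero, mul_one, hg']
  | succ m ih =>
    rw [pow_succ, ih, pow_succ]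
    calc g' * t ^ m * g * (g' * t * g) = g' * t ^ m * (g * g') * (t * g) := by noncomm_ring
      _ = g' * (t ^ m * t) * g := by rw [hg]; noncomm_ring

private theorem rc_gg (ρ : X →* R) (g : X) : ρ g * ρ g⁻¹ = 1 := by
  rw [← map_mul, mul_inv_cancel, map_one]

private theorem rc_gg' (ρ : X →* R) (g : X) : ρ g⁻¹ * ρ g = 1 := by
  rw [← map_mul, inv_mul_cancel, map_one]

theorem log_ex (P : Rp p r k n a ρ α α') {i : ℕ} {x : X} (hx : Eig r k a i x) (g : X) :
    ∃ y : R, IsLog (p - 2) (ρ (g⁻¹ * x * g)) y := by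
  have h5 := P.root.five
  have e1 : ρ (g⁻¹ * x * g) - 1 = ρ g⁻¹ * (ρ x - 1) * ρ g := by
    rw [map_mul, map_mul, mul_sub, sub_mul, mul_one, rc_gg']
  refine log_exists (Λ := ZMod (r ^ n)) (d := p - 2) ?_ ?_
  · have h1 : p - 2 + 1 = p - 1 := by omega
    rw [h1, e1, rc_pow (rc_gg ρ g) (rc_gg' ρ g), rp_pow P hx, mul_zero, zero_mul]
  · intro m h0 hm
    exact rc_unit P h0 hm

theorem log_eig (P : Rp p r k n a ρ α α') {i : ℕ} {x : X} (hx : Eig r k a i x) {y : R}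
    (hy : IsLog (p - 2) (ρ x) y) : α * y * α' = zt r k n ^ i • y := by
  obtain ⟨e, h1, h2⟩ := rp_al P hx
  have h3 : IsLog (p - 2) (α * ρ x * α') (α * y * α') := log_conj P.inv' P.inv hy
  have h4 := log_pow e hy
  rw [h2] at h3
  rw [log_unique (Λ := ZMod (r ^ n)) (fun m h0 hm => rc_unit P h0 hm) h3 h4, ← h1, Algebra.smul_def, map_natCast]

theorem log_cj (P : Rp p r k n a ρ α α') {z : X} {y : R} (hy : IsLog (p - 2) (ρ z) y) (g : X) :
    IsLog (p - 2) (ρ (g⁻¹ * z * g)) (ρ g⁻¹ * y * ρ g) := by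
  have h := log_conj (rc_gg ρ g) (rc_gg' ρ g) hy
  rwa [← map_mul, ← map_mul] at h

theorem log_al (P : Rp p r k n a ρ α α') {z : X} {y : R} (hy : IsLog (p - 2) (ρ z) y) :
    IsLog (p - 2) (ρ (a z)) (α * y * α') := by
  have h : IsLog (p - 2) (α * ρ z * α') (α * y * α') := log_conj P.inv' P.inv hy
  rwa [P.conj] at h

end Pool.Agent.FRK
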