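import Pool.Agent.FRK.RC

/-!
# FRK/RD: `lie` is a Lie ring, invariant under conjugation and under `α`

Plan: `lie_cj`: `Submodule.span_induction`; for a generator `y` (logarithm of `ρ (g⁻¹ x g)`) `ρ u⁻¹ * y * ρ u` is a logarithm of
`ρ (u⁻¹ g⁻¹ x g u) = ρ ((g u)⁻¹ x (g u))` (`log_cj`).
`lie_al`: for a generator `y`: `α * y * α'` is a logarithm of `ρ (a (g⁻¹ x g)) = ρ ((a g)⁻¹ (a x) (a g))` (`log_al`), `a x` is an
eigen-element (`FRS.eig_app`).
`lie_br`: by linearity in `z` (span induction) let `z` be a generator, a logarithm of `ρ c`, `c = g⁻¹ x g`.  `c⁻¹ = g⁻¹ x⁻¹ g`, `x⁻¹` is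
an eigen-element (`FRS.eig_inv`), so `ρ c⁻¹` has a logarithm (`log_ex`).  `log_br` with `S = ρ c`, `S' = ρ c⁻¹`, `B = lie`:
`(ρ c⁻¹)^m * y * (ρ c)^m = ρ (c^m)⁻¹ * y * ρ (c^m) ∈ lie` (`lie_cj`).  Units: `unit_nat`, `big_two`.
-/

set_option autoImplicit false

namespace Pool.Agent.FRK

open Pool.Agent.FRB (Inv Eig LF SS)
open Pool.Agent.FRS (Root Hyp)

variable {p r k n : ℕ} {X : Type*} [Group X] {a : MulAut X} {R : Type*} [Ring R] [Algebra (ZMod (r ^ n)) R]
  {ρ : X →* R} {α α' : R}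

theorem lie_cj (P : Rp p r k n a ρ α α') {y : R} (hy : y ∈ lie p r k n a ρ) (u : X) :
    ρ u⁻¹ * y * ρ u ∈ lie p r k n a ρ := by
  unfold lie at hy
  induction hy using Submodule.span_induction with
  | mem y hy =>
    obtain ⟨i, x, g, hx, hl⟩ := hy
    have h1 := log_cj P hl u
    have h2 : u⁻¹ * (g⁻¹ * x * g) * u = (g * u)⁻¹ * x * (g * u) := by group
    rw [h2] at h1
    exact Submodule.subset_span ⟨i, x, g * u, hx, h1⟩
  | zero => rw [mul_zero, zero_mul]; exact Submodule.zero_mem _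
  | add y z _ _ hy hz => rw [mul_add, add_mul]; exact Submodule.add_mem _ hy hz
  | smul c y _ hy => rw [mul_smul_comm, smul_mul_assoc]; exact Submodule.smul_mem _ _ hy

private theorem lie_al1 (P : Rp p r k n a ρ α α') {y : R} (hy : y ∈ lie p r k n a ρ) :
    α * y * α' ∈ lie p r k n a ρ := by
  unfold lie at hy
  induction hy using Submodule.span_induction with
  | mem y hy =>
    obtain ⟨i, x, g, hx, hl⟩ := hy
    have h1 := log_al P hl
    have h2 : a (g⁻¹ * x * g) = (a g)⁻¹ * a x * a g := by rw [map_mul, map_mul, map_inv]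
    rw [h2] at h1
    exact Submodule.subset_span ⟨i, a x, a g, Pool.Agent.FRS.eig_app P.root hx, h1⟩
  | zero => rw [mul_zero, zero_mul]; exact Submodule.zero_mem _
  | add y z _ _ hy hz => rw [mul_add, add_mul]; exact Submodule.add_mem _ hy hz
  | smul c y _ hy => rw [mul_smul_comm, smul_mul_assoc]; exact Submodule.smul_mem _ _ hy

theorem lie_al (P : Rp p r k n a ρ α α') {y : R} (hy : y ∈ lie p r k n a ρ) (t : ℕ) :
    α ^ t * y * α' ^ t ∈ lie p r k n a ρ := by
  induction t with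
  | zero => rw [pow_zero, pow_zero, one_mul, mul_one]; exact hy
  | succ t ih =>
    have h1 : α ^ (t + 1) * y * α' ^ (t + 1) = α * (α ^ t * y * α' ^ t) * α' := by
      rw [pow_succ' α, pow_succ α']
      simp only [mul_assoc]
    rw [h1]
    exact lie_al1 P ih

theorem lie_br (P : Rp p r k n a ρ α α') {y z : R} (hy : y ∈ lie p r k n a ρ) (hz : z ∈ lie p r k n a ρ) :
    y * z - z * y ∈ lie p r k n a ρ := by
  have hz' := hz
  unfold lie at hz'
  clear hz
  induction hz' using Submodule.span_induction with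
  | mem z hz =>
    obtain ⟨i, x, g, hx, hl⟩ := hz
    obtain ⟨z', hz'⟩ := log_ex P (Pool.Agent.FRS.eig_inv P.root hx) g
    have hc : g⁻¹ * x⁻¹ * g = (g⁻¹ * x * g)⁻¹ := by group
    rw [hc] at hz'
    refine log_br (Λ := ZMod (r ^ n)) (fun m h0 hm => unit_nat P.root n h0 (lt_of_le_of_lt hm (big_two P.root)))
      ?_ ?_ hl hz' _ ?_
    · rw [← map_mul, mul_inv_cancel, map_one]
    · rw [← map_mul, inv_mul_cancel, map_one]
    · intro m
      rw [← map_pow, ← map_pow, inv_pow]
      exact lie_cj P hy _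
  | zero => rw [mul_zero, zero_mul, sub_zero]; exact Submodule.zero_mem _
  | add z w _ _ hz hw =>
    have h1 : y * (z + w) - (z + w) * y = (y * z - z * y) + (y * w - w * y) := by noncomm_ring
    rw [h1]; exact Submodule.add_mem _ hz hw
  | smul c z _ hz =>
    rw [mul_smul_comm, smul_mul_assoc, ← smul_sub]; exact Submodule.smul_mem _ _ hz

end Pool.Agent.FRK
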