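import Pool.Agent.FRS.Gen
import Pool.Agent.FRK.PDefs

/-!
# FRK: representations of groups with a fixed-point-free automorphism (definitions)

`zt r k n` is the `p`-th root of unity in `ZMod (r ^ n)`; `Rp` : `ρ : X →* R` is a representation over `ZMod (r ^ n)`,
`α ∈ R` is invertible with inverse `α'`, `α ρ(x) α' = ρ(a x)`, `α^p = 1`, `∑_{i<p} α^i = 0` (no fixed points).
-/

set_option autoImplicit false

namespace Pool.Agent.FRK

open Pool.Agent.FRB (Inv Eig LF SS)
open Pool.Agent.FRS (Root Hyp)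

/-- the `p`-th root of unity in `ZMod (r ^ n)` -/
def zt (r k n : ℕ) : ZMod (r ^ n) := ((k ^ (r ^ n) : ℕ) : ZMod (r ^ n))

/-- a representation of `X` compatible with `a` -/
structure Rp (p r k n : ℕ) {X : Type*} [Group X] (a : MulAut X) {R : Type*} [Ring R] [Algebra (ZMod (r ^ n)) R]
    (ρ : X →* R) (α α' : R) : Prop where
  root : Root p r k
  hyp : Hyp p r a
  big : p * (p - 1) < 2 * r
  inv : α * α' = 1
  inv' : α' * α = 1
  powp : α ^ p = 1
  sum : ∑ i ∈ Finset.range p, α ^ i = 0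
  conj : ∀ x : X, α * ρ x * α' = ρ (a x)

/-- the span of the logarithms of the conjugates of eigen-elements -/
def lie (p r k n : ℕ) {X : Type*} [Group X] (a : MulAut X) {R : Type*} [Ring R] [Algebra (ZMod (r ^ n)) R]
    (ρ : X →* R) : Submodule (ZMod (r ^ n)) R :=
  Submodule.span (ZMod (r ^ n)) {y | ∃ (i : ℕ) (x g : X), Eig r k a i x ∧ IsLog (p - 2) (ρ (g⁻¹ * x * g)) y}

/-- the homogeneous component of degree `i` of `lie` -/
def lc (p r k n : ℕ) {X : Type*} [Group X] (a : MulAut X) {R : Type*} [Ring R] [Algebra (ZMod (r ^ n)) R]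
    (ρ : X →* R) (α α' : R) (i : ZMod p) : AddSubgroup R where
  carrier := {y | y ∈ lie p r k n a ρ ∧ α * y * α' = zt r k n ^ i.val • y}
  add_mem' {x y} hx hy := ⟨Submodule.add_mem _ hx.1 hy.1, by rw [mul_add, add_mul, hx.2, hy.2, smul_add]⟩
  zero_mem' := ⟨Submodule.zero_mem _, by rw [mul_zero, zero_mul, smul_zero]⟩
  neg_mem' {x} hx := ⟨Submodule.neg_mem _ hx.1, by rw [mul_neg, neg_mul, hx.2, smul_neg]⟩

end Pool.Agent.FRK
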