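import Pool.Agent.FRK.RD
import Pool.Agent.FRK.PF
import Pool.Agent.FRK.Spl

/-!
# FRK/RE: the component of degree zero of `lie` vanishes

`log_orb`: `z = g⁻¹ x g`, `x` an eigen-element, `y` a logarithm of `ρ z`.  Apply `log_sum` with `q = (p - 1) / 2` (`2 q + 1 = p`, `p` is odd:
`Root.pp`, `Root.five`), `d = p - 2`, `S i = ρ ((a^i) z)`, `S' i = ρ ((a^i) z)⁻¹`, `u i = α^i * y * α'^i` (`log_al` iterated),
`u' i = α^i * y' * α'^i` where `y'` is a logarithm of `ρ z⁻¹` (`log_ex` for `x⁻¹`).  `(S i)^m = ρ ((a^i) (z^m))`, and the product over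
`i < p` is `ρ` of the product in `split H (z^m)`, so `1`.  Units: `unit_nat`, `big_half`.
`lie_orb`: the map `y ↦ ∑_{i<p} α^i * y * α'^i` is linear and vanishes on the generators of `lie`.
`lie_zero`: if `α * y = y * α` then all `α^i * y * α'^i = y`, so `p • y = 0`, and `p` is a unit (`unit_nat`, `Root.lt`).
-/

set_option autoImplicit false

namespace Pool.Agent.FRK

open Pool.Agent.FRB (Inv Eig LF SS)
open Pool.Agent.FRS (Root Hyp)

variable {p r k n : ℕ} {X : Type*} [Group X] {a : MulAut X} {R : Type*} [Ring R] [Algebra (ZMod (r ^ n)) R]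
  {ρ : X →* R} {α α' : R}

private theorem re_step (P : Rp p r k n a ρ α α') {z : X} {y : R} (hy : IsLog (p - 2) (ρ z) y) (i : ℕ) :
    IsLog (p - 2) (ρ ((a ^ i) z)) (α ^ i * y * α' ^ i) := by
  induction i with
  | zero =>
    rw [pow_zero, pow_zero, pow_zero, one_mul, mul_one]
    exact hy
  | succ i ih =>
    have h1 := log_al P ih
    have h2 : α * (α ^ i * y * α' ^ i) * α' = α ^ (i + 1) * y * α' ^ (i + 1) := by
      rw [pow_succ' α, pow_succ α']
      simp only [mul_assoc]
    have h3 : a ((a ^ i) z) = (a ^ (i + 1)) z := by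
      rw [pow_succ', MulAut.mul_apply]
    rw [h2, h3] at h1
    exact h1

theorem log_orb (P : Rp p r k n a ρ α α') {i : ℕ} {x : X} (hx : Eig r k a i x) (g : X) {y : R}
    (hy : IsLog (p - 2) (ρ (g⁻¹ * x * g)) y) : ∑ i ∈ Finset.range p, α ^ i * y * α' ^ i = 0 := by
  obtain ⟨z, hz⟩ : ∃ z : X, z = g⁻¹ * x * g := ⟨_, rfl⟩
  rw [← hz] at hy
  obtain ⟨y', hy'⟩ := log_ex P (Pool.Agent.FRS.eig_inv P.root hx) g
  have hz' : g⁻¹ * x⁻¹ * g = z⁻¹ := by
    rw [hz]
    group
  rw [hz'] at hy'
  have hodd : 2 * ((p - 1) / 2) + 1 = p := by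
    have h1 := P.root.pp.eq_one_or_self_of_dvd 2
    have h2 := P.root.five
    have h3 : p % 2 = 1 := by
      rcases Nat.mod_two_eq_zero_or_one p with h | h
      · rcases h1 (Nat.dvd_of_mod_eq_zero h) with h4 | h4 <;> omega
      · exact h
    omega
  have hinv : ∀ w : X, ρ w * ρ w⁻¹ = 1 := fun w => by rw [← map_mul, mul_inv_cancel, map_one]
  have hinv' : ∀ w : X, ρ w⁻¹ * ρ w = 1 := fun w => by rw [← map_mul, inv_mul_cancel, map_one]
  have key := log_sum (Λ := ZMod (r ^ n)) (d := p - 2) (q := (p - 1) / 2) (S := fun i => ρ ((a ^ i) z))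
    (S' := fun i => ρ ((a ^ i) z⁻¹)) (u := fun i => α ^ i * y * α' ^ i) (u' := fun i => α ^ i * y' * α' ^ i)
    (by
      have := P.root.five
      omega)
    (fun m h0 hm => unit_nat P.root n h0 (lt_of_le_of_lt hm (big_half P.root P.big)))
    (fun i => by
      show ρ ((a ^ i) z) * ρ ((a ^ i) z⁻¹) = 1
      rw [map_inv, hinv])
    (fun i => by
      show ρ ((a ^ i) z⁻¹) * ρ ((a ^ i) z) = 1
      rw [map_inv, hinv'])
    (fun i => re_step P hy i) (fun i => re_step P hy' i)
    (by
      intro m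
      rw [hodd]
      have h1 := split P.hyp (z ^ m)
      have h2 : ((List.range p).map fun i => ρ ((a ^ i) z) ^ m) =
          ((List.range p).map fun i => (a ^ i) (z ^ m)).map ρ := by
        rw [List.map_map]
        refine List.map_congr_left fun i _ => ?_
        show ρ ((a ^ i) z) ^ m = ρ ((a ^ i) (z ^ m))
        rw [map_pow, map_pow]
      rw [h2, ← map_list_prod, h1, map_one])
  rw [hodd] at key
  exact key

theorem lie_orb (P : Rp p r k n a ρ α α') {y : R} (hy : y ∈ lie p r k n a ρ) :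
    ∑ i ∈ Finset.range p, α ^ i * y * α' ^ i = 0 := by
  unfold lie at hy
  induction hy using Submodule.span_induction with
  | mem y hy =>
    obtain ⟨i, x, g, hx, hy⟩ := hy
    exact log_orb P hx g hy
  | zero =>
    refine Finset.sum_eq_zero fun i _ => ?_
    rw [mul_zero, zero_mul]
  | add y z _ _ hy hz =>
    have h1 : ∀ i, α ^ i * (y + z) * α' ^ i = α ^ i * y * α' ^ i + α ^ i * z * α' ^ i := by
      intro i
      rw [mul_add, add_mul]
    simp only [h1]
    rw [Finset.sum_add_distrib, hy, hz, add_zero]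
  | smul c y _ hy =>
    have h1 : ∀ i, α ^ i * (c • y) * α' ^ i = c • (α ^ i * y * α' ^ i) := by
      intro i
      rw [mul_smul_comm, smul_mul_assoc]
    simp only [h1]
    rw [← Finset.smul_sum, hy, smul_zero]

theorem lie_zero (P : Rp p r k n a ρ α α') {y : R} (hy : y ∈ lie p r k n a ρ) (hc : α * y = y * α) : y = 0 := by
  have h1 := lie_orb P hy
  have hcom : Commute α α' := by rw [Commute, SemiconjBy, P.inv, P.inv']
  have h2 : ∀ i ∈ Finset.range p, α ^ i * y * α' ^ i = y := by
    intro i _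
    have h3 : Commute α y := hc
    rw [(h3.pow_left i).eq, mul_assoc, ← hcom.mul_pow, P.inv, one_pow, mul_one]
  rw [Finset.sum_congr rfl h2, Finset.sum_const, Finset.card_range] at h1
  have h4 : (p : ZMod (r ^ n)) • y = 0 := by
    rw [Nat.cast_smul_eq_nsmul]
    exact h1
  have h5 := unit_nat P.root n P.root.pp.pos P.root.lt
  exact (h5.smul_eq_zero).1 h4

end Pool.Agent.FRK
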