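import Pool.Agent.FRK.RE
import Pool.Agent.FRK.KDefs

/-!
# FRK/RF: the grading of `lie`

Plan: `lc_cl`: `α * (x * y) * α' = (α x α') (α y α')` (`α' * α = 1`), so the commutator of elements of degrees `i`, `j` is
multiplied by `zt^(i.val) * zt^(j.val) = zt^((i+j).val)` (`zt_congr`, `ZMod.val_add`); `lie_br`.
`lc_zero`: `zt^0 = 1`, so `α * y = y * α`, `lie_zero`.
`lie_span`: `≥`: clear.  `≤`: for `y ∈ lie` let `E i = ∑ t ∈ range p, zt^(i.val * (p - t)) • (α^t * y * α'^t)`, `i : ZMod p`.  `E i ∈ lie`
(`lie_al`), `α * E i * α' = zt^(i.val) • E i` (shift of the index; `α^p = 1`, so `α'^p = 1`, `zt^p = 1`), `∑ i, E i = p • y` (for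
`t ≠ 0`, `t < p`, the sum of the `zt^(i.val * (p - t))` over `i` vanishes: `zt_sum` with `m = p - t`; `∑ i : ZMod p` is
`∑ i ∈ range p`: `Fin`), `p` is a unit of `ZMod (r^n)` (`unit_nat`, `Root.lt`).
-/

set_option autoImplicit false

namespace Pool.Agent.FRK

open Pool.Agent.FRB (Inv Eig LF SS)
open Pool.Agent.FRS (Root Hyp)

variable {p r k n : ℕ} {X : Type*} [Group X] {a : MulAut X} {R : Type*} [Ring R] [Algebra (ZMod (r ^ n)) R]
  {ρ : X →* R} {α α' : R}

private theorem sum_zmod {M : Type*} [AddCommMonoid M] : ∀ (p : ℕ) [NeZero p] (f : ℕ → M),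
    ∑ i : ZMod p, f i.val = ∑ s ∈ Finset.range p, f s
  | 0, h, _ => absurd rfl h.out
  | p + 1, _, f => Fin.sum_univ_eq_sum_range f (p + 1)

theorem lc_cl (P : Rp p r k n a ρ α α') : Cl (lc p r k n a ρ α α') := by
  intro i j x y hx hy
  have hp : NeZero p := ⟨P.root.pp.ne_zero⟩
  obtain ⟨hx1, hx2⟩ := hx
  obtain ⟨hy1, hy2⟩ := hy
  refine ⟨lie_br P hx1 hy1, ?_⟩
  have hmul : ∀ u v : R, α * (u * v) * α' = (α * u * α') * (α * v * α') := by
    intro u v
    have h1 : (α * u * α') * (α * v * α') = α * u * (α' * α) * v * α' := by noncomm_ring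
    rw [h1, P.inv', mul_one, mul_assoc α u v]
  have hz : zt r k n ^ i.val * zt r k n ^ j.val = zt r k n ^ (i + j).val := by
    rw [← pow_add]
    refine zt_congr P.root n ?_
    rw [ZMod.val_add]
    exact (Nat.mod_modEq _ _).symm
  rw [mul_sub, sub_mul, hmul, hmul, hx2, hy2, smul_sub]
  rw [smul_mul_smul_comm, smul_mul_smul_comm, hz, mul_comm (zt r k n ^ j.val), hz]

theorem lc_zero (P : Rp p r k n a ρ α α') : lc p r k n a ρ α α' 0 = ⊥ := by
  rw [eq_bot_iff]
  rintro y ⟨hy1, hy2⟩
  rw [AddSubgroup.mem_bot]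
  rw [ZMod.val_zero, pow_zero, one_smul] at hy2
  refine lie_zero P hy1 ?_
  calc α * y = α * y * (α' * α) := by rw [P.inv', mul_one]
    _ = (α * y * α') * α := by rw [← mul_assoc]
    _ = y * α := by rw [hy2]

theorem lie_span (P : Rp p r k n a ρ α α') :
    lie p r k n a ρ = Submodule.span (ZMod (r ^ n)) {y | ∃ i : ZMod p, y ∈ lc p r k n a ρ α α' i} := by
  have hp : NeZero p := ⟨P.root.pp.ne_zero⟩
  refine le_antisymm ?_ ?_
  · intro y hy
    have hp' : α' ^ p = 1 := by
      have hc : Commute α' α := P.inv'.trans P.inv.symm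
      have h1 := hc.mul_pow p
      rw [P.inv', one_pow, P.powp, mul_one] at h1
      exact h1.symm
    obtain ⟨E, hE⟩ : ∃ E : ZMod p → R, E = fun i => ∑ t ∈ Finset.range p,
        zt r k n ^ (i.val * (p - t)) • (α ^ t * y * α' ^ t) := ⟨_, rfl⟩
    have hEl : ∀ i, E i ∈ lc p r k n a ρ α α' i := by
      intro i
      refine ⟨?_, ?_⟩
      · rw [hE]
        exact Submodule.sum_mem _ fun t _ => Submodule.smul_mem _ _ (lie_al P hy t)
      · obtain ⟨G, hG⟩ : ∃ G : ℕ → R, G = fun t => zt r k n ^ (i.val + i.val * (p - t)) • (α ^ t * y * α' ^ t) :=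
          ⟨_, rfl⟩
        have h1 : α * E i * α' = ∑ t ∈ Finset.range p, G (t + 1) := by
          rw [hE, hG]
          simp only
          rw [Finset.mul_sum, Finset.sum_mul]
          refine Finset.sum_congr rfl fun t ht => ?_
          have ht' := Finset.mem_range.1 ht
          rw [mul_smul_comm, smul_mul_assoc]
          have h2 : i.val + i.val * (p - (t + 1)) = i.val * (p - t) := by
            have h3 : p - t = p - (t + 1) + 1 := by omega
            rw [h3, mul_add, mul_one, add_comm]
          rw [h2, pow_succ' α t, pow_succ α' t]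
          congr 1
          noncomm_ring
        have h2 : zt r k n ^ i.val • E i = ∑ t ∈ Finset.range p, G t := by
          rw [hE, hG]
          simp only
          rw [Finset.smul_sum]
          refine Finset.sum_congr rfl fun t _ => ?_
          rw [smul_smul, ← pow_add]
        have h3 : G p = G 0 := by
          rw [hG]
          simp only
          rw [Nat.sub_self, mul_zero, add_zero, P.powp, hp', pow_zero, pow_zero, one_mul, mul_one, Nat.sub_zero]
          congr 1
          refine zt_congr P.root n ?_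
          unfold Nat.ModEq
          rw [Nat.add_mul_mod_self_right]
        have h4 := Finset.sum_range_succ' G p
        rw [Finset.sum_range_succ, h3] at h4
        rw [h1, h2]
        exact (add_right_cancel h4).symm
    have hsum : ∑ i, E i = (p : ZMod (r ^ n)) • y := by
      rw [hE]
      simp only
      rw [Finset.sum_comm]
      have h1 : ∀ t ∈ Finset.range p, ∑ i : ZMod p, zt r k n ^ (i.val * (p - t)) • (α ^ t * y * α' ^ t) =
          if t = 0 then (p : ZMod (r ^ n)) • y else 0 := by
        intro t ht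
        have ht' := Finset.mem_range.1 ht
        rw [← Finset.sum_smul]
        split_ifs with h
        · subst h
          rw [pow_zero, pow_zero, one_mul, mul_one]
          congr 1
          have h2 : ∀ i : ZMod p, zt r k n ^ (i.val * (p - 0)) = 1 := by
            intro i
            rw [Nat.sub_zero, mul_comm, pow_mul, zt_pow P.root n, one_pow]
          rw [Finset.sum_congr rfl fun i _ => h2 i, Finset.sum_const, Finset.card_univ, ZMod.card, nsmul_eq_mul, mul_one]
        · have h2 := sum_zmod p (fun s => zt r k n ^ (s * (p - t)))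
          rw [h2]
          have h3 : ¬ p ∣ (p - t) := fun h3 => by
            have := Nat.le_of_dvd (by omega) h3
            omega
          have h4 := zt_sum P.root n h3
          rw [← zero_smul (ZMod (r ^ n)) (α ^ t * y * α' ^ t), ← h4]
          congr 1
          exact Finset.sum_congr rfl fun s _ => by rw [mul_comm]
      rw [Finset.sum_congr rfl h1, Finset.sum_ite_eq', if_pos (Finset.mem_range.2 P.root.pp.pos)]
    obtain ⟨u, hu⟩ := unit_nat P.root n P.root.pp.pos P.root.lt
    have h5 : y = (↑(u⁻¹) : ZMod (r ^ n)) • ∑ i, E i := by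
      rw [hsum, ← hu, smul_smul, Units.inv_mul, one_smul]
    rw [h5]
    exact Submodule.smul_mem _ _ (Submodule.sum_mem _ fun i _ => Submodule.subset_span ⟨i, hEl i⟩)
  · rw [Submodule.span_le]
    rintro y ⟨i, hy, -⟩
    exact hy

end Pool.Agent.FRK
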