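import Pool.Agent.FRK.RF
import Pool.Agent.FRK.MM

/-!
# FRK/RG: products of `hh p` elements of `lie` vanish

`R = Module.End (ZMod (r^n)) A`, which acts on `A` (`y • v = y v`: `Module.End.smul_def`).
Plan: `vc i = {v | α v = zt^(i.val) • v}`.  `vc_act`: `α (y v) = (α * y * α') (α v)`, degrees add (`zt_congr`, `ZMod.val_add`).
`vc_zero`: `α v = v`, so `α^i v = v`, `0 = (∑_{i<p} α^i) v = p • v`, `v = 0` (`unit_nat`, `Root.lt`).
`vc_span`: `E i v = ∑ t ∈ range p, zt^(i.val * (p - t)) • (α^t) v ∈ vc i`, `∑ i, E i v = p • v`.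
`hom_zero`: for a homogeneous list `l` of length `hh p` the endomorphism `(l.map Prod.snd).prod` kills all `v ∈ vc w` (`kk` with
`L = lc`, `V = vc`), hence `A` (`vc_span`).
`lie_pow`: `lie = span s`, `s = {y | ∃ i, y ∈ lc i}` (`lie_span`), `Submodule.span_pow`, `Set.mem_pow`: the elements of `s^(hh p)` are
products `(List.ofFn f).prod`, choose the degrees, `hom_zero`.
-/

set_option autoImplicit false

namespace Pool.Agent.FRK

open Pool.Agent.FRB (Inv Eig LF SS)
open Pool.Agent.FRS (Root Hyp)

variable {p r k n : ℕ} {X : Type*} [Group X] {a : MulAut X} {A : Type*} [AddCommGroup A] [Module (ZMod (r ^ n)) A]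
  {ρ : X →* Module.End (ZMod (r ^ n)) A} {α α' : Module.End (ZMod (r ^ n)) A}

/-- the homogeneous component of degree `i` of the module -/
def vc (p r k n : ℕ) {A : Type*} [AddCommGroup A] [Module (ZMod (r ^ n)) A] (α : Module.End (ZMod (r ^ n)) A)
    (i : ZMod p) : AddSubgroup A where
  carrier := {v | α v = zt r k n ^ i.val • v}
  add_mem' {x y} hx hy := by
    have h1 : α x = zt r k n ^ i.val • x := hx
    have h2 : α y = zt r k n ^ i.val • y := hy
    change α (x + y) = zt r k n ^ i.val • (x + y)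
    rw [map_add, h1, h2, smul_add]
  zero_mem' := by
    change α 0 = zt r k n ^ i.val • 0
    rw [map_zero, smul_zero]
  neg_mem' {x} hx := by
    have h1 : α x = zt r k n ^ i.val • x := hx
    change α (-x) = zt r k n ^ i.val • (-x)
    rw [map_neg, h1, smul_neg]

private theorem pprime (P : Rp p r k n a ρ α α') : p.Prime := P.root.pp

private theorem punit (P : Rp p r k n a ρ α α') : IsUnit (p : ZMod (r ^ n)) := by
  have h1 : p < r := P.root.lt
  exact unit_nat P.root n P.root.pp.pos h1

private theorem sum_val {M : Type*} [AddCommMonoid M] (q : ℕ) [NeZero q] (f : ℕ → M) :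
    ∑ i : ZMod q, f i.val = ∑ i ∈ Finset.range q, f i := by
  cases q with
  | zero => exact absurd rfl (NeZero.ne 0)
  | succ m => exact Fin.sum_univ_eq_sum_range f (m + 1)

theorem vc_act (P : Rp p r k n a ρ α α') : Act (lc p r k n a ρ α α') (vc p r k n α) := by
  intro i j x v hx hv
  have : NeZero p := ⟨P.root.pp.ne_zero⟩
  have h1 : α * x * α' = zt r k n ^ i.val • x := hx.2
  have h2 : α v = zt r k n ^ j.val • v := hv
  change α (x • v) = zt r k n ^ (i + j).val • (x • v)
  have h3 : α (x • v) = (α * x * α') (α v) := by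
    have h4 : (α * x * α') * α = α * x := by rw [mul_assoc, P.inv', mul_one]
    have h5 : (α * x * α') (α v) = ((α * x * α') * α) v := rfl
    rw [h5, h4]
    rfl
  have h6 : zt r k n ^ (i + j).val = zt r k n ^ (i.val + j.val) := by
    apply zt_congr P.root n
    rw [ZMod.val_add]
    exact Nat.mod_modEq _ _
  rw [h3, h1, h2, h6, LinearMap.smul_apply, map_smul, smul_smul, ← pow_add, Module.End.smul_def]

theorem vc_zero (P : Rp p r k n a ρ α α') : vc p r k n α 0 = ⊥ := by
  rw [eq_bot_iff]
  intro v hv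
  have h1 : α v = zt r k n ^ (0 : ZMod p).val • v := hv
  rw [ZMod.val_zero, pow_zero, one_smul] at h1
  have h2 : ∀ i : ℕ, (α ^ i) v = v := by
    intro i
    induction i with
    | zero => rw [pow_zero]; rfl
    | succ i ih => rw [pow_succ, Module.End.mul_apply, h1, ih]
  have h3 : (∑ i ∈ Finset.range p, α ^ i) v = (p : ZMod (r ^ n)) • v := by
    rw [LinearMap.sum_apply, Finset.sum_congr rfl (fun i _ => h2 i), Finset.sum_const, Finset.card_range,
      Nat.cast_smul_eq_nsmul]
  rw [P.sum, LinearMap.zero_apply] at h3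
  have h4 : v = 0 := by
    obtain ⟨u, hu⟩ := punit P
    have h5 : (u⁻¹ : (ZMod (r ^ n))ˣ).val • ((p : ZMod (r ^ n)) • v) = v := by
      rw [← hu, smul_smul, Units.inv_mul, one_smul]
    rw [← h5, ← h3, smul_zero]
  exact AddSubgroup.mem_bot.mpr h4

private def Ev (p r k n : ℕ) {A : Type*} [AddCommGroup A] [Module (ZMod (r ^ n)) A] (α : Module.End (ZMod (r ^ n)) A)
    (v : A) (i : ℕ) : A := ∑ t ∈ Finset.range p, zt r k n ^ (i * (p - t)) • (α ^ t) v

private theorem ev_mem (P : Rp p r k n a ρ α α') (v : A) (i : ZMod p) : Ev p r k n α v i.val ∈ vc p r k n α i := by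
  change α (Ev p r k n α v i.val) = zt r k n ^ i.val • Ev p r k n α v i.val
  have h1 : α (Ev p r k n α v i.val) = ∑ t ∈ Finset.range p, zt r k n ^ (i.val * (p + 1 - (t + 1))) • (α ^ (t + 1)) v := by
    unfold Ev
    rw [map_sum]
    apply Finset.sum_congr rfl
    intro t _
    rw [map_smul, pow_succ' α t, Module.End.mul_apply, Nat.add_sub_add_right]
  have h2 : zt r k n ^ i.val • Ev p r k n α v i.val = ∑ t ∈ Finset.range p, zt r k n ^ (i.val * (p + 1 - t)) • (α ^ t) v := by
    unfold Ev
    rw [Finset.smul_sum]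
    apply Finset.sum_congr rfl
    intro t ht
    have ht' : t < p := Finset.mem_range.mp ht
    rw [smul_smul, ← pow_add]
    congr 2
    have : p + 1 - t = (p - t) + 1 := by omega
    rw [this]
    ring
  have h3 := Finset.sum_range_succ (fun t => zt r k n ^ (i.val * (p + 1 - t)) • (α ^ t) v) p
  have h4 := Finset.sum_range_succ' (fun t => zt r k n ^ (i.val * (p + 1 - t)) • (α ^ t) v) p
  have h5 : zt r k n ^ (i.val * (p + 1 - p)) • (α ^ p) v = zt r k n ^ (i.val * (p + 1 - 0)) • (α ^ 0) v := by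
    rw [P.powp, pow_zero]
    congr 1
    apply zt_congr P.root n
    have e1 : p + 1 - p = 1 := by omega
    have e2 : i.val * (p + 1 - 0) = i.val * 1 + p * i.val := by
      rw [Nat.sub_zero]; ring
    rw [e1, e2]
    change (i.val * 1) % p = (i.val * 1 + p * i.val) % p
    rw [Nat.add_mul_mod_self_left]
  rw [h1, h2]
  rw [h3, h5] at h4
  exact (add_right_cancel h4).symm

private theorem ev_sum (P : Rp p r k n a ρ α α') (v : A) :
    ∑ i ∈ Finset.range p, Ev p r k n α v i = (p : ZMod (r ^ n)) • v := by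
  unfold Ev
  rw [Finset.sum_comm]
  have h1 : ∀ t ∈ Finset.range p, t ≠ 0 → ∑ i ∈ Finset.range p, zt r k n ^ (i * (p - t)) • (α ^ t) v = 0 := by
    intro t ht h0
    have ht' : t < p := Finset.mem_range.mp ht
    rw [← Finset.sum_smul]
    have h2 : ∑ i ∈ Finset.range p, zt r k n ^ (i * (p - t)) = 0 := by
      have h3 : ¬ p ∣ (p - t) := by
        intro hd
        have := Nat.le_of_dvd (by omega) hd
        omega
      rw [← zt_sum P.root n h3]
      apply Finset.sum_congr rfl
      intro i _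
      rw [mul_comm]
    rw [h2, zero_smul]
  rw [Finset.sum_eq_single 0 h1]
  · have h3 : ∀ i ∈ Finset.range p, zt r k n ^ (i * (p - 0)) • (α ^ 0) v = v := by
      intro i _
      rw [Nat.sub_zero, pow_zero, mul_comm, pow_mul, zt_pow P.root, one_pow, one_smul]
      rfl
    rw [Finset.sum_congr rfl h3, Finset.sum_const, Finset.card_range, Nat.cast_smul_eq_nsmul]
  · intro h
    exact absurd (Finset.mem_range.mpr P.root.pp.pos) h

theorem vc_span (P : Rp p r k n a ρ α α') (v : A) :
    v ∈ Submodule.span (ZMod (r ^ n)) {v : A | ∃ i : ZMod p, v ∈ vc p r k n α i} := by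
  have : NeZero p := ⟨P.root.pp.ne_zero⟩
  have h1 : (p : ZMod (r ^ n)) • v ∈ Submodule.span (ZMod (r ^ n)) {v : A | ∃ i : ZMod p, v ∈ vc p r k n α i} := by
    rw [← ev_sum P v, ← sum_val p (fun i => Ev p r k n α v i)]
    apply Submodule.sum_mem
    intro i _
    exact Submodule.subset_span ⟨i, ev_mem P v i⟩
  obtain ⟨u, hu⟩ := punit P
  have h5 : (u⁻¹ : (ZMod (r ^ n))ˣ).val • ((p : ZMod (r ^ n)) • v) = v := by
    rw [← hu, smul_smul, Units.inv_mul, one_smul]
  rw [← h5]
  exact Submodule.smul_mem _ _ h1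

theorem hom_zero (P : Rp p r k n a ρ α α') {l : List (ZMod p × Module.End (ZMod (r ^ n)) A)}
    (hl : Hm (lc p r k n a ρ α α') l) (hlen : l.length = hh p) : (l.map Prod.snd).prod = 0 := by
  apply LinearMap.ext
  intro v
  have h1 : Submodule.span (ZMod (r ^ n)) {v : A | ∃ i : ZMod p, v ∈ vc p r k n α i} ≤
      LinearMap.ker ((l.map Prod.snd).prod) := by
    rw [Submodule.span_le]
    rintro w ⟨i, hw⟩
    have h2 : ac l w = 0 :=
      kk P.root.pp (lc_cl P) (lc_zero P) (vc_act P) (vc_zero P) hl hlen hw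
    exact h2
  exact h1 (vc_span P v)

theorem lie_pow (P : Rp p r k n a ρ α α') : (lie p r k n a ρ) ^ (hh p) = ⊥ := by
  rw [lie_span P, Submodule.span_pow, Submodule.span_eq_bot]
  intro y hy
  rw [Set.mem_pow] at hy
  obtain ⟨f, rfl⟩ := hy
  have h1 : ∀ i : Fin (hh p), ∃ j : ZMod p, (f i : Module.End (ZMod (r ^ n)) A) ∈ lc p r k n a ρ α α' j :=
    fun i => (f i).2
  choose d hd using h1
  have h2 := hom_zero P (l := List.ofFn (fun i => (d i, (f i : Module.End (ZMod (r ^ n)) A))))
    (by
      intro t ht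
      rw [List.mem_ofFn] at ht
      obtain ⟨i, rfl⟩ := ht
      exact hd i) (by rw [List.length_ofFn])
  rw [List.map_ofFn] at h2
  exact h2

end Pool.Agent.FRK
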