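import Pool.Agent.FRK.RG
import Pool.Agent.FRS.Sub

/-!
# FRK/RH: the linear theorem

Let `𝔩 = lie p r k n a ρ`, `U = (Algebra.adjoin (ZMod (r^n)) (𝔩 : Set R)).toSubmodule`, `J = 𝔩 * U` (product of submodules).
(1) `𝔩^m ≤ U`, `U = ⨆ m, 𝔩^m` (`Algebra.adjoin_eq_span`, `Submonoid.closure`, or define `U := ⨆ m, 𝔩^m` directly, then `U * U ≤ U`,
    `1 ≤ U`).  `U * 𝔩 ≤ 𝔩 * U` (`𝔩^m * 𝔩 = 𝔩 * 𝔩^m`), so `J^m ≤ 𝔩^m * U` (induction: `𝔩^m * U * (𝔩 * U) ≤ 𝔩^m * 𝔩 * U * U`), for `m ≥ 1`;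
    `hh p ≥ 1` (`Nat.pos_pow`), so `J^(hh p) = ⊥` by `lie_pow`.
(2) `ρ g - 1 ∈ J` for all `g`: for an eigen-element `x`: `log_ex` (with `g = 1`) gives a logarithm `y ∈ 𝔩` of `ρ x`, and `ρ x - 1` is in the
    span of the `y^j`, `j ≥ 1` (`log_span`), `y^j = y * y^(j-1) ∈ 𝔩 * U`.  Products: `ρ (g g') - 1 = (ρ g - 1) (ρ g' - 1) + (ρ g - 1) +
    (ρ g' - 1)`, `J * J ≤ J`.  `FRS.gen` with `S = ⊤`: every `g` is in the closure of the eigen-elements; the inverse of an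
    eigen-element is an eigen-element (`FRS.eig_inv`), so use `Subgroup.closure_induction` with: the set of `g` with
    `ρ g - 1 ∈ J` and `ρ g⁻¹ - 1 ∈ J`, or `Subgroup.closure_induction''`.
(3) the product of the list is in `J^(length)`.
-/

set_option autoImplicit false

namespace Pool.Agent.FRK

open Pool.Agent.FRB (Inv Eig LF SS)
open Pool.Agent.FRS (Root Hyp)

universe u

section aux

variable {Λ : Type*} [CommRing Λ] {R : Type*} [Ring R] [Algebra Λ R]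

private theorem rh_mul (L : Submodule Λ R) : (⨆ m : ℕ, L ^ m) * (⨆ m : ℕ, L ^ m) ≤ ⨆ m : ℕ, L ^ m := by
  rw [Submodule.iSup_mul]
  refine iSup_le fun i => ?_
  rw [Submodule.mul_iSup]
  refine iSup_le fun j => ?_
  rw [← pow_add]
  exact le_iSup (fun m : ℕ => L ^ m) (i + j)

private theorem rh_one (L : Submodule Λ R) : 1 ≤ ⨆ m : ℕ, L ^ m := by
  have h := le_iSup (fun m : ℕ => L ^ m) 0
  rwa [pow_zero] at h

private theorem rh_comm (L : Submodule Λ R) : (⨆ m : ℕ, L ^ m) * L = L * ⨆ m : ℕ, L ^ m := by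
  rw [Submodule.iSup_mul, Submodule.mul_iSup]
  refine iSup_congr fun m => ?_
  rw [← pow_succ, pow_succ']

private theorem rh_pow (L : Submodule Λ R) (m : ℕ) :
    (L * ⨆ m : ℕ, L ^ m) ^ m ≤ L ^ m * ⨆ m : ℕ, L ^ m := by
  induction m with
  | zero =>
    rw [pow_zero, pow_zero, one_mul]
    exact rh_one L
  | succ m ih =>
    rw [pow_succ]
    calc (L * ⨆ m : ℕ, L ^ m) ^ m * (L * ⨆ m : ℕ, L ^ m)
        ≤ (L ^ m * ⨆ m : ℕ, L ^ m) * (L * ⨆ m : ℕ, L ^ m) := mul_le_mul' ih le_rfl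
      _ = L ^ m * ((⨆ m : ℕ, L ^ m) * L) * ⨆ m : ℕ, L ^ m := by simp only [mul_assoc]
      _ = L ^ (m + 1) * ((⨆ m : ℕ, L ^ m) * ⨆ m : ℕ, L ^ m) := by
          rw [rh_comm, pow_succ]
          simp only [mul_assoc]
      _ ≤ L ^ (m + 1) * ⨆ m : ℕ, L ^ m := mul_le_mul' le_rfl (rh_mul L)

private theorem rh_J (L : Submodule Λ R) : (L * ⨆ m : ℕ, L ^ m) * (L * ⨆ m : ℕ, L ^ m) ≤ L * ⨆ m : ℕ, L ^ m := by
  calc (L * ⨆ m : ℕ, L ^ m) * (L * ⨆ m : ℕ, L ^ m)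
      = L * ((⨆ m : ℕ, L ^ m) * L) * ⨆ m : ℕ, L ^ m := by simp only [mul_assoc]
    _ = L * (L * ((⨆ m : ℕ, L ^ m) * ⨆ m : ℕ, L ^ m)) := by
        rw [rh_comm]
        simp only [mul_assoc]
    _ ≤ L * (L * ⨆ m : ℕ, L ^ m) := mul_le_mul' le_rfl (mul_le_mul' le_rfl (rh_mul L))
    _ ≤ L * ((⨆ m : ℕ, L ^ m) * ⨆ m : ℕ, L ^ m) := by
        refine mul_le_mul' le_rfl (mul_le_mul' ?_ le_rfl)
        have h := le_iSup (fun m : ℕ => L ^ m) 1
        rwa [pow_one] at h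
    _ ≤ L * ⨆ m : ℕ, L ^ m := mul_le_mul' le_rfl (rh_mul L)

private theorem rh_list (J : Submodule Λ R) (l : List R) (h : ∀ x ∈ l, x ∈ J) : l.prod ∈ J ^ l.length := by
  induction l with
  | nil =>
    rw [List.prod_nil, List.length_nil, pow_zero]
    exact Submodule.mem_one.2 ⟨1, map_one _⟩
  | cons x l ih =>
    rw [List.prod_cons, List.length_cons, pow_succ']
    exact Submodule.mul_mem_mul (h x List.mem_cons_self) (ih fun y hy => h y (List.mem_cons_of_mem _ hy))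

end aux

variable {p r k n : ℕ} {X : Type u} [Group X] {a : MulAut X} {A : Type*} [AddCommGroup A] [Module (ZMod (r ^ n)) A]
  {ρ : X →* Module.End (ZMod (r ^ n)) A} {α α' : Module.End (ZMod (r ^ n)) A}

private theorem rh_eig (P : Rp p r k n a ρ α α') {i : ℕ} {x : X} (hx : Eig r k a i x) :
    ρ x - 1 ∈ lie p r k n a ρ * ⨆ m : ℕ, (lie p r k n a ρ) ^ m := by
  obtain ⟨y, hy⟩ := log_ex P hx 1
  have hy' : y ∈ lie p r k n a ρ := Submodule.subset_span ⟨i, x, 1, hx, hy⟩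
  rw [inv_one, one_mul, mul_one] at hy
  have hr : p - 2 < r := lt_of_le_of_lt (by omega) (big_two P.root)
  have h1 := log_span (Λ := ZMod (r ^ n)) (fun m h0 hm => unit_nat P.root n h0 (lt_of_le_of_lt hm hr)) hy
  refine Submodule.span_le.2 ?_ h1
  rintro _ ⟨j, hj, rfl⟩
  obtain ⟨j, rfl⟩ : ∃ j', j = j' + 1 := ⟨j - 1, by omega⟩
  rw [pow_succ']
  exact Submodule.mul_mem_mul hy' (le_iSup (fun m : ℕ => (lie p r k n a ρ) ^ m) j (Submodule.pow_mem_pow _ hy' j))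

private theorem rh_all (P : Rp p r k n a ρ α α') (g : X) :
    ρ g - 1 ∈ lie p r k n a ρ * ⨆ m : ℕ, (lie p r k n a ρ) ^ m := by
  have hg := FRS.gen (S := ⊤) P.root P.hyp (fun x _ => Subgroup.mem_top _) (Subgroup.mem_top g)
  have hmul : ∀ u v : X, ρ u - 1 ∈ lie p r k n a ρ * (⨆ m : ℕ, (lie p r k n a ρ) ^ m) →
      ρ v - 1 ∈ lie p r k n a ρ * (⨆ m : ℕ, (lie p r k n a ρ) ^ m) →
      ρ (u * v) - 1 ∈ lie p r k n a ρ * (⨆ m : ℕ, (lie p r k n a ρ) ^ m) := by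
    intro u v hu hv
    have h1 : ρ (u * v) - 1 = (ρ u - 1) * (ρ v - 1) + (ρ u - 1) + (ρ v - 1) := by
      rw [map_mul]
      noncomm_ring
    rw [h1]
    exact Submodule.add_mem _ (Submodule.add_mem _ (rh_J _ (Submodule.mul_mem_mul hu hv)) hu) hv
  have key : ρ g - 1 ∈ lie p r k n a ρ * (⨆ m : ℕ, (lie p r k n a ρ) ^ m) ∧
      ρ g⁻¹ - 1 ∈ lie p r k n a ρ * (⨆ m : ℕ, (lie p r k n a ρ) ^ m) := by
    refine Subgroup.closure_induction (p := fun g _ => ρ g - 1 ∈ lie p r k n a ρ * (⨆ m : ℕ, (lie p r k n a ρ) ^ m) ∧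
      ρ g⁻¹ - 1 ∈ lie p r k n a ρ * (⨆ m : ℕ, (lie p r k n a ρ) ^ m)) ?_ ?_ ?_ ?_ hg
    · rintro x ⟨_, i, _, _, hx⟩
      exact ⟨rh_eig P hx, rh_eig P (FRS.eig_inv P.root hx)⟩
    · rw [inv_one, map_one, sub_self]
      exact ⟨Submodule.zero_mem _, Submodule.zero_mem _⟩
    · intro x y _ _ hx hy
      refine ⟨hmul _ _ hx.1 hy.1, ?_⟩
      rw [mul_inv_rev]
      exact hmul _ _ hy.2 hx.2
    · intro x _ hx
      rw [inv_inv]
      exact ⟨hx.2, hx.1⟩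
  exact key.1

theorem rep (P : Rp p r k n a ρ α α') (l : List X) (hl : l.length = hh p) :
    (l.map fun g => ρ g - 1).prod = 0 := by
  have h1 := rh_list (lie p r k n a ρ * ⨆ m : ℕ, (lie p r k n a ρ) ^ m) (l.map fun g => ρ g - 1) (by
    intro x hx
    obtain ⟨g, -, rfl⟩ := List.mem_map.1 hx
    exact rh_all P g)
  rw [List.length_map, hl] at h1
  have h2 := rh_pow (lie p r k n a ρ) (hh p) h1
  rw [lie_pow P, Submodule.bot_mul] at h2
  exact (Submodule.mem_bot _).1 h2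

end Pool.Agent.FRK
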